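import Pool.Agent.Lib.MP_904b2a_gt.MV
import Pool.Agent.Lib.MP_904b2a_gt.H41.Cochains

/-!
# MP_904b2a_gt: the property `SmallC` for open covers
-/

open Set

namespace Pool.Agent.Lib.MP_904b2a_gt

theorem inS_iff_range {X : Type*} [TopologicalSpace X] {S : Set X} {n : ℕ} {σ : C(Simp n, X)} :
    InS S σ ↔ Set.range σ ⊆ S :=
  ⟨fun h => by rintro _ ⟨t, rfl⟩; exact h t, fun h t => h ⟨t, rfl⟩⟩

theorem sm_iff {X : Type*} [TopologicalSpace X] {U V : Set X} {n : ℕ} {σ : C(Simp n, X)} :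
    Sm U V σ ↔ σ ∈ H41.small (H41.two U V) n := by
  rw [H41.mem_small_two, Sm, inS_iff_range, inS_iff_range]

/-- The small simplices theorem for a cover by two open sets. -/
theorem smallC {X : Type*} [TopologicalSpace X] {A : Type*} [AddCommGroup A] {U V : Set X}
    (hU : IsOpen U) (hV : IsOpen V) (h : U ∪ V = univ) : SmallC U V A where
  extend n γ hγ := by
    obtain ⟨ψ, h1, h2⟩ := H41.exists_cocycle (H41.two U V) (H41.isOpen_two hU hV)
      (H41.iUnion_two h) γ (fun σ hσ => hγ σ (sm_iff.mpr hσ))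
    exact ⟨ψ, h1, fun σ hσ => h2 σ (sm_iff.mp hσ)⟩
  zero γ hγ := H41.cocycle_zero_eq_zero (H41.two U V) (H41.iUnion_two h) γ
    (fun σ hσ => hγ σ (sm_iff.mpr hσ))
  bound n γ hγ h0 := by
    obtain ⟨ψ, h1, h2⟩ := H41.exists_primitive (H41.two U V) (H41.isOpen_two hU hV)
      (H41.iUnion_two h) γ hγ 0 (fun σ hσ => by
        rw [h0 σ (sm_iff.mpr hσ), map_zero]
        rfl)
    exact ⟨ψ, fun σ hσ => h2 σ (sm_iff.mp hσ), h1⟩

end Pool.Agent.Lib.MP_904b2a_gt
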