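import Pool.Agent.Lib.MP_904b2a_gt.SkelCoh

/-!
# MP_904b2a_gt, module EXT: realisation of classes by maps to the unitary group
-/

open scoped BigOperators
open Metric Set Topology

namespace Pool.Agent.Lib.MP_904b2a_gt

noncomputable section

/-- Cell structures on the spheres `Sph i`. -/
def SphCellStatement : Prop :=
  ∀ i : ℕ, 1 ≤ i → ∀ s₀ : Sph i, Nonempty (CellAttach (2 * i - 1) (Sph i) {s₀} Unit)

section Point

variable {X : Type*} [TopologicalSpace X] {A : Type*} [AddCommGroup A]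

/-- Cohomology relative to a point. -/
theorem HR.toH_bijective_point (x₀ : X) (n : ℕ) :
    Function.Bijective (HR.toH (n := n + 1) (S := ({x₀} : Set X)) (A := A)) := by
  let r : C(X, ({x₀} : Set X)) := ContinuousMap.const _ ⟨x₀, rfl⟩
  have hr : r.comp (incl ({x₀} : Set X)) = ContinuousMap.id _ := by
    ext y
    exact (y.2).symm
  constructor
  · rw [injective_iff_map_eq_zero]
    intro v hv
    obtain ⟨w, rfl⟩ := (HR.exact_R v).mp hv
    rw [HR.exact_S]
    refine ⟨H.pb r w, ?_⟩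
    rw [H.pb_comp, hr, H.pb_id]
  · intro u
    apply (HR.exact_H u).mp
    exact H.eq_zero_of_subsingleton n _

end Point

section Prim

variable {G : Type} [Group G] [TopologicalSpace G] [IsTopologicalGroup G]

/-- `x` is primitive. -/
def Prim {n : ℕ} (x : H n G ℤ) : Prop :=
  ∀ (Y : Type) [TopologicalSpace Y] (u v : C(Y, G)), H.pb (u * v) x = H.pb u x + H.pb v x

variable {n : ℕ} {x : H n G ℤ}

theorem Prim.one (h : Prim x) {Y : Type} [TopologicalSpace Y] : H.pb (1 : C(Y, G)) x = 0 := by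
  have := h Y 1 1
  rw [mul_one] at this
  exact left_eq_add.mp this

theorem Prim.pow (h : Prim x) {Y : Type} [TopologicalSpace Y] (u : C(Y, G)) (m : ℕ) :
    H.pb (u ^ m) x = (m : ℤ) • H.pb u x := by
  induction m with
  | zero => rw [pow_zero, h.one, Nat.cast_zero, zero_smul]
  | succ m ih => rw [pow_succ, h, ih, Nat.cast_succ, add_smul, one_smul]

omit [IsTopologicalGroup G] in
theorem mapsTo_one {W : Type} [TopologicalSpace W] {S : Set W} :
    MapsTo (1 : C(W, G)) S {1} := fun _ _ => rfl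

/-- Primitivity for maps of pairs. -/
theorem Prim.rel {n : ℕ} {x : H (n + 1) G ℤ} (h : Prim x) {x' : HR (n + 1) ({1} : Set G) ℤ}
    (hx : HR.toH x' = x) {W : Type} [TopologicalSpace W] {S : Set W} (u v : C(W, G))
    (hu : MapsTo u S {1}) (hv : MapsTo v S {1}) (huv : MapsTo (u * v : C(W, G)) S {1}) :
    HR.pb (u * v) huv x' = HR.pb u hu x' + HR.pb v hv x' := by
  let p₁ : C(G × G, G) := ⟨Prod.fst, continuous_fst⟩
  let p₂ : C(G × G, G) := ⟨Prod.snd, continuous_snd⟩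
  have m1 : MapsTo p₁ {((1 : G), (1 : G))} {1} := by
    rintro _ rfl
    rfl
  have m2 : MapsTo p₂ {((1 : G), (1 : G))} {1} := by
    rintro _ rfl
    rfl
  have m3 : MapsTo (p₁ * p₂ : C(G × G, G)) {((1 : G), (1 : G))} {1} := by
    rintro _ rfl
    change (1 : G) * 1 = 1
    rw [mul_one]
  have key : HR.pb (p₁ * p₂) m3 x' = HR.pb p₁ m1 x' + HR.pb p₂ m2 x' := by
    apply (HR.toH_bijective_point ((1 : G), (1 : G)) n).1
    rw [map_add, HR.toH_pb, HR.toH_pb, HR.toH_pb, hx]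
    exact h _ p₁ p₂
  have m4 : MapsTo (u.prodMk v) S {((1 : G), (1 : G))} := by
    intro w hw
    exact Prod.ext (hu hw) (hv hw)
  have := congrArg (HR.pb (u.prodMk v) m4) key
  rw [map_add, HR.pb_comp, HR.pb_comp, HR.pb_comp] at this
  exact this

theorem Prim.rel_one {n : ℕ} {x : H (n + 1) G ℤ} (h : Prim x) {x' : HR (n + 1) ({1} : Set G) ℤ}
    (hx : HR.toH x' = x) {W : Type} [TopologicalSpace W] {S : Set W}
    (hu : MapsTo (1 : C(W, G)) S {1}) : HR.pb (1 : C(W, G)) hu x' = 0 := by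
  have h1 : MapsTo ((1 : C(W, G)) * 1 : C(W, G)) S {1} := by
    rw [mul_one]
    exact hu
  have := h.rel hx (1 : C(W, G)) 1 hu hu h1
  have e : HR.pb ((1 : C(W, G)) * 1) h1 x' = HR.pb (1 : C(W, G)) hu x' := by
    congr 1
    congr 1
    exact mul_one _
  rw [e] at this
  exact left_eq_add.mp this

theorem mapsTo_zpow {W : Type} [TopologicalSpace W] {S : Set W} {u : C(W, G)}
    (hu : MapsTo u S {1}) (a : ℤ) : MapsTo (u ^ a : C(W, G)) S {1} := by
  intro w hw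
  have : u w = 1 := hu hw
  change (u ^ a : C(W, G)) w = 1
  rw [ContinuousMap.zpow_apply, this, one_zpow]

theorem Prim.rel_zpow {n : ℕ} {x : H (n + 1) G ℤ} (h : Prim x)
    {x' : HR (n + 1) ({1} : Set G) ℤ} (hx : HR.toH x' = x) {W : Type} [TopologicalSpace W]
    {S : Set W} (u : C(W, G)) (hu : MapsTo u S {1}) (a : ℤ) :
    HR.pb (u ^ a) (mapsTo_zpow hu a) x' = a • HR.pb u hu x' := by
  have hcongr : ∀ (v w : C(W, G)) (hv : MapsTo v S {1}) (hw : MapsTo w S {1}), v = w →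
      HR.pb v hv x' = HR.pb w hw x' := by
    rintro v w hv hw rfl
    rfl
  have hnat : ∀ (m : ℕ), HR.pb (u ^ (m : ℤ)) (mapsTo_zpow hu m) x' = (m : ℤ) • HR.pb u hu x' := by
    intro m
    induction m with
    | zero =>
      rw [Nat.cast_zero, zero_smul]
      rw [hcongr _ 1 _ mapsTo_one (zpow_zero u)]
      exact h.rel_one hx _
    | succ m ih =>
      have e : u ^ ((m + 1 : ℕ) : ℤ) = u ^ (m : ℤ) * u := by
        rw [Nat.cast_succ, zpow_add, zpow_one]
      have hm : MapsTo (u ^ (m : ℤ) * u : C(W, G)) S {1} := by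
        rw [← e]
        exact mapsTo_zpow hu _
      rw [hcongr _ _ (mapsTo_zpow hu _) hm e, h.rel hx _ _ (mapsTo_zpow hu _) hu hm, ih,
        Nat.cast_succ, add_smul, one_smul]
  rcases Int.eq_nat_or_neg a with ⟨m, rfl | rfl⟩
  · exact hnat m
  · have e : u ^ (-(m : ℤ)) * u ^ (m : ℤ) = 1 := by
      rw [← zpow_add, neg_add_cancel, zpow_zero]
    have hm : MapsTo (u ^ (-(m : ℤ)) * u ^ (m : ℤ) : C(W, G)) S {1} := by
      rw [e]
      exact mapsTo_one
    have h1 := h.rel hx _ _ (mapsTo_zpow hu (-(m : ℤ))) (mapsTo_zpow hu (m : ℤ)) hm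
    rw [hcongr _ 1 hm mapsTo_one e, h.rel_one hx, hnat] at h1
    rw [neg_smul]
    exact eq_neg_of_add_eq_zero_left h1.symm

end Prim

section Ext

variable {X : Type} [TopologicalSpace X] [T2Space X] {C : Set X} [CWComplex C]

/-- The inclusion of a skeleton in the complex. -/
abbrev SK.inclC (C : Set X) [CWComplex C] (k : ℕ) : C(SK C k, C) := inclSub (SK_subset k)

theorem IsCohSphere.torsionfree {k : ℕ} {S : Type} [TopologicalSpace S] (h : IsCohSphere k S)
    {m : ℤ} (hm : m ≠ 0) {u : H k S ℤ} (hu : m • u = 0) : u = 0 := by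
  obtain ⟨e, -⟩ := h.top
  have h1 : m • e ℤ u = 0 := by rw [← map_zsmul, hu, map_zero]
  have h2 : e ℤ u = 0 := (smul_eq_zero.mp h1).resolve_left hm
  exact (e ℤ).map_eq_zero_iff.mp h2

/-- The data of one factor: a path connected group `G`, a primitive class `x ∈ H^N(G)`,
`N = 2i - 1`, `x = k q^* ι`, `(q β)^* ι = b ι`. -/
structure Fac (j : ℕ) (G : Type) [Group G] [TopologicalSpace G] [IsTopologicalGroup G] where
  x : H (2 * j + 1) G ℤ
  prim : Prim x
  q : C(G, Sph (j + 1))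
  β : C(Sph (j + 1), G)
  ι : H (2 * j + 1) (Sph (j + 1)) ℤ
  k : ℤ
  b : ℤ
  k_ne : k ≠ 0
  b_ne : b ≠ 0
  gen : ∀ c : H (2 * j + 1) (Sph (j + 1)) ℤ, ∃ n : ℤ, c = n • ι
  x_eq : x = k • H.pb q ι
  qβ : H.pb (q.comp β) ι = b • ι

variable {j : ℕ} {G : Type} [Group G] [TopologicalSpace G] [IsTopologicalGroup G]

theorem Fac.pb_β (F : Fac j G) : H.pb F.β F.x = (F.k * F.b) • F.ι := by
  rw [F.x_eq, map_zsmul, H.pb_comp, F.qβ, smul_smul]

/-- The normalised `β`. -/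
def Fac.β' (F : Fac j G) (s₀ : Sph (j + 1)) : C(Sph (j + 1), G) :=
  F.β * ContinuousMap.const _ (F.β s₀)⁻¹

theorem Fac.β'_apply (F : Fac j G) (s₀ : Sph (j + 1)) : F.β' s₀ s₀ = 1 :=
  mul_inv_cancel (F.β s₀)

theorem Fac.pb_β' (F : Fac j G) (s₀ : Sph (j + 1)) : H.pb (F.β' s₀) F.x = (F.k * F.b) • F.ι := by
  rw [Fac.β', F.prim, F.pb_β]
  have h1 : H.pb (ContinuousMap.const (Sph (j + 1)) (F.β s₀)⁻¹) F.x = 0 := by
    have e : ContinuousMap.const (Sph (j + 1)) (F.β s₀)⁻¹ =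
      (ContinuousMap.const Unit (F.β s₀)⁻¹).comp (ContinuousMap.const (Sph (j + 1)) ()) := rfl
    rw [e, ← H.pb_comp, H.eq_zero_of_subsingleton (2 * j)
      (H.pb (ContinuousMap.const Unit (F.β s₀)⁻¹) F.x), map_zero]
  rw [h1, add_zero]

/-- The first step: a class on the `N`-skeleton, `N = 2j + 1`. -/
theorem ext_base (CAT : CatStatement) (BALL : BallStatement) (R1 : R1Statement)
    (SCOH : SphereCohStatement) (SCELL : SphCellStatement) (GLUE : GlueStatement) (F : Fac j G) :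
    ∃ M : ℤ, M ≠ 0 ∧ ∀ (X : Type) [TopologicalSpace X] [T2Space X] (C : Set X) [CWComplex C]
      (z : H (2 * j + 1) (SK C (2 * j + 1 + 1)) ℤ),
      ∃ v : C(SK C (2 * j + 1 + 1), G), H.pb v F.x = M • z := by
  have hsph : IsCohSphere (2 * j + 1) (Sph (j + 1)) := SCOH.2 (j + 1) (by omega)
  let s₀ : Sph (j + 1) := ⟨EuclideanSpace.single 0 1, by simp⟩
  obtain ⟨cs⟩ := SCELL (j + 1) (by omega) s₀
  have cs' : CellAttach (2 * j + 1) (Sph (j + 1)) {s₀} Unit := cs
  obtain ⟨-, e, he⟩ := BALL (2 * j + 1)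
  -- the generator relative to the base point
  obtain ⟨ι', hι'⟩ := (HR.toH_bijective_point (A := ℤ) s₀ (2 * j)).2 F.ι
  obtain ⟨x', hx'⟩ := (HR.toH_bijective_point (A := ℤ) (1 : G) (2 * j)).2 F.x
  have hβ' : MapsTo (F.β' s₀) {s₀} {1} := by
    rintro _ rfl
    exact F.β'_apply s₀
  have hβx : HR.pb (F.β' s₀) hβ' x' = (F.k * F.b) • ι' := by
    apply (HR.toH_bijective_point (A := ℤ) s₀ (2 * j)).1
    rw [map_zsmul, hι', HR.toH_pb, hx', F.pb_β']
  have hι0 : F.ι ≠ 0 := by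
    intro h0
    obtain ⟨e', -⟩ := hsph.top
    obtain ⟨n, hn⟩ := F.gen ((e' ℤ).symm 1)
    rw [h0, smul_zero] at hn
    have := congrArg (e' ℤ) hn
    rw [AddEquiv.apply_symm_apply, map_zero] at this
    exact one_ne_zero this
  set κ : ℤ := e ℤ (HR.pb (cs'.χ ()) (cs'.mapsTo ()) ι') with hκ
  have hκ0 : κ ≠ 0 := by
    intro h0
    have h1 : HR.pb (cs'.χ ()) (cs'.mapsTo ()) ι' = 0 := (e ℤ).map_eq_zero_iff.mp h0
    have h2 : ι' = 0 := by
      apply (CAT _ _ _ _ cs' ℤ (2 * j + 1)).1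
      funext τ
      change HR.pb (cs'.χ τ) (cs'.mapsTo τ) ι' = HR.pb (cs'.χ τ) (cs'.mapsTo τ) 0
      rw [map_zero]
      exact h1
    apply hι0
    rw [← hι', h2, map_zero]
  refine ⟨F.k * F.b * κ, mul_ne_zero (mul_ne_zero F.k_ne F.b_ne) hκ0, ?_⟩
  intro X _ _ C _ z
  let at' := skelAttach C (2 * j + 1)
  -- the relative class
  obtain ⟨w, hw⟩ := (HR.exact_H (S := SK.sub C (2 * j + 1)) z).mp (by
    apply (H.pb_bijective_of_homeomorph (SK.homeo C (2 * j + 1))).1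
    rw [map_zero]
    exact SK.eq_zero R1 le_rfl _)
  let a : RelCWComplex.cell C (2 * j + 1) → ℤ :=
    fun τ => e ℤ (HR.pb (at'.χ τ) (at'.mapsTo τ) w)
  have hm1 : MapsTo ((F.β' s₀).comp (cs'.χ ())) (bSB (2 * j + 1)) {1} :=
    hβ'.comp (cs'.mapsTo ())
  obtain ⟨v, hv1, hv2⟩ := GLUE _ _ _ _ at' G 1 (fun τ => ((F.β' s₀).comp (cs'.χ ())) ^ (a τ))
    (fun τ x hx => mapsTo_zpow hm1 (a τ) hx)
  have hvm : MapsTo v (SK.sub C (2 * j + 1)) {1} := fun y hy => hv1 ⟨y, hy⟩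
  refine ⟨v, ?_⟩
  rw [← hx', ← HR.toH_pb v hvm, ← hw, ← map_zsmul]
  congr 1
  apply (CAT _ _ _ _ at' ℤ (2 * j + 1)).1
  funext τ
  apply (e ℤ).injective
  change e ℤ (HR.pb (at'.χ τ) (at'.mapsTo τ) (HR.pb v hvm x')) =
    e ℤ (HR.pb (at'.χ τ) (at'.mapsTo τ) ((F.k * F.b * κ) • w))
  rw [map_zsmul, map_zsmul, HR.pb_comp]
  have e1 : v.comp (at'.χ τ) = ((F.β' s₀).comp (cs'.χ ())) ^ (a τ) := by
    ext1 y
    exact hv2 τ y
  have e2 : HR.pb (v.comp (at'.χ τ)) (hvm.comp (at'.mapsTo τ)) x' =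
      HR.pb (((F.β' s₀).comp (cs'.χ ())) ^ (a τ)) (mapsTo_zpow hm1 (a τ)) x' := by
    congr 1
    congr 1
  rw [e2, F.prim.rel_zpow hx' _ hm1, ← HR.pb_comp _ _ (cs'.mapsTo ()) hβ', hβx, map_zsmul,
    map_zsmul, map_zsmul, ← hκ]
  change a τ • (F.k * F.b) • κ = (F.k * F.b * κ) • a τ
  simp only [smul_eq_mul]
  ring

/-- The inductive step: extension over the `(s+1)`-cells. -/
theorem ext_step [PathConnectedSpace G] (R1 : R1Statement) (SCOH : SphereCohStatement)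
    (SERRE : SerreLite) (GLUE : GlueStatement) (F : Fac j G) (s : ℕ) (hs : 2 * j + 1 ≤ s)
    (M : ℤ) (hM : M ≠ 0) :
    ∃ M' : ℤ, M' ≠ 0 ∧ ∀ (X : Type) [TopologicalSpace X] [T2Space X] (C : Set X) [CWComplex C]
      (z : H (2 * j + 1) (SK C (s + 2)) ℤ) (v : C(SK C (s + 1), G)),
      H.pb v F.x = M • H.pb (SK.incl (Nat.le_succ (s + 1))) z →
      ∃ v' : C(SK C (s + 2), G), H.pb v' F.x = M' • z := by
  obtain ⟨D, hD, hS⟩ := SERRE (j + 1) s (by omega) (by omega)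
  refine ⟨D * F.b * M, mul_ne_zero (mul_ne_zero (by exact_mod_cast hD.ne') F.b_ne) hM, ?_⟩
  intro X _ _ C _ z v hv
  let at' := skelAttach C (s + 1)
  have key : ∀ τ : RelCWComplex.cell C (s + 1), ∃ K : C(CB (s + 1), G), ∀ y : SB (s + 1),
      K (SB.incl (s + 1) y) = (F.β (F.q (v (SK.att (s + 1) τ y)))) ^ D := by
    intro τ
    refine hS G F.β (F.q.comp (v.comp (SK.att (s + 1) τ))) ?_
    intro hsj c
    obtain rfl : s = 2 * j + 1 := by omega
    obtain ⟨n, rfl⟩ := F.gen c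
    have h1 : F.k • H.pb (F.q.comp (v.comp (SK.att (2 * j + 1 + 1) τ))) F.ι = 0 := by
      rw [← H.pb_comp, ← H.pb_comp, ← map_zsmul, ← map_zsmul, ← F.x_eq, hv, map_zsmul,
        SK.pb_att_eq_zero (by omega), smul_zero]
    rw [map_zsmul, IsCohSphere.torsionfree (SCOH.1 (2 * j + 1) (by omega)).2 F.k_ne h1, smul_zero]
  choose K hK using key
  let f : C(SK.sub C (s + 1), G) := ((F.β.comp (F.q.comp v)) ^ D).comp
    ((SK.homeo C (s + 1)).symm : C(SK.sub C (s + 1), SK C (s + 1)))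
  obtain ⟨v', hv1, hv2⟩ := GLUE _ _ _ _ at' G f K
    (fun τ y hy => hK τ ⟨y.1, mem_sphere_zero_iff_norm.mpr hy⟩)
  refine ⟨v', ?_⟩
  apply SK.pb_injective R1 (show 2 * j + 1 ≠ s + 1 by omega)
  have e1 : v'.comp (SK.incl (Nat.le_succ (s + 1))) = (F.β.comp (F.q.comp v)) ^ D := by
    ext1 y
    exact hv1 (SK.homeo C (s + 1) y)
  rw [H.pb_comp, e1, F.prim.pow, ← H.pb_comp, ← H.pb_comp, F.pb_β, map_zsmul, map_zsmul,
    mul_comm F.k, mul_smul F.b, ← map_zsmul, ← map_zsmul, ← F.x_eq, map_zsmul, hv, map_zsmul]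
  simp only [smul_smul]
  congr 1
  ring

/-- Maps on all skeleta. -/
theorem ext_skel [PathConnectedSpace G] (CAT : CatStatement) (BALL : BallStatement)
    (R1 : R1Statement) (SCOH : SphereCohStatement) (SCELL : SphCellStatement)
    (SERRE : SerreLite) (GLUE : GlueStatement) (F : Fac j G) (s : ℕ) :
    ∃ M : ℤ, M ≠ 0 ∧ ∀ (X : Type) [TopologicalSpace X] [T2Space X] (C : Set X) [CWComplex C]
      (z : H (2 * j + 1) C ℤ), ∃ v : C(SK C (2 * j + 1 + s + 1), G),
      H.pb v F.x = M • H.pb (SK.inclC C (2 * j + 1 + s + 1)) z := by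
  induction s with
  | zero =>
    obtain ⟨M, hM, h⟩ := ext_base CAT BALL R1 SCOH SCELL GLUE F
    exact ⟨M, hM, fun X _ _ C _ z => h X C _⟩
  | succ s ih =>
    obtain ⟨M, hM, h⟩ := ih
    obtain ⟨M', hM', h'⟩ := ext_step R1 SCOH SERRE GLUE F (2 * j + 1 + s) (by omega) M hM
    refine ⟨M', hM', fun X _ _ C _ z => ?_⟩
    obtain ⟨v, hv⟩ := h X C z
    refine h' X C (H.pb (SK.inclC C _) z) v ?_
    rw [hv, H.pb_comp]
    rfl

/-- Realisation by maps to one factor: the map factors through the sphere. -/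
theorem ext_one [PathConnectedSpace G] (CAT : CatStatement) (BALL : BallStatement)
    (R1 : R1Statement) (SCOH : SphereCohStatement) (SCELL : SphCellStatement)
    (SERRE : SerreLite) (GLUE : GlueStatement) (F : Fac j G) (d : ℕ) :
    ∃ M : ℤ, M ≠ 0 ∧ ∀ (X : Type) [TopologicalSpace X] [T2Space X] (C : Set X) [CWComplex C],
      (∀ n, d < n → IsEmpty (RelCWComplex.cell C n)) →
      ∀ z : H (2 * j + 1) C ℤ, ∃ w : C(C, Sph (j + 1)), H.pb (F.β.comp w) F.x = M • z := by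
  obtain ⟨M, hM, h⟩ := ext_skel CAT BALL R1 SCOH SCELL SERRE GLUE F d
  refine ⟨F.b * M, mul_ne_zero F.b_ne hM, ?_⟩
  intro X _ _ C _ hd z
  obtain ⟨v, hv⟩ := h X C z
  have hC : C ⊆ SK C (2 * j + 1 + d + 1) := by
    have e : SK C (2 * j + 1 + d + 1) = C := SK_eq_self (fun n hn => hd n (by omega))
    rw [e]
  refine ⟨F.q.comp (v.comp (inclSub hC)), ?_⟩
  have e1 : H.pb (v.comp (inclSub hC)) F.x = M • z := by
    rw [← H.pb_comp, hv, map_zsmul, H.pb_comp]
    congr 1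
    exact H.pb_id z
  rw [← H.pb_comp, ← H.pb_comp, F.pb_β, map_zsmul, map_zsmul, mul_comm F.k, mul_smul F.b,
    ← map_zsmul, ← map_zsmul, ← F.x_eq, map_zsmul, e1, smul_smul]

/-- The data of a factor of `U(r)`. -/
def CheFac.fac {𝒞 : ChernTheory} {r : ℕ} {x : CheData 𝒞 r} {j : ℕ} (f : CheFac x j)
    (hj : j < r) : Fac j (UG (j + 1)) where
  x := H.pb ⟨f.e, f.he⟩ (x.x j)
  prim := by
    intro Y _ u v
    rw [H.pb_comp, H.pb_comp, H.pb_comp, ← x.prim Y _ _ j hj]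
    congr 2
    ext1 y
    exact map_mul f.e (u y) (v y)
  q := f.q
  β := f.β
  ι := f.ι
  k := f.k
  b := f.b
  k_ne := f.k_ne
  b_ne := f.b_ne
  gen := f.gen
  x_eq := f.x_eq
  qβ := f.qβ

/-- **Module EXT**. -/
theorem extStatement (CAT : CatStatement) (BALL : BallStatement) (R1 : R1Statement)
    (SCOH : SphereCohStatement) (SCELL : SphCellStatement) (SERRE : SerreLite)
    (GLUE : GlueStatement) (UP : UPathStatement) : ExtStatement := by
  intro 𝒞 r x hx d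
  have hprim : ∀ j, j < r → Prim (x.x j) := fun j hj Y _ u v => x.prim Y u v j hj
  have key : ∀ j, ∃ M : ℤ, M ≠ 0 ∧ (j < r → ∀ (X : Type) [TopologicalSpace X] [T2Space X]
      (C : Set X) [CWComplex C], (∀ n, d < n → IsEmpty (RelCWComplex.cell C n)) →
      ∀ z : H (2 * j + 1) C ℤ, ∃ g : C(C, UG r), H.pb g (x.x j) = M • z ∧
        ∀ l, l < r → l ≠ j → H.pb g (x.x l) = 0) := by
    intro j
    by_cases hj : j < r
    · obtain ⟨f⟩ := hx j hj
      have := UP (j + 1)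
      obtain ⟨M, hM, h⟩ := ext_one CAT BALL R1 SCOH SCELL SERRE GLUE (f.fac hj) d
      refine ⟨M, hM, fun _ X _ _ C _ hd z => ?_⟩
      obtain ⟨w, hw⟩ := h X C hd z
      refine ⟨(⟨f.e, f.he⟩ : C(UG (j + 1), UG r)).comp ((f.fac hj).β.comp w), ?_, ?_⟩
      · rw [← H.pb_comp]
        exact hw
      · intro l _ hlj
        rw [← H.pb_comp, ← H.pb_comp]
        have hsph : IsCohSphere (2 * j + 1) (Sph (j + 1)) := SCOH.2 (j + 1) (by omega)
        rw [hsph.vanish ℤ (2 * l + 1) (by omega) (by omega)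
          (H.pb (f.fac hj).β (H.pb (⟨f.e, f.he⟩ : C(UG (j + 1), UG r)) (x.x l))), map_zero]
    · exact ⟨1, one_ne_zero, fun h => absurd h hj⟩
  choose D hD h using key
  refine ⟨D, hD, ?_⟩
  intro X _ _ C _ hd z
  choose g hg1 hg2 using fun (j : ℕ) (hj : j < r) => h j hj X C hd (z j)
  -- the product of the maps
  have hprod : ∀ n, n ≤ r → ∃ G : C(C, UG r), ∀ l, l < r →
      H.pb G (x.x l) = if l < n then D l • z l else 0 := by
    intro n
    induction n with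
    | zero =>
      intro _
      refine ⟨1, fun l hl => ?_⟩
      rw [if_neg (by omega)]
      exact (hprim l hl).one
    | succ n ih =>
      intro hn
      obtain ⟨G, hG⟩ := ih (by omega)
      refine ⟨G * g n (by omega), fun l hl => ?_⟩
      rw [hprim l hl, hG l hl]
      rcases lt_trichotomy l n with h1 | rfl | h1
      · rw [if_pos h1, if_pos (by omega), hg2 n (by omega) l hl (by omega), add_zero]
      · rw [if_neg (lt_irrefl _), if_pos (by omega), hg1 l (by omega), zero_add]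
      · rw [if_neg (by omega), if_neg (by omega), hg2 n (by omega) l hl (by omega), add_zero]
  obtain ⟨G, hG⟩ := hprod r le_rfl
  refine ⟨G, fun j hj => ?_⟩
  rw [hG j hj, if_pos hj]

end Ext

end

end Pool.Agent.Lib.MP_904b2a_gt
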