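import Pool.Agent.Lib.MP_904b2a_gt.R12
import Pool.Agent.Lib.MP_904b2a_gt.ExtMod
import Pool.Agent.Lib.MP_904b2a_gt.H1.Attach

/-!
# MP_904b2a_gt: the relative cohomology of the ball
-/

open Metric Set

namespace Pool.Agent.Lib.MP_904b2a_gt

noncomputable section

section Triple

variable {W : Type*} [TopologicalSpace W] {A B : Type*} [AddCommGroup A] [AddCommGroup B]

/-- The shift `H^m(S, s₀) → H^{m+1}(W, S)`. -/
def shift (S : Set W) (s₀ : S) (m : ℕ) : HR m ({s₀} : Set S) A →+ HR (m + 1) S A :=
  HR.delta.comp HR.toH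

theorem H0_point [Subsingleton W] [Nonempty W] (u : H 0 W A) : ∃ a : A, u = H.const W a := by
  obtain ⟨z, rfl⟩ := H.mk_surjective 0 u
  obtain ⟨w⟩ := ‹Nonempty W›
  refine ⟨z.1 (cs 0 w), ?_⟩
  rw [H.const, H.mk_eq_mk]
  change z.1 - (fun _ => z.1 (cs 0 w)) = 0
  funext σ
  change z.1 σ - z.1 (cs 0 w) = 0
  rw [Subsingleton.elim σ (cs 0 w), sub_self]

theorem H0_contractible [ContractibleSpace W] (u : H 0 W A) : ∃ a : A, u = H.const W a := by
  obtain ⟨e⟩ := ContractibleSpace.hequiv_unit W
  obtain ⟨v, rfl⟩ := (H.pb_bijective (n := 0) (A := A) (f := e.toFun) (g := e.invFun)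
    e.left_inv e.right_inv).2 u
  obtain ⟨a, rfl⟩ := H0_point v
  exact ⟨a, H.pb_const _ a⟩

theorem H.const_eq_zero_iff [Nonempty W] (a : A) : H.const W a = 0 ↔ a = 0 := by
  constructor
  · intro h
    obtain ⟨w⟩ := ‹Nonempty W›
    have h0 := H.mk_eq_zero.mp h
    exact congrFun (show (fun _ => a : Coch 0 W A) = 0 from h0) (cs 0 w)
  · rintro rfl
    rfl

theorem HR.toH_injective_point {S : Type*} [TopologicalSpace S] (s₀ : S) (m : ℕ) :
    Function.Injective (HR.toH (n := m) (S := ({s₀} : Set S)) (A := A)) := by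
  cases m with
  | zero => exact HR.toH_injective_zero
  | succ m => exact (HR.toH_bijective_point s₀ m).1

/-- The shift is bijective if `W` is contractible. -/
theorem shift_bijective [ContractibleSpace W] (S : Set W) (s₀ : S) (m : ℕ) :
    Function.Bijective (shift (A := A) S s₀ m) := by
  constructor
  · rw [injective_iff_map_eq_zero]
    intro v hv
    obtain ⟨u, hu⟩ := (HR.exact_S (HR.toH v)).mp hv
    apply HR.toH_injective_point s₀ m
    rw [map_zero, ← hu]
    cases m with
    | succ m => rw [H.eq_zero_of_contractible m u, map_zero]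
    | zero =>
      obtain ⟨a, rfl⟩ := H0_contractible u
      have h1 : H.pb (incl ({s₀} : Set S)) (HR.toH v) = 0 := (HR.exact_H _).mpr ⟨v, rfl⟩
      rw [← hu, H.pb_const, H.pb_const, H.const_eq_zero_iff] at h1
      rw [h1, H.const_zero, map_zero]
  · intro w
    have h1 : HR.toH w = 0 := H.eq_zero_of_contractible m _
    obtain ⟨y, rfl⟩ := (HR.exact_R w).mp h1
    cases m with
    | succ m =>
      obtain ⟨v, rfl⟩ := (HR.toH_bijective_point s₀ m).2 y
      exact ⟨v, rfl⟩
    | zero =>
      obtain ⟨a, ha⟩ := H0_point (H.pb (incl ({s₀} : Set S)) y)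
      obtain ⟨v, hv⟩ := (HR.exact_H (y - H.const S a)).mp (by
        rw [map_sub, ha, H.pb_const, sub_self])
      refine ⟨v, ?_⟩
      change HR.delta (HR.toH v) = _
      rw [hv, map_sub, sub_eq_self]
      exact (HR.exact_S _).mpr ⟨H.const W a, H.pb_const _ a⟩

theorem shift_cm (g : A →+ B) (S : Set W) (s₀ : S) (m : ℕ) (u : HR m ({s₀} : Set S) A) :
    shift S s₀ m (HR.cm g u) = HR.cm g (shift S s₀ m u) := by
  change HR.delta (HR.toH (HR.cm g u)) = HR.cm g (HR.delta (HR.toH u))
  rw [HR.toH_cm, HR.delta_cm]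

end Triple

/-- Homeomorphisms of pairs. -/
theorem HR.pb_bijective_homeo {X Y : Type*} [TopologicalSpace X] [TopologicalSpace Y]
    {A : Type*} [AddCommGroup A] (e : X ≃ₜ Y) {S : Set X} {T : Set Y} (h : MapsTo e S T)
    (h' : MapsTo e.symm T S) (n : ℕ) :
    Function.Bijective (HR.pb (n := n) (A := A) (e : C(X, Y)) (S := S) (T := T) h) := by
  refine Function.bijective_iff_has_inverse.mpr
    ⟨HR.pb (e.symm : C(Y, X)) (S := T) (T := S) h', fun u => ?_, fun u => ?_⟩
  · rw [HR.pb_comp]
    have h1 : ∀ (f : C(Y, Y)) (hf : MapsTo f T T), f = ContinuousMap.id Y → HR.pb f hf u = u := by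
      rintro f hf rfl
      exact HR.pb_id u
    apply h1
    ext x
    simp
  · rw [HR.pb_comp]
    have h1 : ∀ (f : C(X, X)) (hf : MapsTo f S S), f = ContinuousMap.id X → HR.pb f hf u = u := by
      rintro f hf rfl
      exact HR.pb_id u
    apply h1
    ext x
    simp

instance (k : ℕ) : ContractibleSpace (CB k) :=
  (convex_closedBall (0 : Fin k → ℝ) 1).contractibleSpace ⟨0, by simp⟩

/-- The inductive step: `H^{m+1}(D^{k+1}, S^k) = H^m(S^k, s₀) = H^m(D^k, S^{k-1})`. -/
theorem ball_step {k : ℕ} (s₀ : ↥(bSB (k + 1)))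
    (c : CellAttach k ↥(bSB (k + 1)) {s₀} Unit) (m : ℕ) :
    ∃ e : ∀ (A : Type) [AddCommGroup A], HR (m + 1) (bSB (k + 1)) A ≃+ HR m (bSB k) A,
      ∀ (A B : Type) [AddCommGroup A] [AddCommGroup B] (g : A →+ B)
        (u : HR (m + 1) (bSB (k + 1)) A), e B (HR.cm g u) = HR.cm g (e A u) := by
  have hb : ∀ (A : Type) [AddCommGroup A],
      Function.Bijective (HR.pb (n := m) (A := A) (c.χ ()) (c.mapsTo ())) := by
    intro A _
    have h := catStatement k _ _ _ c A m
    constructor
    · intro u v huv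
      apply h.1
      funext τ
      exact huv
    · intro w
      obtain ⟨u, hu⟩ := h.2 (fun _ => w)
      exact ⟨u, congrFun hu ()⟩
  refine ⟨fun A _ => (AddEquiv.ofBijective (shift (A := A) (bSB (k + 1)) s₀ m)
    (shift_bijective _ s₀ m)).symm.trans (AddEquiv.ofBijective (HR.pb (n := m) (A := A) (c.χ ())
      (c.mapsTo ())) (hb A)), ?_⟩
  intro A B _ _ g u
  obtain ⟨v, rfl⟩ := (shift_bijective (A := A) (bSB (k + 1)) s₀ m).2 u
  have e1 : ∀ (A : Type) [AddCommGroup A] (v : HR m ({s₀} : Set ↥(bSB (k + 1))) A),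
      (AddEquiv.ofBijective (shift (A := A) (bSB (k + 1)) s₀ m)
        (shift_bijective _ s₀ m)).symm (shift (bSB (k + 1)) s₀ m v) = v := by
    intro A _ v
    rw [AddEquiv.symm_apply_eq]
    rfl
  change HR.pb (c.χ ()) (c.mapsTo ()) ((AddEquiv.ofBijective (shift (A := B) (bSB (k + 1)) s₀ m)
      (shift_bijective _ s₀ m)).symm (HR.cm g (shift (bSB (k + 1)) s₀ m v))) =
    HR.cm g (HR.pb (c.χ ()) (c.mapsTo ())
      ((AddEquiv.ofBijective (shift (A := A) (bSB (k + 1)) s₀ m)
        (shift_bijective _ s₀ m)).symm (shift (bSB (k + 1)) s₀ m v)))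
  rw [← shift_cm, e1, e1, HR.pb_cm]

/-- The cell structure needed for the computation. -/
def BallCells : Prop :=
  ∀ k : ℕ, ∃ s₀ : ↥(bSB (k + 1)), Nonempty (CellAttach k ↥(bSB (k + 1)) {s₀} Unit)

theorem ball_of (hC : BallCells) : BallStatement := by
  intro k
  induction k with
  | zero =>
    have hemp : bSB 0 = ∅ := by
      ext x
      simp only [bSB, mem_setOf_eq, mem_empty_iff_false, iff_false]
      rw [Subsingleton.elim x.1 0, norm_zero]
      exact zero_ne_one
    constructor
    · intro m hm A _ u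
      obtain ⟨n, rfl⟩ : ∃ n, m = n + 1 := ⟨m - 1, by omega⟩
      apply (HR.toH_bijective_of_empty hemp).1
      rw [map_zero]
      exact H.eq_zero_of_contractible n _
    · have hb : ∀ (A : Type) [AddCommGroup A], Function.Bijective
          (fun a : A => H.const (CB 0) a) := by
        intro A _
        constructor
        · intro a b hab
          have : H.const (CB 0) (a - b) = 0 := by
            rw [sub_eq_add_neg, H.const_add]
            have h1 : H.const (CB 0) b + H.const (CB 0) (-b) = 0 := by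
              rw [← H.const_add, add_neg_cancel, H.const_zero]
            rw [show H.const (CB 0) a = H.const (CB 0) b from hab]
            exact h1
          exact sub_eq_zero.mp ((H.const_eq_zero_iff _).mp this)
        · intro u
          obtain ⟨a, ha⟩ := H0_contractible u
          exact ⟨a, ha.symm⟩
      let f : ∀ (A : Type) [AddCommGroup A], A →+ H 0 (CB 0) A := fun A _ =>
        AddMonoidHom.mk' (fun a => H.const (CB 0) a) (fun a b => H.const_add a b)
      refine ⟨fun A _ => (AddEquiv.ofBijective (HR.toH (n := 0) (S := bSB 0) (A := A))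
        (HR.toH_bijective_of_empty hemp)).trans (AddEquiv.ofBijective (f A) (hb A)).symm, ?_⟩
      intro A B _ _ g u
      obtain ⟨a, ha⟩ := (hb A).2 (HR.toH u)
      have e1 : ∀ (A : Type) [AddCommGroup A] (a : A),
          (AddEquiv.ofBijective (f A) (hb A)).symm (H.const (CB 0) a) = a := by
        intro A _ a
        rw [AddEquiv.symm_apply_eq]
        rfl
      change (AddEquiv.ofBijective (f B) (hb B)).symm (HR.toH (HR.cm g u)) =
        g ((AddEquiv.ofBijective (f A) (hb A)).symm (HR.toH u))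
      rw [HR.toH_cm, ← ha]
      change (AddEquiv.ofBijective (f B) (hb B)).symm (H.const (CB 0) (g a)) =
        g ((AddEquiv.ofBijective (f A) (hb A)).symm (H.const (CB 0) a))
      rw [e1, e1]
  | succ k ih =>
    obtain ⟨s₀, ⟨c⟩⟩ := hC k
    constructor
    · intro m hm A _ u
      cases m with
      | zero =>
        apply HR.toH_injective_zero
        rw [map_zero]
        obtain ⟨a, ha⟩ := H0_contractible (HR.toH u)
        have h1 : H.pb (incl (bSB (k + 1))) (HR.toH u) = 0 := (HR.exact_H _).mpr ⟨u, rfl⟩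
        rw [ha, H.pb_const] at h1
        have : Nonempty ↥(bSB (k + 1)) := ⟨s₀⟩
        rw [ha, (H.const_eq_zero_iff _).mp h1, H.const_zero]
      | succ m =>
        obtain ⟨e, -⟩ := ball_step s₀ c m
        apply (e A).injective
        rw [map_zero]
        exact ih.1 m (by omega) A _
    · obtain ⟨e, he⟩ := ball_step s₀ c k
      obtain ⟨-, e', he'⟩ := ih
      refine ⟨fun A _ => (e A).trans (e' A), ?_⟩
      intro A B _ _ g u
      change e' B (e B (HR.cm g u)) = g (e' A (e A u))
      rw [he, he']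

end

end Pool.Agent.Lib.MP_904b2a_gt
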