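import Pool.Agent.Lib.MP_904b2a_gt.Chern

/-!
# MP_904b2a_gt: the statement of the main theorem
-/

namespace Pool.Agent.Lib.MP_904b2a_gt

/-- **Main statement** (a positive answer to MP_904b2a_gt): let `X` be a CW complex of dimension
at most `d` (possibly with infinitely many cells), `r` a natural number and
`c_i ∈ H^{2i}(X;ℤ)` (`1 ≤ i ≤ r`) classes whose reductions modulo every `m ≥ 1` vanish. Then there
is a complex vector bundle `E` of rank `r` over `X` with `c_i(E) = c_i` for `1 ≤ i ≤ r`. -/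
def MainStatement : Prop :=
  ∀ (𝒞 : ChernTheory) (d r : ℕ) (X : Type) [TopologicalSpace X] [T2Space X]
    [Topology.CWComplex (Set.univ : Set X)],
    (∀ n, d < n → IsEmpty (Topology.RelCWComplex.cell (Set.univ : Set X) n)) →
    ∀ c : ∀ i : ℕ, H (2 * i) X ℤ,
      (∀ i, 1 ≤ i → i ≤ r → ∀ m : ℕ, 1 ≤ m → H.cm (Int.castAddHom (ZMod m)) (c i) = 0) →
      ∃ E : CVB r X, ∀ i, 1 ≤ i → i ≤ r → 𝒞.c E i = c i

end Pool.Agent.Lib.MP_904b2a_gt
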