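import Pool.Agent.Lib.MP_904b2a_gt.SingP
import Pool.Agent.Lib.MP_904b2a_gt.Statement

/-!
# MP_904b2a_gt: interfaces between the modules (statements only)
-/

open scoped BigOperators
open Metric Set

namespace Pool.Agent.Lib.MP_904b2a_gt

noncomputable section

/-! ## Module OBS -/

/-- Every simplex of `K` can be deformed to the base point (prism decomposition). -/
def PSS.Contr (K : PSS) : Prop :=
  ∀ (j : ℕ) (y : K.K j), ∃ v : ℕ → K.K (j + 1),
    K.d j 0 (v 0) = y ∧ (∀ i, 1 ≤ i → i ≤ j → K.d j i (v i) = K.d j i (v (i - 1))) ∧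
      K.d j (j + 1) (v j) = K.pt j

/-- Interface of module OBS. -/
def ObsStatement : Prop :=
  ∀ K : PSS, K.BoundedExp → K.Contr → ∀ k : ℕ, ∃ D : ℕ, 0 < D ∧
    ∀ (G : Type) [Group G] [TopologicalSpace G] [IsTopologicalGroup G] [PathConnectedSpace G]
      (f : ∀ n, K.K n → C(Simp n, G)),
      (∀ n i x, i ≤ n + 1 → f n (K.d n i x) = (f (n + 1) x).comp (smap (fv n i))) →
      (∀ n i x, i ≤ n → f (n + 1) (K.s n i x) = (f n x).comp (smap (dv n i))) →
      (∀ n, f n (K.pt n) = 1) →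
      ∀ σ : K.K (k + 1), (∀ i, i ≤ k + 1 → K.d k i σ = K.pt k) →
        (∃ w, K.bd (k + 1) w = K.ch (k + 1) σ) →
        ∃ t : C(Simp (k + 2), G), t.comp (smap (fv (k + 1) 0)) = (f (k + 1) σ) ^ D ∧
          ∀ i, 1 ≤ i → i ≤ k + 2 → t.comp (smap (fv (k + 1) i)) = 1

/-! ## Spheres -/

/-- The closed unit ball of `ℝ^k` (maximum norm, as in Mathlib's CW complexes). -/
abbrev CB (k : ℕ) : Type := closedBall (0 : Fin k → ℝ) 1

/-- Its boundary. -/
abbrev SB (k : ℕ) : Type := sphere (0 : Fin k → ℝ) 1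

/-- The inclusion of the boundary. -/
def SB.incl (k : ℕ) : C(SB k, CB k) :=
  ⟨fun x => ⟨x.1, sphere_subset_closedBall x.2⟩, by fun_prop⟩


/-- The unit sphere of `ℂ^i` (of dimension `2i - 1`). -/
abbrev Sph (i : ℕ) : Type := sphere (0 : EuclideanSpace ℂ (Fin i)) 1

/-- The interface of OBS + ALG + SING: for `j ≥ 1` and `i ≥ 1` there is `D` such that for all maps
`β : S^{2i-1} → G` into a path connected topological group and all maps `u : S^j → S^{2i-1}`
(trivial on cohomology if `j = 2i - 1`) the map `(β ∘ u)^D` is null-homotopic. -/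
def SerreLite : Prop :=
  ∀ i j : ℕ, 1 ≤ i → 1 ≤ j → ∃ D : ℕ, 0 < D ∧
    ∀ (G : Type) [Group G] [TopologicalSpace G] [IsTopologicalGroup G] [PathConnectedSpace G]
      (β : C(Sph i, G)) (u : C(SB (j + 1), Sph i)),
      (j = 2 * i - 1 → ∀ c : H j (Sph i) ℤ, H.pb u c = 0) →
      ∃ F : C(CB (j + 1), G), ∀ x : SB (j + 1), F (SB.incl (j + 1) x) = (β (u x)) ^ D

/-! ## Module CW -/

open Topology in
/-- Interface CW1: filtrations of a CW complex by subcomplexes with bounded heights. -/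
def FiltrationStatement : Prop :=
  ∀ (X : Type) [TopologicalSpace X] [T2Space X] [CWComplex (univ : Set X)]
    (r : ℕ) (n : Fin r → ℕ) (ht : ∀ a, RelCWComplex.cell (univ : Set X) (n a) → ℕ),
    ∃ Y : ℕ → RelCWComplex.Subcomplex (univ : Set X),
      (∀ m, (Y m : Set X) ⊆ Y (m + 1)) ∧ (⋃ m, (Y m : Set X)) = univ ∧
        ∀ m a, ∀ τ ∈ (Y m).I (n a), ht a τ ≤ m

open Topology in
/-- Interface CW2: the telescope of a filtration of a finite-dimensional CW complex by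
subcomplexes. -/
def SectionStatement : Prop :=
  ∀ (X : Type) [TopologicalSpace X] [T2Space X] [CWComplex (univ : Set X)] (d : ℕ),
    (∀ n, d < n → IsEmpty (RelCWComplex.cell (univ : Set X) n)) →
    ∀ Y : ℕ → RelCWComplex.Subcomplex (univ : Set X),
      (∀ m, (Y m : Set X) ⊆ Y (m + 1)) → (⋃ m, (Y m : Set X)) = univ →
      ∃ (E : C(X, X)) (h : C(X, ℝ)), E.Homotopic (ContinuousMap.id X) ∧ (∀ x, 0 ≤ h x) ∧
        ∀ x, E x ∈ Y ⌊h x⌋₊

/-- `Z'` is obtained from the closed subset `Z` by attaching `k`-cells with characteristic maps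
`χ τ`, `τ : ι`. -/
structure CellAttach (k : ℕ) (Z' : Type) [TopologicalSpace Z'] (Z : Set Z') (ι : Type) where
  χ : ι → C(CB k, Z')
  isClosed : IsClosed Z
  bdry : ∀ τ (x : CB k), ‖x.1‖ = 1 → χ τ x ∈ Z
  int : ∀ τ (x : CB k), ‖x.1‖ < 1 → χ τ x ∉ Z
  inj : ∀ τ τ' (x x' : CB k), ‖x.1‖ < 1 → ‖x'.1‖ < 1 → χ τ x = χ τ' x' → τ = τ' ∧ x = x'
  cover : ∀ z, z ∈ Z ∨ ∃ τ, ∃ x : CB k, ‖x.1‖ < 1 ∧ χ τ x = z
  closed_of : ∀ A : Set Z', IsClosed (A ∩ Z) → (∀ τ, IsClosed ((χ τ) ⁻¹' A)) → IsClosed A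

/-- Interface CW3 (glueing): a continuous map on `Z` and continuous maps on the cells which agree
on the boundaries give a continuous map. -/
def GlueStatement : Prop :=
  ∀ (k : ℕ) (Z' : Type) [TopologicalSpace Z'] (Z : Set Z') (ι : Type) (c : CellAttach k Z' Z ι)
    (W : Type) [TopologicalSpace W] (f : C(Z, W)) (g : ι → C(CB k, W)),
    (∀ τ (x : CB k) (hx : ‖x.1‖ = 1), g τ x = f ⟨c.χ τ x, c.bdry τ x hx⟩) →
    ∃ F : C(Z', W), (∀ z : Z, F z = f z) ∧ ∀ τ x, F (c.χ τ x) = g τ x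

end

end Pool.Agent.Lib.MP_904b2a_gt
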