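import Pool.Agent.Lib.MP_904b2a_gt.SmallC
import Pool.Agent.Lib.MP_904b2a_gt.Interfaces
import Pool.Agent.Lib.MP_904b2a_gt.H74.Bott

/-!
# MP_904b2a_gt: interfaces between the modules, second part (statements only)
-/

open scoped BigOperators Matrix
open Metric Set

namespace Pool.Agent.Lib.MP_904b2a_gt

noncomputable section

/-! ## SPH-A, SPH-B -/

/-- The unit sphere of `ℝ^{N+1}`. -/
abbrev ES (N : ℕ) : Type := sphere (0 : EuclideanSpace ℝ (Fin (N + 1))) 1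

/-- Interface SPH-A. -/
def SphereStatement : Prop :=
  ∀ N : ℕ, 1 ≤ N → ∀ x₀ : ES N, PSS.AlgSphere N (singP (ES N) x₀)

/-! ## CAT: cells and cohomology -/

/-- The boundary of the ball, as a subset of the ball. -/
def bSB (k : ℕ) : Set (CB k) := {x | ‖x.1‖ = 1}

theorem CellAttach.mapsTo {k : ℕ} {Z' : Type} [TopologicalSpace Z'] {Z : Set Z'} {ι : Type}
    (c : CellAttach k Z' Z ι) (τ : ι) : MapsTo (c.χ τ) (bSB k) Z :=
  fun x hx => c.bdry τ x hx

/-- The attaching map of a cell. -/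
def CellAttach.φ {k : ℕ} {Z' : Type} [TopologicalSpace Z'] {Z : Set Z'} {ι : Type}
    (c : CellAttach k Z' Z ι) (τ : ι) : C(SB k, Z) :=
  ⟨fun x => ⟨c.χ τ (SB.incl k x), c.bdry τ _ (mem_sphere_zero_iff_norm.mp x.2)⟩,
    ((c.χ τ).continuous.comp (SB.incl k).continuous).subtype_mk _⟩

/-- Interface CAT: the relative cohomology of `(Z', Z)` is the product over the cells. -/
def CatStatement : Prop :=
  ∀ (k : ℕ) (Z' : Type) [TopologicalSpace Z'] (Z : Set Z') (ι : Type) (c : CellAttach k Z' Z ι)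
    (A : Type) [AddCommGroup A] (m : ℕ),
    Function.Bijective (fun (u : HR m Z A) (τ : ι) => HR.pb (c.χ τ) (c.mapsTo τ) u)

/-- Interface BALL: `H^m(D^k, S^{k-1}; A)` vanishes for `m ≠ k` and is naturally isomorphic to
`A` for `m = k`. -/
def BallStatement : Prop :=
  ∀ k : ℕ, (∀ m : ℕ, m ≠ k → ∀ (A : Type) [AddCommGroup A] (u : HR m (bSB k) A), u = 0) ∧
    ∃ e : ∀ (A : Type) [AddCommGroup A], HR k (bSB k) A ≃+ A,
      ∀ (A B : Type) [AddCommGroup A] [AddCommGroup B] (g : A →+ B) (u : HR k (bSB k) A),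
        e B (HR.cm g u) = g (e A u)

/-- A space with the cohomology of the `k`-sphere (in positive degrees), `k ≥ 1`. -/
structure IsCohSphere (k : ℕ) (S : Type) [TopologicalSpace S] : Prop where
  vanish : ∀ (A : Type) [AddCommGroup A] (m : ℕ), 1 ≤ m → m ≠ k → ∀ u : H m S A, u = 0
  top : ∃ e : ∀ (A : Type) [AddCommGroup A], H k S A ≃+ A,
    ∀ (A B : Type) [AddCommGroup A] [AddCommGroup B] (g : A →+ B) (u : H k S A),
      e B (H.cm g u) = g (e A u)

/-- The sphere is obtained from a point by attaching one cell. -/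
def SphereCellStatement : Prop :=
  ∀ (k : ℕ) (s₀ : ES k), Nonempty (CellAttach k (ES k) {s₀} Unit)

/-- The cohomology of the three models of the spheres. -/
def SphereCohStatement : Prop :=
  (∀ k : ℕ, 1 ≤ k → IsCohSphere k (ES k) ∧ IsCohSphere k (SB (k + 1))) ∧
    ∀ i : ℕ, 1 ≤ i → IsCohSphere (2 * i - 1) (Sph i)

/-- Consequence R1 of CAT and BALL. -/
def R1Statement : Prop :=
  ∀ (k : ℕ) (Z' : Type) [TopologicalSpace Z'] (Z : Set Z') (ι : Type) (_ : CellAttach k Z' Z ι)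
    (A : Type) [AddCommGroup A] (m : ℕ), m ≠ k →
    Function.Injective (H.pb (n := m) (A := A) (incl Z))

/-- Consequence R2 of CAT and BALL. -/
def R2Statement : Prop :=
  ∀ (k : ℕ) (Z' : Type) [TopologicalSpace Z'] (Z : Set Z') (ι : Type) (c : CellAttach k Z' Z ι)
    (A : Type) [AddCommGroup A] (m : ℕ) (u : H m Z A), 1 ≤ m → (∀ τ, H.pb (c.φ τ) u = 0) →
    ∃ u' : H m Z' A, H.pb (incl Z) u' = u

/-! ## KUN: products with spheres -/

/-- Interface KUN: the cohomology of `Y × S^n` (`n ≥ 1`): every class is uniquely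
`p^* a + q^* ι ∪ p^* b`. -/
def KunnethStatement : Prop :=
  ∀ n : ℕ, 1 ≤ n → ∃ ι : H n (ES n) ℤ, (∀ u : H n (ES n) ℤ, ∃ m : ℤ, u = m • ι) ∧
    ∀ (Y : Type) [TopologicalSpace Y],
      (∀ m : ℕ, m < n → Function.Bijective
        (H.pb (n := m) (A := ℤ) (⟨Prod.fst, continuous_fst⟩ : C(Y × ES n, Y)))) ∧
      ∀ l : ℕ, Function.Bijective (fun ab : H (n + l) Y ℤ × H l Y ℤ =>
        H.pb (⟨Prod.fst, continuous_fst⟩ : C(Y × ES n, Y)) ab.1 +
          H.cup rfl (H.pb (⟨Prod.snd, continuous_snd⟩ : C(Y × ES n, ES n)) ι)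
            (H.pb (⟨Prod.fst, continuous_fst⟩ : C(Y × ES n, Y)) ab.2))

/-! ## CHE: the classes on the unitary groups -/

/-- The unitary group. -/
abbrev UG (r : ℕ) : Type := Matrix.unitaryGroup (Fin r) ℂ

/-- The part `s > -1` of the suspension. -/
def BBp (r : ℕ) : Set (BB (Fin r)) := {x | -1 < x.ht}

/-- The part `s < 1` of the suspension. -/
def BBm (r : ℕ) : Set (BB (Fin r)) := {x | x.ht < 1}

theorem one_sub_sq_pos {r : ℕ} (x : ↥(BBp r ∩ BBm r)) : 0 < 1 - x.1.ht ^ 2 := by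
  have h1 : -1 < x.1.ht := x.2.1
  have h2 : x.1.ht < 1 := x.2.2
  nlinarith

/-- The retraction `(M, s) ↦ M / √(1 - s²)` to the unitary group. -/
def BB.toU (r : ℕ) : C(↥(BBp r ∩ BBm r), UG r) where
  toFun x := ⟨(((Real.sqrt (1 - x.1.ht ^ 2))⁻¹ : ℝ) : ℂ) • x.1.M, by
    rw [Matrix.mem_unitaryGroup_iff', Matrix.star_eq_conjTranspose, Matrix.conjTranspose_smul,
      Matrix.smul_mul, Matrix.mul_smul, x.1.MhM, smul_smul, smul_smul]
    have h := one_sub_sq_pos x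
    have h2 : Real.sqrt (1 - x.1.ht ^ 2) * Real.sqrt (1 - x.1.ht ^ 2) = 1 - x.1.ht ^ 2 :=
      Real.mul_self_sqrt h.le
    have h3 : Real.sqrt (1 - x.1.ht ^ 2) ≠ 0 := (Real.sqrt_pos.mpr h).ne'
    convert one_smul ℂ (1 : Matrix (Fin r) (Fin r) ℂ)
    rw [Complex.star_def, Complex.conj_ofReal, ← Complex.ofReal_mul, ← Complex.ofReal_mul,
      ← Complex.ofReal_one]
    congr 1
    generalize hw : Real.sqrt (1 - x.1.ht ^ 2) = w at h2 h3
    rw [← h2]
    field_simp⟩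
  continuous_toFun := by
    refine Continuous.subtype_mk ?_ _
    have h1 : Continuous (fun x : ↥(BBp r ∩ BBm r) => Real.sqrt (1 - x.1.ht ^ 2)) :=
      Real.continuous_sqrt.comp (continuous_const.sub
        ((BB.continuous_ht.comp continuous_subtype_val).pow 2))
    have h2 : Continuous (fun x : ↥(BBp r ∩ BBm r) => (Real.sqrt (1 - x.1.ht ^ 2))⁻¹) :=
      h1.inv₀ (fun x => (Real.sqrt_pos.mpr (one_sub_sq_pos x)).ne')
    exact (Complex.continuous_ofReal.comp h2).smul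
      (BB.continuous_M.comp continuous_subtype_val)

theorem BB.toU_coe (r : ℕ) (x : ↥(BBp r ∩ BBm r)) :
    ((BB.toU r x : UG r) : Matrix (Fin r) (Fin r) ℂ) =
      (((Real.sqrt (1 - x.1.ht ^ 2))⁻¹ : ℝ) : ℂ) • x.1.M := rfl

/-- The classes `x_j ∈ H^{2j+1}(U(r))`, `j < r`. -/
structure CheData (𝒞 : ChernTheory) (r : ℕ) where
  x : ∀ j : ℕ, H (2 * j + 1) (UG r) ℤ
  /-- `x_j` corresponds to `c_{j+1}(E_r)` -/
  mv : ∀ j, j < r → MV (BBp r) (BBm r) (2 * j + 1)
    (cP 𝒞 (bott (Fin r) r (Fintype.card_fin r)) (j + 1)) (H.pb (BB.toU r) (x j))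
  /-- `x_j` is primitive -/
  prim : ∀ (Y : Type) [TopologicalSpace Y] (u v : C(Y, UG r)), ∀ j, j < r →
    H.pb (u * v) (x j) = H.pb u (x j) + H.pb v (x j)

/-- The factorisation of `x_j` on `U(j + 1)`. -/
structure CheFac {𝒞 : ChernTheory} {r : ℕ} (x : CheData 𝒞 r) (j : ℕ) where
  e : UG (j + 1) →* UG r
  he : Continuous e
  q : C(UG (j + 1), Sph (j + 1))
  β : C(Sph (j + 1), UG (j + 1))
  ι : H (2 * j + 1) (Sph (j + 1)) ℤ
  k : ℤ
  b : ℤ
  k_ne : k ≠ 0
  b_ne : b ≠ 0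
  gen : ∀ c : H (2 * j + 1) (Sph (j + 1)) ℤ, ∃ n : ℤ, c = n • ι
  x_eq : H.pb ⟨e, he⟩ (x.x j) = k • H.pb q ι
  qβ : H.pb (q.comp β) ι = b • ι

/-- Interface CHE. -/
def CheStatement : Prop :=
  ∀ (𝒞 : ChernTheory) (r : ℕ), ∃ x : CheData 𝒞 r, ∀ j, j < r → Nonempty (CheFac x j)

/-- The unitary group is path connected. -/
def UPathStatement : Prop := ∀ r : ℕ, PathConnectedSpace (UG r)

/-! ## LEMMA A and EXT -/

open Topology in
/-- Interface LEMA: infinitely divisible classes can be divided by `D` in such a way that the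
quotient vanishes on subcomplexes of bounded height. -/
def LemmaAStatement : Prop :=
  ∀ (X : Type) [TopologicalSpace X] [T2Space X] [CWComplex (univ : Set X)] (d : ℕ),
    (∀ n, d < n → IsEmpty (RelCWComplex.cell (univ : Set X) n)) → ∀ n : ℕ, 1 ≤ n →
    ∀ c : H (n + 1) X ℤ, (∀ m : ℕ, 1 ≤ m → H.cm (Int.castAddHom (ZMod m)) c = 0) →
    ∀ D : ℤ, D ≠ 0 → ∃ (c' : H (n + 1) X ℤ) (ht : RelCWComplex.cell (univ : Set X) n → ℕ),
      D • c' = c ∧ ∀ (m : ℕ) (Y : RelCWComplex.Subcomplex (univ : Set X)),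
        (∀ τ ∈ Y.I n, ht τ ≤ m) → H.pb (incl (Y : Set X)) c' = 0

open Topology in
/-- Interface EXT: realisation of classes on complexes of dimension at most `d` by maps to
`U(r)`. -/
def ExtStatement : Prop :=
  ∀ (𝒞 : ChernTheory) (r : ℕ) (x : CheData 𝒞 r), (∀ j, j < r → Nonempty (CheFac x j)) →
    ∀ d : ℕ, ∃ D : ℕ → ℤ, (∀ j, D j ≠ 0) ∧
      ∀ (X : Type) [TopologicalSpace X] [T2Space X] (C : Set X) [CWComplex C],
        (∀ n, d < n → IsEmpty (RelCWComplex.cell C n)) →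
        ∀ z : ∀ j, H (2 * j + 1) C ℤ,
          ∃ g : C(C, UG r), ∀ j, j < r → H.pb g (x.x j) = D j • z j

end

end Pool.Agent.Lib.MP_904b2a_gt
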