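import Pool.Agent.Lib.MP_904b2a_gt.Interfaces2

/-!
# MP_904b2a_gt: the consequences R1, R2 of the cell attachment theorem
-/

open Metric Set

namespace Pool.Agent.Lib.MP_904b2a_gt

noncomputable section

theorem r1_of (CAT : CatStatement) (BALL : BallStatement) : R1Statement := by
  intro k Z' _ Z ι c A _ m hm
  rw [injective_iff_map_eq_zero]
  intro u hu
  obtain ⟨v, rfl⟩ := (HR.exact_H u).mp hu
  have hv : v = 0 := by
    apply (CAT k Z' Z ι c A m).1
    funext τ
    change HR.pb (c.χ τ) (c.mapsTo τ) v = HR.pb (c.χ τ) (c.mapsTo τ) 0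
    rw [(BALL k).1 m hm A (HR.pb (c.χ τ) (c.mapsTo τ) v), map_zero]
  rw [hv, map_zero]

/-- The boundary of the ball as a subset and as a sphere. -/
def bSBhomeo (k : ℕ) : ↥(bSB k) ≃ₜ SB k where
  toFun x := ⟨x.1.1, mem_sphere_zero_iff_norm.mpr x.2⟩
  invFun x := ⟨SB.incl k x, mem_sphere_zero_iff_norm.mp x.2⟩
  left_inv _ := rfl
  right_inv _ := rfl
  continuous_toFun := by fun_prop
  continuous_invFun := by fun_prop

theorem r2_of (CAT : CatStatement) : R2Statement := by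
  intro k Z' _ Z ι c A _ m u _ hu
  apply (HR.exact_S u).mp
  apply (CAT k Z' Z ι c A (m + 1)).1
  funext τ
  change HR.pb (c.χ τ) (c.mapsTo τ) (HR.delta u) = HR.pb (c.χ τ) (c.mapsTo τ) 0
  rw [map_zero, ← HR.delta_pb]
  have e : resMap (c.χ τ) (c.mapsTo τ) = (c.φ τ).comp (bSBhomeo k : C(↥(bSB k), SB k)) := rfl
  rw [e, ← H.pb_comp, hu τ, map_zero, map_zero]

end

end Pool.Agent.Lib.MP_904b2a_gt
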