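import Pool.Agent.Lib.MP_904b2a_gt.Ball
import Pool.Agent.Lib.MP_904b2a_gt.H86.Serre

/-!
# MP_904b2a_gt: spheres as cell complexes with two cells, consequences
-/

open Metric Set

namespace Pool.Agent.Lib.MP_904b2a_gt

noncomputable section

/-- Transport of a cell structure by a homeomorphism. -/
def CellAttach.homeo {k : ℕ} {Z' W : Type} [TopologicalSpace Z'] [TopologicalSpace W] {Z : Set Z'}
    {ι : Type} (c : CellAttach k Z' Z ι) (e : Z' ≃ₜ W) (T : Set W) (hT : ∀ z, e z ∈ T ↔ z ∈ Z) :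
    CellAttach k W T ι where
  χ τ := (e : C(Z', W)).comp (c.χ τ)
  isClosed := by
    have h : T = e.symm ⁻¹' Z := by
      ext w
      rw [mem_preimage, ← hT, e.apply_symm_apply]
    rw [h]
    exact c.isClosed.preimage e.symm.continuous
  bdry τ x hx := (hT _).mpr (c.bdry τ x hx)
  int τ x hx h := c.int τ x hx ((hT _).mp h)
  inj τ τ' x x' hx hx' h := c.inj τ τ' x x' hx hx' (e.injective h)
  cover w := by
    rcases c.cover (e.symm w) with h | ⟨τ, x, hx, h⟩
    · left
      rw [← e.apply_symm_apply w]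
      exact (hT _).mpr h
    · right
      refine ⟨τ, x, hx, ?_⟩
      change e (c.χ τ x) = w
      rw [h, e.apply_symm_apply]
  closed_of A h1 h2 := by
    have h3 : IsClosed (e ⁻¹' A) := by
      refine c.closed_of (e ⁻¹' A) ?_ h2
      have h4 : e ⁻¹' A ∩ Z = e ⁻¹' (A ∩ T) := by
        ext z
        rw [mem_inter_iff, mem_preimage, mem_preimage, mem_inter_iff, hT]
      rw [h4]
      exact h1.preimage e.continuous
    have h5 : A = e.symm ⁻¹' (e ⁻¹' A) := by
      ext w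
      rw [mem_preimage, mem_preimage, e.apply_symm_apply]
    rw [h5]
    exact h3.preimage e.symm.continuous

/-- A space with one `0`-cell and one `k`-cell has the cohomology of the `k`-sphere. -/
theorem isCohSphere_of_cell (BALL : BallStatement) {k : ℕ} (hk : 1 ≤ k) {S : Type}
    [TopologicalSpace S] {s₀ : S} (c : CellAttach k S {s₀} Unit) : IsCohSphere k S := by
  obtain ⟨n, rfl⟩ : ∃ n, k = n + 1 := ⟨k - 1, by omega⟩
  have hb : ∀ (A : Type) [AddCommGroup A] (m : ℕ),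
      Function.Bijective (HR.pb (n := m) (A := A) (c.χ ()) (c.mapsTo ())) := by
    intro A _ m
    have h := catStatement (n + 1) _ _ _ c A m
    constructor
    · intro u v huv
      apply h.1
      funext τ
      exact huv
    · intro w
      obtain ⟨u, hu⟩ := h.2 (fun _ => w)
      exact ⟨u, congrFun hu ()⟩
  obtain ⟨hB, e, he⟩ := BALL (n + 1)
  constructor
  · intro A _ m hm hmk u
    obtain ⟨m, rfl⟩ : ∃ l, m = l + 1 := ⟨m - 1, by omega⟩
    obtain ⟨v, rfl⟩ := (HR.toH_bijective_point s₀ m).2 u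
    have hv : v = 0 := by
      apply (hb A (m + 1)).1
      rw [hB (m + 1) hmk A (HR.pb (c.χ ()) (c.mapsTo ()) v), map_zero]
    rw [hv, map_zero]
  · let e1 : ∀ (A : Type) [AddCommGroup A], HR (n + 1) ({s₀} : Set S) A ≃+ H (n + 1) S A :=
      fun A _ => AddEquiv.ofBijective HR.toH (HR.toH_bijective_point s₀ n)
    let e2 : ∀ (A : Type) [AddCommGroup A], HR (n + 1) ({s₀} : Set S) A ≃+
        HR (n + 1) (bSB (n + 1)) A :=
      fun A _ => AddEquiv.ofBijective (HR.pb (c.χ ()) (c.mapsTo ())) (hb A (n + 1))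
    refine ⟨fun A _ => ((e1 A).symm.trans (e2 A)).trans (e A), ?_⟩
    intro A B _ _ g u
    obtain ⟨v, rfl⟩ := (e1 A).surjective u
    have h1 : H.cm g (e1 A v) = e1 B (HR.cm g v) := (HR.toH_cm g v).symm
    change e B (e2 B ((e1 B).symm (H.cm g (e1 A v)))) = g (e A (e2 A ((e1 A).symm (e1 A v))))
    rw [h1, AddEquiv.symm_apply_apply, AddEquiv.symm_apply_apply]
    have h2 : e2 B (HR.cm g v) = HR.cm g (e2 A v) := HR.pb_cm _ _ (c.mapsTo ()) _
    rw [h2, he]

/-- The Euclidean unit sphere and the boundary of the cube. -/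
def esHomeo (k : ℕ) : ES k ≃ₜ SB (k + 1) where
  toFun x := ⟨‖(WithLp.equiv 2 (Fin (k + 1) → ℝ)) x.1‖⁻¹ • (WithLp.equiv 2 (Fin (k + 1) → ℝ)) x.1, by
    rw [mem_sphere_zero_iff_norm, norm_smul, norm_inv, norm_norm]
    refine inv_mul_cancel₀ (norm_ne_zero_iff.mpr (fun h => ?_))
    have h1 : x.1 = 0 := (WithLp.equiv 2 (Fin (k + 1) → ℝ)).injective h
    have h2 := mem_sphere_zero_iff_norm.mp x.2
    rw [h1, norm_zero] at h2
    exact zero_ne_one h2⟩
  invFun y := ⟨‖(WithLp.equiv 2 (Fin (k + 1) → ℝ)).symm y.1‖⁻¹ •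
      (WithLp.equiv 2 (Fin (k + 1) → ℝ)).symm y.1, by
    rw [mem_sphere_zero_iff_norm, norm_smul, norm_inv, norm_norm]
    refine inv_mul_cancel₀ (norm_ne_zero_iff.mpr (fun h => ?_))
    have h1 : y.1 = 0 := (WithLp.equiv 2 (Fin (k + 1) → ℝ)).symm.injective h
    have h2 := mem_sphere_zero_iff_norm.mp y.2
    rw [h1, norm_zero] at h2
    exact zero_ne_one h2⟩
  left_inv x := by
    apply Subtype.ext
    have hx := mem_sphere_zero_iff_norm.mp x.2
    set a : ℝ := ‖(WithLp.equiv 2 (Fin (k + 1) → ℝ)) x.1‖⁻¹ with ha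
    have ha0 : 0 < a := by
      rw [ha, inv_pos, norm_pos_iff]
      intro h
      have h1 : x.1 = 0 := (WithLp.equiv 2 (Fin (k + 1) → ℝ)).injective h
      rw [h1, norm_zero] at hx
      exact zero_ne_one hx
    change ‖(WithLp.equiv 2 (Fin (k + 1) → ℝ)).symm (a • (WithLp.equiv 2 (Fin (k + 1) → ℝ)) x.1)‖⁻¹
      • (WithLp.equiv 2 (Fin (k + 1) → ℝ)).symm (a • (WithLp.equiv 2 (Fin (k + 1) → ℝ)) x.1) = x.1
    have h1 : (WithLp.equiv 2 (Fin (k + 1) → ℝ)).symm (a • (WithLp.equiv 2 (Fin (k + 1) → ℝ)) x.1)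
      = a • x.1 := rfl
    rw [h1, norm_smul, hx, mul_one, Real.norm_eq_abs, abs_of_pos ha0, smul_smul,
      inv_mul_cancel₀ ha0.ne', one_smul]
  right_inv y := by
    apply Subtype.ext
    have hy := mem_sphere_zero_iff_norm.mp y.2
    set a : ℝ := ‖(WithLp.equiv 2 (Fin (k + 1) → ℝ)).symm y.1‖⁻¹ with ha
    have ha0 : 0 < a := by
      rw [ha, inv_pos, norm_pos_iff]
      intro h
      have h1 : y.1 = 0 := (WithLp.equiv 2 (Fin (k + 1) → ℝ)).symm.injective h
      rw [h1, norm_zero] at hy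
      exact zero_ne_one hy
    change ‖(WithLp.equiv 2 (Fin (k + 1) → ℝ)) (a • (WithLp.equiv 2 (Fin (k + 1) → ℝ)).symm y.1)‖⁻¹
      • (WithLp.equiv 2 (Fin (k + 1) → ℝ)) (a • (WithLp.equiv 2 (Fin (k + 1) → ℝ)).symm y.1) = y.1
    have h1 : (WithLp.equiv 2 (Fin (k + 1) → ℝ)) (a • (WithLp.equiv 2 (Fin (k + 1) → ℝ)).symm y.1)
      = a • y.1 := rfl
    rw [h1, norm_smul, hy, mul_one, Real.norm_eq_abs, abs_of_pos ha0, smul_smul,
      inv_mul_cancel₀ ha0.ne', one_smul]
  continuous_toFun := by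
    refine Continuous.subtype_mk ?_ _
    have h1 : Continuous (fun x : ES k => (WithLp.equiv 2 (Fin (k + 1) → ℝ)) x.1) :=
      (PiLp.continuous_ofLp 2 _).comp continuous_subtype_val
    refine (h1.norm.inv₀ (fun x => ?_)).smul h1
    rw [norm_ne_zero_iff]
    intro h
    have h1 : x.1 = 0 := (WithLp.equiv 2 (Fin (k + 1) → ℝ)).injective h
    have h2 := mem_sphere_zero_iff_norm.mp x.2
    rw [h1, norm_zero] at h2
    exact zero_ne_one h2
  continuous_invFun := by
    refine Continuous.subtype_mk ?_ _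
    have h1 : Continuous (fun y : SB (k + 1) => (WithLp.equiv 2 (Fin (k + 1) → ℝ)).symm y.1) :=
      (PiLp.continuous_toLp 2 _).comp continuous_subtype_val
    refine (h1.norm.inv₀ (fun y => ?_)).smul h1
    rw [norm_ne_zero_iff]
    intro h
    have h1 : y.1 = 0 := (WithLp.equiv 2 (Fin (k + 1) → ℝ)).symm.injective h
    have h2 := mem_sphere_zero_iff_norm.mp y.2
    rw [h1, norm_zero] at h2
    exact zero_ne_one h2

section Reduction

variable (SC : SphereCellStatement)

include SC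

theorem ballCells_of : BallCells := by
  intro k
  let s : ES k := ⟨EuclideanSpace.single 0 1, by simp⟩
  obtain ⟨c⟩ := SC k s
  let e : ES k ≃ₜ ↥(bSB (k + 1)) := (esHomeo k).trans (bSBhomeo (k + 1)).symm
  exact ⟨e s, ⟨c.homeo e {e s} (fun z => e.injective.eq_iff)⟩⟩

theorem sphCell_of : SphCellStatement := by
  intro i hi s₀
  obtain ⟨⟨e⟩⟩ : Nonempty (Nonempty (Sph i ≃ₜ ES (2 * i - 1))) := ⟨H86.exists_sphHomeo i hi⟩
  obtain ⟨c⟩ := SC (2 * i - 1) (e s₀)
  refine ⟨c.homeo e.symm {s₀} (fun z => ?_)⟩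
  rw [mem_singleton_iff, mem_singleton_iff, e.symm_apply_eq]

theorem sphereCoh_of : SphereCohStatement := by
  have BALL := ball_of (ballCells_of SC)
  constructor
  · intro k hk
    let s : ES k := ⟨EuclideanSpace.single 0 1, by simp⟩
    obtain ⟨c⟩ := SC k s
    exact ⟨isCohSphere_of_cell BALL hk c, isCohSphere_of_cell BALL hk
      (c.homeo (esHomeo k) {esHomeo k s} (fun z => (esHomeo k).injective.eq_iff))⟩
  · intro i hi
    let s : Sph i := ⟨EuclideanSpace.single ⟨0, hi⟩ 1, by simp⟩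
    obtain ⟨c⟩ := sphCell_of SC i hi s
    exact isCohSphere_of_cell BALL (by omega) c

end Reduction

end

end Pool.Agent.Lib.MP_904b2a_gt
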