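import Mathlib

/-!
# MP_904b2a_gt: complex vector bundles
-/

namespace Pool.Agent.Lib.MP_904b2a_gt

noncomputable section

/-- A complex vector bundle of rank `r` over the space `X` (in Mathlib's sense: a topological
fibre bundle with fibre `ℂ^r`, with local trivialisations which are linear on the fibres). -/
structure CVB (r : ℕ) (X : Type) [TopologicalSpace X] where
  /-- the fibres -/
  fib : X → Type
  [grp : ∀ x, AddCommGroup (fib x)]
  [mod : ∀ x, Module ℂ (fib x)]
  [top : ∀ x, TopologicalSpace (fib x)]
  [tot : TopologicalSpace (Bundle.TotalSpace (Fin r → ℂ) fib)]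
  [fb : FiberBundle (Fin r → ℂ) fib]
  [vb : VectorBundle ℂ (Fin r → ℂ) fib]

attribute [instance] CVB.grp CVB.mod CVB.top CVB.tot CVB.fb CVB.vb

/-- The total space of a complex vector bundle. -/
abbrev CVB.Tot {r : ℕ} {X : Type} [TopologicalSpace X] (V : CVB r X) : Type :=
  Bundle.TotalSpace (Fin r → ℂ) V.fib

/-- A map of vector bundles `V → W` over a continuous map `f : X → Y`: a family of linear maps
of the fibres which gives a continuous map of the total spaces. -/
structure BMap {r s : ℕ} {X Y : Type} [TopologicalSpace X] [TopologicalSpace Y]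
    (V : CVB r X) (W : CVB s Y) (f : C(X, Y)) where
  /-- the linear maps on the fibres -/
  app : ∀ x, V.fib x →ₗ[ℂ] W.fib (f x)
  /-- the total map is continuous -/
  cont : Continuous (fun p : V.Tot => (⟨f p.1, app p.1 p.2⟩ : W.Tot))

/-- A continuous family of linear maps from the fibres of `V` to the vector space `ℂ^ι`, that is,
a map from `V` to the trivial bundle with fibre `ℂ^ι`. -/
structure TMap {r : ℕ} {X : Type} [TopologicalSpace X] (V : CVB r X) (ι : Type) where
  /-- the linear maps on the fibres -/
  app : ∀ x, V.fib x →ₗ[ℂ] (ι → ℂ)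
  /-- the total map is continuous -/
  cont : Continuous (fun p : V.Tot => app p.1 p.2)

/-- `V` is embeddable if it is isomorphic to a subbundle of a trivial bundle `X × ℂ^n`. Every
vector bundle over a compact Hausdorff space or over a finite-dimensional CW complex is
embeddable. -/
def CVB.Embeddable {r : ℕ} {X : Type} [TopologicalSpace X] (V : CVB r X) : Prop :=
  ∃ (n : ℕ) (F : TMap V (Fin n)), ∀ x, Function.Injective (F.app x)

/-- The complex projective line, as the space of orthogonal projections of `ℂ²` onto lines. -/
def CP1 : Type :=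
  {P : Matrix (Fin 2) (Fin 2) ℂ // P.IsHermitian ∧ P * P = P ∧ P.trace = 1}

instance : TopologicalSpace CP1 := inferInstanceAs (TopologicalSpace {P : Matrix (Fin 2) (Fin 2) ℂ //
  P.IsHermitian ∧ P * P = P ∧ P.trace = 1})

end

end Pool.Agent.Lib.MP_904b2a_gt
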