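import Pool.Agent.Lib.MP_904b2a_gt.Defs
import Pool.Agent.Lib.MP_904b2a_gt.Bundle

/-!
# MP_904b2a_gt: the axioms for Chern classes
-/

open scoped BigOperators

namespace Pool.Agent.Lib.MP_904b2a_gt

noncomputable section

/-- **The axioms for Chern classes** (Hirzebruch; Milnor–Stasheff; Hatcher): to every complex
vector bundle `V` over a topological space `X` and every `i` there is given a class
`c_i(V) ∈ H^{2i}(X;ℤ)`, such that (for embeddable bundles):
* `c_0(V) = 1`, and `c_i(V) = 0` for `i > rank V`;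
* naturality: if a map `f : X → Y` is covered by a map of bundles `V → W` which is an isomorphism
  on every fibre, then `c_i(V) = f^* c_i(W)`;
* Whitney sum formula: if `V` is the direct sum of `V₁` and `V₂`, then
  `c_k(V) = ∑_{i+j=k} c_i(V₁) ∪ c_j(V₂)`;
* normalization: if `V` is the tautological line bundle over the complex projective line, then
  `c_1(V)` generates `H²(ℂP¹;ℤ)`. -/
structure ChernTheory where
  /-- the class `c_i(V)` -/
  c : ∀ {X : Type} [TopologicalSpace X] {r : ℕ} (_ : CVB r X) (i : ℕ), H (2 * i) X ℤ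
  c_zero : ∀ {X : Type} [TopologicalSpace X] {r : ℕ} (V : CVB r X), V.Embeddable → c V 0 = H.one
  c_gt : ∀ {X : Type} [TopologicalSpace X] {r : ℕ} (V : CVB r X), V.Embeddable →
    ∀ i : ℕ, r < i → c V i = 0
  natural : ∀ {X Y : Type} [TopologicalSpace X] [TopologicalSpace Y] {r : ℕ}
    (V : CVB r X) (W : CVB r Y) (f : C(X, Y)) (F : BMap V W f),
    W.Embeddable → (∀ x, Function.Bijective (F.app x)) → ∀ i, c V i = H.pb f (c W i)
  whitney : ∀ {X : Type} [TopologicalSpace X] {r s t : ℕ}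
    (V : CVB t X) (V₁ : CVB r X) (V₂ : CVB s X)
    (F₁ : BMap V₁ V (ContinuousMap.id X)) (F₂ : BMap V₂ V (ContinuousMap.id X)),
    V.Embeddable →
    (∀ x, Function.Bijective (fun v : V₁.fib x × V₂.fib x => F₁.app x v.1 + F₂.app x v.2)) →
    ∀ k, c V k = ∑ i : Fin (k + 1),
      H.cup (p := 2 * (i : ℕ)) (q := 2 * (k - (i : ℕ))) (n := 2 * k) (by omega)
        (c V₁ (i : ℕ)) (c V₂ (k - (i : ℕ)))
  normalization : ∀ (V : CVB 1 CP1) (F : TMap V (Fin 2)),
    (∀ P : CP1, Function.Injective (F.app P) ∧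
      Set.range (F.app P) = Set.range (fun v : Fin 2 → ℂ => P.1.mulVec v)) →
    ∀ u : H (2 * 1) CP1 ℤ, ∃ n : ℤ, u = n • c V 1

end

end Pool.Agent.Lib.MP_904b2a_gt
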