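import Mathlib

/-!
# MP_904b2a_gt: two combinatorial identities for alternating sums
-/

open scoped BigOperators
open Finset

namespace Pool.Agent.Lib.MP_904b2a_gt

/-- The simplicial homotopy identity: if `a i j` (`i ≤ m+1`, `j ≤ m`) and `b i j` (`i ≤ m`,
`j < m`) satisfy `a i (j+1) = b i j` for `i ≤ j`, `a (i+1) j = b i j` for `j < i` and
`a (i+1) (i+1) = a (i+1) i` then the alternating sums cancel up to the two ends. -/
theorem homotopy_sum {A : Type*} [AddCommGroup A] (m : ℕ) (a b : ℕ → ℕ → A)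
    (h1 : ∀ i j, i ≤ j → j < m → a i (j + 1) = b i j)
    (h2 : ∀ i j, j < i → i ≤ m → a (i + 1) j = b i j)
    (h3 : ∀ i, i < m → a (i + 1) (i + 1) = a (i + 1) i) :
    ∑ j ∈ range (m + 1), ∑ i ∈ range (m + 2), (-1 : ℤ) ^ (i + j) • a i j +
      ∑ j ∈ range m, ∑ i ∈ range (m + 1), (-1 : ℤ) ^ (i + j) • b i j = a 0 0 - a (m + 1) m := by
  have e1 : ∀ j ∈ range (m + 1), ∑ i ∈ range (m + 2), (-1 : ℤ) ^ (i + j) • a i j =
      ∑ i ∈ range j, (-1 : ℤ) ^ (i + j) • a i j + (a j j - a (j + 1) j) +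
        ∑ i ∈ Ico (j + 1) (m + 1), (-1 : ℤ) ^ (i + 1 + j) • a (i + 1) j := by
    intro j hj
    have hj' : j ≤ m := Nat.lt_succ_iff.mp (mem_range.mp hj)
    rw [range_eq_Ico, ← sum_Ico_consecutive _ (Nat.zero_le j) (show j ≤ m + 2 by omega),
      ← sum_Ico_consecutive _ (show j ≤ j + 2 by omega) (show j + 2 ≤ m + 2 by omega),
      ← range_eq_Ico, add_assoc]
    congr 1
    congr 1
    · rw [sum_Ico_eq_sum_range, show j + 2 - j = 2 by omega, sum_range_succ, sum_range_one]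
      simp only [add_zero]
      rw [show j + j = 2 * j by ring, show j + 1 + j = 2 * j + 1 by ring, pow_succ, pow_mul]
      simp [sub_eq_add_neg]
    · rw [show m + 2 = m + 1 + 1 by ring, show j + 2 = j + 1 + 1 by ring,
        sum_Ico_add' (fun i => (-1 : ℤ) ^ (i + j) • a i j) (j + 1) (m + 1) 1]
  have e2 : ∀ j ∈ range m, ∑ i ∈ range (m + 1), (-1 : ℤ) ^ (i + j) • b i j =
      ∑ i ∈ range (j + 1), (-1 : ℤ) ^ (i + j) • b i j +
        ∑ i ∈ Ico (j + 1) (m + 1), (-1 : ℤ) ^ (i + j) • b i j := by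
    intro j hj
    have hj' : j < m := mem_range.mp hj
    rw [range_eq_Ico, range_eq_Ico,
      sum_Ico_consecutive _ (Nat.zero_le _) (show j + 1 ≤ m + 1 by omega)]
  rw [sum_congr rfl e1, sum_congr rfl e2, sum_add_distrib, sum_add_distrib, sum_add_distrib]
  have e3 : ∑ j ∈ range (m + 1), ∑ i ∈ range j, (-1 : ℤ) ^ (i + j) • a i j =
      - ∑ j ∈ range m, ∑ i ∈ range (j + 1), (-1 : ℤ) ^ (i + j) • b i j := by
    rw [sum_range_succ', range_zero, sum_empty, add_zero, ← sum_neg_distrib]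
    refine sum_congr rfl (fun j hj => ?_)
    rw [← sum_neg_distrib]
    refine sum_congr rfl (fun i hi => ?_)
    rw [h1 i j (Nat.lt_succ_iff.mp (mem_range.mp hi)) (mem_range.mp hj), ← add_assoc, pow_succ]
    simp
  have e4 : ∑ j ∈ range (m + 1), ∑ i ∈ Ico (j + 1) (m + 1), (-1 : ℤ) ^ (i + 1 + j) • a (i + 1) j
      = - ∑ j ∈ range m, ∑ i ∈ Ico (j + 1) (m + 1), (-1 : ℤ) ^ (i + j) • b i j := by
    rw [sum_range_succ, Ico_self, sum_empty, add_zero, ← sum_neg_distrib]
    refine sum_congr rfl (fun j hj => ?_)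
    rw [← sum_neg_distrib]
    refine sum_congr rfl (fun i hi => ?_)
    rw [mem_Ico] at hi
    rw [h2 i j (by omega) (by omega), show i + 1 + j = i + j + 1 by ring, pow_succ]
    simp
  have e5 : ∑ j ∈ range (m + 1), (a j j - a (j + 1) j) = a 0 0 - a (m + 1) m := by
    rw [sum_sub_distrib, sum_range_succ', sum_range_succ (fun j => a (j + 1) j)]
    rw [sum_congr rfl (fun i hi => h3 i (mem_range.mp hi))]
    abel
  rw [e3, e4, e5]
  abel

/-- The identity behind `d ∘ d = 0`. -/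
theorem face_sum {A : Type*} [AddCommGroup A] (m : ℕ) (a : ℕ → ℕ → A)
    (h : ∀ i j, i ≤ j → j ≤ m → a i (j + 1) = a j i) :
    ∑ j ∈ range (m + 2), ∑ i ∈ range (m + 1), (-1 : ℤ) ^ (i + j) • a i j = 0 := by
  have e1 : ∀ j ∈ range (m + 2), ∑ i ∈ range (m + 1), (-1 : ℤ) ^ (i + j) • a i j =
      ∑ i ∈ range (m + 1), (if i < j then (-1 : ℤ) ^ (i + j) • a i j else 0) +
      ∑ i ∈ range (m + 1), (if i < j then 0 else (-1 : ℤ) ^ (i + j) • a i j) := by
    intro j _
    rw [← sum_add_distrib]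
    refine sum_congr rfl (fun i _ => ?_)
    split_ifs <;> simp
  rw [sum_congr rfl e1, sum_add_distrib]
  rw [sum_range_succ' (fun j => ∑ i ∈ range (m + 1),
    (if i < j then (-1 : ℤ) ^ (i + j) • a i j else 0)) (m + 1)]
  rw [sum_range_succ (fun j => ∑ i ∈ range (m + 1),
    (if i < j then (0 : A) else (-1 : ℤ) ^ (i + j) • a i j)) (m + 1)]
  have e2 : ∑ i ∈ range (m + 1), (if i < 0 then (-1 : ℤ) ^ (i + 0) • a i 0 else 0) = 0 := by
    simp
  have e3 : ∑ i ∈ range (m + 1), (if i < m + 1 then (0 : A) else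
      (-1 : ℤ) ^ (i + (m + 1)) • a i (m + 1)) = 0 := by
    refine sum_eq_zero (fun i hi => ?_)
    simp [mem_range.mp hi]
  rw [e2, e3, add_zero, add_zero]
  rw [sum_comm (s := range (m + 1)) (t := range (m + 1))
    (f := fun j i => (if i < j then (0 : A) else (-1 : ℤ) ^ (i + j) • a i j))]
  rw [← sum_add_distrib]
  refine sum_eq_zero (fun j hj => ?_)
  rw [← sum_add_distrib]
  refine sum_eq_zero (fun i hi => ?_)
  have hj' := mem_range.mp hj
  have hi' := mem_range.mp hi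
  by_cases hij : i ≤ j
  · rw [if_pos (show i < j + 1 by omega), if_neg (show ¬ j < i by omega),
      h i j hij (by omega), ← add_assoc, pow_succ, add_comm j i]
    simp
  · rw [if_neg (show ¬ i < j + 1 by omega), if_pos (show j < i by omega), add_zero]

end Pool.Agent.Lib.MP_904b2a_gt
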