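import Pool.Agent.Lib.MP_904b2a_gt.SingP
import Pool.Agent.Lib.MP_904b2a_gt.Sums

/-!
# MP_904b2a_gt: first properties of singular cohomology (functoriality, homotopy invariance)
-/

open scoped BigOperators
open Finset

namespace Pool.Agent.Lib.MP_904b2a_gt

noncomputable section

variable {X Y Z : Type*} [TopologicalSpace X] [TopologicalSpace Y] [TopologicalSpace Z]
variable {A B C : Type*} [AddCommGroup A] [AddCommGroup B] [AddCommGroup C]

theorem cob_cob (n : ℕ) (φ : Coch n X A) : cob (n + 1) (cob n φ) = 0 := by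
  funext σ
  rw [cob_apply]
  simp only [cob_apply, smul_sum, smul_smul, ← pow_add, ContinuousMap.comp_assoc, smap_comp]
  have := face_sum (n + 1) (fun i j => φ (σ.comp (smap (fv (n + 1) j ∘ fv n i))))
    (fun i j hij hj => by rw [fv_fv n i j hij hj])
  simp only [Pi.zero_apply]
  rw [← this]
  refine sum_congr rfl (fun j _ => sum_congr rfl (fun i _ => ?_))
  rw [add_comm]

theorem coboundaries_le (n : ℕ) : coboundaries X A n ≤ cocycles X A n := by
  cases n with
  | zero => exact bot_le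
  | succ n =>
    rintro _ ⟨φ, rfl⟩
    exact cob_cob n φ

theorem mem_coboundaries_succ {n : ℕ} {φ : Coch (n + 1) X A} :
    φ ∈ coboundaries X A (n + 1) ↔ ∃ ψ, cob n ψ = φ := Iff.rfl

theorem mem_cocycles {n : ℕ} {φ : Coch n X A} : φ ∈ cocycles X A n ↔ cob n φ = 0 := Iff.rfl

/-! ### Functoriality -/

theorem H.pb_id {n : ℕ} (u : H n X A) : H.pb (ContinuousMap.id X) u = u := by
  obtain ⟨z, rfl⟩ := H.mk_surjective n u
  rfl

theorem H.pb_comp {n : ℕ} (f : C(X, Y)) (g : C(Y, Z)) (u : H n Z A) :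
    H.pb f (H.pb g u) = H.pb (g.comp f) u := by
  obtain ⟨z, rfl⟩ := H.mk_surjective n u
  rfl

theorem H.cm_id {n : ℕ} (u : H n X A) : H.cm (AddMonoidHom.id A) u = u := by
  obtain ⟨z, rfl⟩ := H.mk_surjective n u
  rfl

theorem H.cm_comp {n : ℕ} (f : A →+ B) (g : B →+ C) (u : H n X A) :
    H.cm g (H.cm f u) = H.cm (g.comp f) u := by
  obtain ⟨z, rfl⟩ := H.mk_surjective n u
  rfl

theorem H.pb_cm {n : ℕ} (f : C(X, Y)) (g : A →+ B) (u : H n Y A) :
    H.pb f (H.cm g u) = H.cm g (H.pb f u) := by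
  obtain ⟨z, rfl⟩ := H.mk_surjective n u
  rfl

theorem H.pb_cup {p q n : ℕ} (h : p + q = n) (f : C(X, Y)) (u : H p Y ℤ) (v : H q Y ℤ) :
    H.pb f (H.cup h u v) = H.cup h (H.pb f u) (H.pb f v) := by
  obtain ⟨z, rfl⟩ := H.mk_surjective p u
  obtain ⟨w, rfl⟩ := H.mk_surjective q v
  rfl

theorem H.pb_one (f : C(X, Y)) : H.pb f (H.one (X := Y)) = H.one := rfl

/-- Two cocycles have the same class iff they differ by a coboundary. -/
theorem H.mk_eq_mk {n : ℕ} {z w : cocycles X A n} :
    H.mk n z = H.mk n w ↔ (z : Coch n X A) - w ∈ coboundaries X A n := by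
  rw [← sub_eq_zero, ← map_sub, H.mk_eq_zero]
  rfl

/-- A homeomorphism induces a bijection. -/
theorem H.pb_bijective_of_homeomorph {n : ℕ} (e : X ≃ₜ Y) :
    Function.Bijective (H.pb (n := n) (A := A) (e : C(X, Y))) := by
  refine Function.bijective_iff_has_inverse.mpr ⟨H.pb (e.symm : C(Y, X)), fun u => ?_, fun u => ?_⟩
  · rw [H.pb_comp]
    convert H.pb_id u
    ext x
    simp
  · rw [H.pb_comp]
    convert H.pb_id u
    ext x
    simp

/-! ### Homotopy invariance -/

/-- `t ↦ ∑_{k ≥ c} t_k` as a function with values in the unit interval. -/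
def tail (n c : ℕ) : C(Simp n, unitInterval) where
  toFun t := ⟨∑ k : Fin (n + 1), if c ≤ (k : ℕ) then t k else 0, by
    constructor
    · exact sum_nonneg (fun k _ => by split_ifs <;> simp [stdSimplex.zero_le])
    · calc _ ≤ ∑ k : Fin (n + 1), t k :=
            sum_le_sum (fun k _ => by split_ifs <;> simp [stdSimplex.zero_le])
        _ = 1 := stdSimplex.sum_eq_one t⟩
  continuous_toFun := by
    refine Continuous.subtype_mk ?_ _
    refine continuous_finsetSum _ (fun k _ => ?_)
    split_ifs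
    · exact (continuous_apply k).comp continuous_subtype_val
    · exact continuous_const

theorem tail_apply (n c : ℕ) (t : Simp n) :
    ((tail n c t : unitInterval) : ℝ) = ∑ k : Fin (n + 1), if c ≤ (k : ℕ) then t k else 0 := rfl

theorem smap_apply {m n : ℕ} (f : Fin (m + 1) → Fin (n + 1)) (t : Simp m) (l : Fin (n + 1)) :
    smap f t l = ∑ k : Fin (m + 1), if f k = l then t k else 0 := by
  change stdSimplex.map f t l = _
  rw [stdSimplex.map_coe, FunOnFinite.linearMap_apply_apply]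
  rw [sum_filter]

theorem tail_smap {m n : ℕ} (f : Fin (m + 1) → Fin (n + 1)) (c : ℕ) (t : Simp m) :
    ((tail n c (smap f t) : unitInterval) : ℝ) =
      ∑ k : Fin (m + 1), if c ≤ (f k : ℕ) then t k else 0 := by
  rw [tail_apply]
  simp only [smap_apply]
  have : ∀ l : Fin (n + 1), (if c ≤ (l : ℕ) then ∑ k : Fin (m + 1), (if f k = l then t k else 0)
      else 0) = ∑ k : Fin (m + 1), (if f k = l then (if c ≤ (f k : ℕ) then t k else 0) else 0) := by
    intro l
    split_ifs with h
    · refine sum_congr rfl (fun k _ => ?_)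
      by_cases hk : f k = l
      · rw [if_pos hk, if_pos hk, if_pos (by rw [hk]; exact h)]
      · rw [if_neg hk, if_neg hk]
    · symm
      refine sum_eq_zero (fun k _ => ?_)
      by_cases hk : f k = l
      · rw [if_pos hk, if_neg (by rw [hk]; exact h)]
      · rw [if_neg hk]
  simp only [this]
  rw [sum_comm]
  refine sum_congr rfl (fun k _ => ?_)
  simp

theorem tail_zero (n : ℕ) (t : Simp n) : tail n 0 t = 1 := by
  apply Subtype.ext
  rw [tail_apply]
  simp

theorem tail_top (n : ℕ) (t : Simp n) : tail n (n + 1) t = 0 := by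
  apply Subtype.ext
  rw [tail_apply]
  refine sum_eq_zero (fun k _ => ?_)
  rw [if_neg (by omega)]

theorem tail_fv_le (n c i : ℕ) (h : c ≤ i) :
    (tail (n + 1) c).comp (smap (fv n i)) = tail n c := by
  ext t
  rw [ContinuousMap.comp_apply, tail_smap, tail_apply]
  refine sum_congr rfl (fun k _ => ?_)
  rw [fv_val]
  congr 1
  grind

theorem tail_fv_gt (n c i : ℕ) (h : i ≤ c) :
    (tail (n + 1) (c + 1)).comp (smap (fv n i)) = tail n c := by
  ext t
  rw [ContinuousMap.comp_apply, tail_smap, tail_apply]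
  refine sum_congr rfl (fun k _ => ?_)
  rw [fv_val]
  congr 1
  grind

/-- The prism simplices: `t ↦ F (∑_{k ≥ c} t_k, σ t)`. -/
def prism {f₀ f₁ : C(X, Y)} (F : f₀.Homotopy f₁) (n c : ℕ) (σ : C(Simp n, X)) : C(Simp n, Y) :=
  F.toContinuousMap.comp ((tail n c).prodMk σ)

theorem prism_zero {f₀ f₁ : C(X, Y)} (F : f₀.Homotopy f₁) (n : ℕ) (σ : C(Simp n, X)) :
    prism F n 0 σ = f₁.comp σ := by
  ext t
  change F (tail n 0 t, σ t) = _
  rw [tail_zero]
  simp

theorem prism_top {f₀ f₁ : C(X, Y)} (F : f₀.Homotopy f₁) (n : ℕ) (σ : C(Simp n, X)) :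
    prism F n (n + 1) σ = f₀.comp σ := by
  ext t
  change F (tail n (n + 1) t, σ t) = _
  rw [tail_top]
  simp

theorem prism_face_le {f₀ f₁ : C(X, Y)} (F : f₀.Homotopy f₁) (n c i : ℕ) (h : c ≤ i)
    (σ : C(Simp (n + 1), X)) :
    (prism F (n + 1) c σ).comp (smap (fv n i)) = prism F n c (σ.comp (smap (fv n i))) := by
  unfold prism
  rw [ContinuousMap.comp_assoc, ← tail_fv_le n c i h]
  rfl

theorem prism_face_gt {f₀ f₁ : C(X, Y)} (F : f₀.Homotopy f₁) (n c i : ℕ) (h : i ≤ c)
    (σ : C(Simp (n + 1), X)) :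
    (prism F (n + 1) (c + 1) σ).comp (smap (fv n i)) = prism F n c (σ.comp (smap (fv n i))) := by
  unfold prism
  rw [ContinuousMap.comp_assoc, ← tail_fv_gt n c i h]
  rfl

/-- The `j`-th simplex of the prism over `σ`. -/
def prismH {f₀ f₁ : C(X, Y)} (F : f₀.Homotopy f₁) (n j : ℕ) (σ : C(Simp n, X)) :
    C(Simp (n + 1), Y) :=
  prism F (n + 1) (j + 1) (σ.comp (smap (dv n j)))

theorem prismH_lt {f₀ f₁ : C(X, Y)} (F : f₀.Homotopy f₁) (n i j : ℕ) (hij : i ≤ j) (hj : j ≤ n)
    (σ : C(Simp (n + 1), X)) :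
    (prismH F (n + 1) (j + 1) σ).comp (smap (fv (n + 1) i)) =
      prismH F n j (σ.comp (smap (fv n i))) := by
  unfold prismH
  rw [prism_face_gt F (n + 1) (j + 1) i (by omega), ContinuousMap.comp_assoc,
    ContinuousMap.comp_assoc, smap_comp, smap_comp, dv_fv_lt n i j hij hj]

theorem prismH_gt {f₀ f₁ : C(X, Y)} (F : f₀.Homotopy f₁) (n i j : ℕ) (hij : j < i)
    (hi : i ≤ n + 1) (σ : C(Simp (n + 1), X)) :
    (prismH F (n + 1) j σ).comp (smap (fv (n + 1) (i + 1))) =
      prismH F n j (σ.comp (smap (fv n i))) := by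
  unfold prismH
  rw [prism_face_le F (n + 1) (j + 1) (i + 1) (by omega), ContinuousMap.comp_assoc,
    ContinuousMap.comp_assoc, smap_comp, smap_comp, dv_fv_gt n i j hij hi]

theorem prismH_eq {f₀ f₁ : C(X, Y)} (F : f₀.Homotopy f₁) (n j : ℕ) (hj : j ≤ n)
    (σ : C(Simp n, X)) :
    (prismH F n j σ).comp (smap (fv n j)) = prism F n j σ := by
  unfold prismH
  rw [prism_face_gt F n j j le_rfl, ContinuousMap.comp_assoc, smap_comp, dv_fv_eq n j hj, smap_id,
    ContinuousMap.comp_id]

theorem prismH_succ {f₀ f₁ : C(X, Y)} (F : f₀.Homotopy f₁) (n j : ℕ) (hj : j ≤ n)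
    (σ : C(Simp n, X)) :
    (prismH F n j σ).comp (smap (fv n (j + 1))) = prism F n (j + 1) σ := by
  unfold prismH
  rw [prism_face_le F n (j + 1) (j + 1) le_rfl, ContinuousMap.comp_assoc, smap_comp,
    dv_fv_succ n j hj, smap_id, ContinuousMap.comp_id]

/-- The prism operator on cochains. -/
def prismC {f₀ f₁ : C(X, Y)} (F : f₀.Homotopy f₁) (n : ℕ) (φ : Coch (n + 1) Y A) : Coch n X A :=
  fun σ => ∑ j ∈ range (n + 1), (-1 : ℤ) ^ j • φ (prismH F n j σ)

theorem prismC_zero_formula {f₀ f₁ : C(X, Y)} (F : f₀.Homotopy f₁) (φ : Coch 0 Y A) :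
    prismC F 0 (cob 0 φ) = pbC 0 f₁ φ - pbC 0 f₀ φ := by
  funext σ
  simp only [prismC, cob_apply, Pi.sub_apply]
  rw [sum_range_one, pow_zero, one_smul, sum_range_succ, sum_range_one, pow_zero, one_smul,
    pow_one, neg_smul, one_smul, prismH_eq F 0 0 le_rfl, prismH_succ F 0 0 le_rfl, prism_zero,
    prism_top, ← sub_eq_add_neg]
  rfl

theorem prismC_formula {f₀ f₁ : C(X, Y)} (F : f₀.Homotopy f₁) (n : ℕ) (φ : Coch (n + 1) Y A) :
    prismC F (n + 1) (cob (n + 1) φ) + cob n (prismC F n φ) =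
      pbC (n + 1) f₁ φ - pbC (n + 1) f₀ φ := by
  funext σ
  simp only [prismC, cob_apply, Pi.add_apply, Pi.sub_apply, smul_sum, smul_smul, ← pow_add]
  have key := homotopy_sum (n + 1)
    (fun i j => φ ((prismH F (n + 1) j σ).comp (smap (fv (n + 1) i))))
    (fun i j => φ (prismH F n j (σ.comp (smap (fv n i)))))
    (fun i j hij hj => by
      rw [prismH_lt F n i j hij (by omega)])
    (fun i j hij hi => by
      rw [prismH_gt F n i j hij hi])
    (fun i hi => by
      rw [prismH_eq F (n + 1) (i + 1) (by omega), prismH_succ F (n + 1) i (by omega)])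
  rw [prismH_eq F (n + 1) 0 (by omega), prismH_succ F (n + 1) (n + 1) le_rfl, prism_zero,
    prism_top] at key
  rw [sum_comm (s := range (n + 2)) (t := range (n + 1))
    (f := fun i j => (-1 : ℤ) ^ (i + j) • φ (prismH F n j (σ.comp (smap (fv n i)))))]
  have e1 : ∑ x ∈ range (n + 1 + 1), ∑ i ∈ range (n + 1 + 2),
      (-1 : ℤ) ^ (x + i) • φ ((prismH F (n + 1) x σ).comp (smap (fv (n + 1) i))) =
      ∑ j ∈ range (n + 1 + 1), ∑ i ∈ range (n + 1 + 2),
      (-1 : ℤ) ^ (i + j) • φ ((prismH F (n + 1) j σ).comp (smap (fv (n + 1) i))) :=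
    sum_congr rfl (fun j _ => sum_congr rfl (fun i _ => by rw [add_comm]))
  rw [e1]
  exact key

theorem H.pb_eq_of_homotopic {n : ℕ} {f₀ f₁ : C(X, Y)} (h : f₀.Homotopic f₁) (u : H n Y A) :
    H.pb f₀ u = H.pb f₁ u := by
  obtain ⟨F⟩ := h
  obtain ⟨z, rfl⟩ := H.mk_surjective n u
  rw [H.pb_mk, H.pb_mk, eq_comm, H.mk_eq_mk]
  have hz : cob n (z : Coch n Y A) = 0 := z.2
  cases n with
  | zero =>
    change pbC 0 f₁ z.1 - pbC 0 f₀ z.1 = 0
    rw [← prismC_zero_formula F, hz]
    funext σ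
    simp [prismC]
  | succ n =>
    refine ⟨prismC F n z, ?_⟩
    have := prismC_formula F n (z : Coch (n + 1) Y A)
    rw [hz] at this
    change cob n (prismC F n z.1) = pbC (n + 1) f₁ z.1 - pbC (n + 1) f₀ z.1
    have h0 : prismC F (n + 1) (0 : Coch (n + 2) Y A) = 0 := by
      funext σ
      simp [prismC]
    rw [← this, h0, zero_add]

/-- A homotopy equivalence induces a bijection. -/
theorem H.pb_bijective {n : ℕ} {f : C(X, Y)} {g : C(Y, X)}
    (h₁ : (g.comp f).Homotopic (ContinuousMap.id X))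
    (h₂ : (f.comp g).Homotopic (ContinuousMap.id Y)) :
    Function.Bijective (H.pb (n := n) (A := A) f) := by
  refine Function.bijective_iff_has_inverse.mpr ⟨H.pb g, fun u => ?_, fun u => ?_⟩
  · rw [H.pb_comp, H.pb_eq_of_homotopic h₂, H.pb_id]
  · rw [H.pb_comp, H.pb_eq_of_homotopic h₁, H.pb_id]

/-! ### Points, contractible spaces -/

theorem alt_sum (n : ℕ) : ∑ i ∈ range n, (-1 : ℤ) ^ i = if Even n then 0 else 1 := by
  induction n with
  | zero => simp
  | succ n ih =>
    rw [sum_range_succ, ih]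
    rcases Nat.even_or_odd n with h | h
    · rw [if_pos h, if_neg (by rw [Nat.not_even_iff_odd]; exact h.add_one), h.neg_one_pow]
      simp
    · rw [if_neg (by rwa [Nat.not_even_iff_odd]), if_pos h.add_one, h.neg_one_pow]
      simp

theorem cob_of_subsingleton [Subsingleton X] (n : ℕ) (φ : Coch n X A) (σ : C(Simp (n + 1), X))
    (τ : C(Simp n, X)) : cob n φ σ = if Even n then 0 else φ τ := by
  rw [cob_apply]
  have : ∀ i ∈ range (n + 2), (-1 : ℤ) ^ i • φ (σ.comp (smap (fv n i))) = (-1 : ℤ) ^ i • φ τ :=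
    fun i _ => by rw [Subsingleton.elim (σ.comp (smap (fv n i))) τ]
  rw [sum_congr rfl this, ← sum_smul, alt_sum]
  have h2 : Even (n + 2) ↔ Even n := by
    rw [Nat.even_add]
    simp
  simp only [h2]
  split_ifs
  · simp
  · simp

/-- The cohomology of a point vanishes in positive degrees. -/
theorem H.eq_zero_of_subsingleton [Subsingleton X] (n : ℕ) (u : H (n + 1) X A) : u = 0 := by
  obtain ⟨z, rfl⟩ := H.mk_surjective _ u
  rw [H.mk_eq_zero]
  have hz : cob (n + 1) (z : Coch (n + 1) X A) = 0 := z.2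
  rcases Nat.even_or_odd n with h | h
  · -- n + 1 odd: the cocycle vanishes
    have : (z : Coch (n + 1) X A) = 0 := by
      funext σ
      have h2 := cob_of_subsingleton (n + 1) (z : Coch (n + 1) X A)
        (σ.comp (smap (dv (n + 1) 0))) σ
      rw [hz, if_neg (by rw [Nat.not_even_iff_odd]; exact h.add_one)] at h2
      exact h2.symm
    rw [this]
    exact zero_mem _
  · refine ⟨fun τ => (z : Coch (n + 1) X A) (τ.comp (smap (dv n 0))), ?_⟩
    funext σ
    rw [cob_of_subsingleton n _ σ (σ.comp (smap (fv n 0))),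
      if_neg (by rwa [Nat.not_even_iff_odd])]
    exact congrArg _ (Subsingleton.elim _ _)

/-- Contractible spaces have no cohomology in positive degrees. -/
theorem H.eq_zero_of_contractible [ContractibleSpace X] (n : ℕ) (u : H (n + 1) X A) : u = 0 := by
  obtain ⟨e⟩ := ContractibleSpace.hequiv_unit X
  have hb := H.pb_bijective (n := n + 1) (A := A) (f := e.toFun) (g := e.invFun)
    e.left_inv e.right_inv
  obtain ⟨v, rfl⟩ := hb.2 u
  rw [H.eq_zero_of_subsingleton n v, map_zero]

/-- The class of a constant. -/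
def H.const (X : Type*) [TopologicalSpace X] (a : A) : H 0 X A :=
  H.mk 0 ⟨fun _ => a, by
    change cob 0 _ = 0
    funext σ
    rw [cob_apply]
    simp [Finset.sum_range_succ]⟩

theorem H.pb_const (f : C(X, Y)) (a : A) : H.pb f (H.const Y a) = H.const X a := rfl

theorem H.const_add (a b : A) : H.const X (a + b) = H.const X a + H.const X b := rfl

theorem H.const_zero : H.const X (0 : A) = 0 := rfl

theorem H.one_eq_const : (H.one : H 0 X ℤ) = H.const X 1 := rfl

/-- The singular `n`-simplex which is constant. -/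
abbrev cs (n : ℕ) (x : X) : C(Simp n, X) := ContinuousMap.const _ x

theorem zero_simplex_eq (σ : C(Simp 0, X)) : σ = cs 0 (σ (stdSimplex.vertex 0)) := by
  ext t
  rw [ContinuousMap.const_apply]
  congr 1
  exact Subsingleton.elim _ _

end

end Pool.Agent.Lib.MP_904b2a_gt
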