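import Mathlib

/-!
# MP_904b2a_gt: definitions

Singular cohomology (with arbitrary coefficients), the cup product with integer coefficients,
complex vector bundles, and the axioms for Chern classes.
-/

open scoped BigOperators

namespace Pool.Agent.Lib.MP_904b2a_gt

noncomputable section

/-! ## Simplices and their structure maps -/

/-- The standard topological `n`-simplex. -/
abbrev Simp (n : ℕ) : Type := stdSimplex ℝ (Fin (n + 1))

/-- The affine map of standard simplices given by a map of vertices. -/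
def smap {m n : ℕ} (f : Fin (m + 1) → Fin (n + 1)) : C(Simp m, Simp n) :=
  ⟨stdSimplex.map f, stdSimplex.continuous_map f⟩

theorem smap_comp {l m n : ℕ} (f : Fin (m + 1) → Fin (n + 1)) (g : Fin (l + 1) → Fin (m + 1)) :
    (smap f).comp (smap g) = smap (f ∘ g) := by
  ext1 x
  exact stdSimplex.map_comp_apply g f x

theorem smap_id (n : ℕ) : smap (id : Fin (n + 1) → Fin (n + 1)) = ContinuousMap.id _ := by
  ext1 x
  exact stdSimplex.map_id_apply x

/-- The `i`-th face: the increasing map `{0,…,n} → {0,…,n+1}` which skips `i` (`i ≤ n + 1`). -/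
def fv (n i : ℕ) : Fin (n + 1) → Fin (n + 2) :=
  fun k => if (k : ℕ) < i then k.castSucc else k.succ

/-- The `i`-th degeneracy: the non-decreasing map `{0,…,n+1} → {0,…,n}` which takes the
value `i` twice (`i ≤ n`). -/
def dv (n i : ℕ) : Fin (n + 2) → Fin (n + 1) :=
  fun k => if h : (k : ℕ) ≤ i ∧ (k : ℕ) < n + 1 then ⟨k, h.2⟩ else ⟨k - 1, by omega⟩

/-- The front face `{0,…,p} → {0,…,n}`, `k ↦ k` (for `p ≤ n`). -/
def frontv (p n : ℕ) : Fin (p + 1) → Fin (n + 1) :=
  fun k => ⟨min k n, by omega⟩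

/-- The back face `{0,…,q} → {0,…,n}`, `k ↦ k + (n - q)` (for `q ≤ n`). -/
def backv (q n : ℕ) : Fin (q + 1) → Fin (n + 1) :=
  fun k => ⟨min (k + (n - q)) n, by omega⟩

theorem fv_val (n i : ℕ) (k : Fin (n + 1)) :
    ((fv n i k : Fin (n + 2)) : ℕ) = if (k : ℕ) < i then (k : ℕ) else (k : ℕ) + 1 := by
  unfold fv
  split_ifs <;> simp

theorem dv_val (n i : ℕ) (k : Fin (n + 2)) :
    ((dv n i k : Fin (n + 1)) : ℕ) =
      if (k : ℕ) ≤ i ∧ (k : ℕ) < n + 1 then (k : ℕ) else (k : ℕ) - 1 := by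
  unfold dv
  split_ifs <;> rfl

theorem frontv_val (p n : ℕ) (k : Fin (p + 1)) :
    ((frontv p n k : Fin (n + 1)) : ℕ) = min (k : ℕ) n := rfl

theorem backv_val (q n : ℕ) (k : Fin (q + 1)) :
    ((backv q n k : Fin (n + 1)) : ℕ) = min ((k : ℕ) + (n - q)) n := rfl

/-! ## Singular cohomology -/

section Cohomology

variable {X Y Z : Type*} [TopologicalSpace X] [TopologicalSpace Y] [TopologicalSpace Z]
variable {A B : Type*} [AddCommGroup A] [AddCommGroup B]

/-- Singular `n`-cochains of `X` with coefficients in `A`: functions on the set of singular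
`n`-simplices. -/
abbrev Coch (n : ℕ) (X : Type*) [TopologicalSpace X] (A : Type*) := C(Simp n, X) → A

/-- The singular coboundary. -/
def cob (n : ℕ) : Coch n X A →+ Coch (n + 1) X A where
  toFun φ σ := ∑ i ∈ Finset.range (n + 2), (-1 : ℤ) ^ i • φ (σ.comp (smap (fv n i)))
  map_zero' := by
    funext σ
    simp
  map_add' φ ψ := by
    funext σ
    simp [Finset.sum_add_distrib, smul_add]

theorem cob_apply (n : ℕ) (φ : Coch n X A) (σ : C(Simp (n + 1), X)) :
    cob n φ σ = ∑ i ∈ Finset.range (n + 2), (-1 : ℤ) ^ i • φ (σ.comp (smap (fv n i))) := rfl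

variable (X A) in
/-- Singular cocycles. -/
def cocycles (n : ℕ) : AddSubgroup (Coch n X A) := (cob n).ker

variable (X A) in
/-- Singular coboundaries. -/
def coboundaries : ∀ n : ℕ, AddSubgroup (Coch n X A)
  | 0 => ⊥
  | (n + 1) => (cob n).range

/-- The `n`-th singular cohomology group of `X` with coefficients in `A`. -/
def H (n : ℕ) (X : Type*) [TopologicalSpace X] (A : Type*) [AddCommGroup A] : Type _ :=
  (cocycles X A n) ⧸ (coboundaries X A n).addSubgroupOf (cocycles X A n)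

instance (n : ℕ) : AddCommGroup (H n X A) :=
  inferInstanceAs (AddCommGroup ((cocycles X A n) ⧸ _))

/-- The cohomology class of a cocycle. -/
def H.mk (n : ℕ) : cocycles X A n →+ H n X A :=
  QuotientAddGroup.mk' _

theorem H.mk_surjective (n : ℕ) : Function.Surjective (H.mk (X := X) (A := A) n) :=
  QuotientAddGroup.mk'_surjective _

theorem H.mk_eq_zero {n : ℕ} {z : cocycles X A n} :
    H.mk n z = 0 ↔ (z : Coch n X A) ∈ coboundaries X A n :=
  (QuotientAddGroup.eq_zero_iff z).trans AddSubgroup.mem_addSubgroupOf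

/-- Homomorphisms out of cohomology are homomorphisms out of the group of cocycles which kill
the coboundaries. -/
def H.lift {n : ℕ} {G : Type*} [AddCommGroup G] (f : cocycles X A n →+ G)
    (hf : ∀ z : cocycles X A n, (z : Coch n X A) ∈ coboundaries X A n → f z = 0) :
    H n X A →+ G :=
  QuotientAddGroup.lift _ f (fun z hz => hf z (AddSubgroup.mem_addSubgroupOf.mp hz))

@[simp]
theorem H.lift_mk {n : ℕ} {G : Type*} [AddCommGroup G] (f : cocycles X A n →+ G)
    (hf : ∀ z : cocycles X A n, (z : Coch n X A) ∈ coboundaries X A n → f z = 0)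
    (z : cocycles X A n) : H.lift f hf (H.mk n z) = f z := rfl

theorem H.hom_ext {n : ℕ} {G : Type*} [AddCommGroup G] {f g : H n X A →+ G}
    (h : ∀ z : cocycles X A n, f (H.mk n z) = g (H.mk n z)) : f = g := by
  ext u
  obtain ⟨z, rfl⟩ := H.mk_surjective n u
  exact h z

/-- Pullback of cochains. -/
def pbC (n : ℕ) (f : C(X, Y)) : Coch n Y A →+ Coch n X A where
  toFun φ σ := φ (f.comp σ)
  map_zero' := rfl
  map_add' _ _ := rfl

theorem pbC_cob (n : ℕ) (f : C(X, Y)) (φ : Coch n Y A) :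
    pbC (n + 1) f (cob n φ) = cob n (pbC n f φ) := rfl

/-- Change of coefficients on cochains. -/
def cmC (n : ℕ) (h : A →+ B) : Coch n X A →+ Coch n X B where
  toFun φ σ := h (φ σ)
  map_zero' := by funext σ; simp
  map_add' φ ψ := by funext σ; simp

theorem cmC_cob (n : ℕ) (h : A →+ B) (φ : Coch n X A) :
    cmC (n + 1) h (cob n φ) = cob n (cmC n h φ) := by
  funext σ
  simp [cmC, cob_apply, map_sum, map_zsmul]

theorem pbC_mem_cocycles {n : ℕ} (f : C(X, Y)) {φ : Coch n Y A} (h : φ ∈ cocycles Y A n) :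
    pbC n f φ ∈ cocycles X A n := by
  change cob n (pbC n f φ) = 0
  rw [← pbC_cob, show cob n φ = 0 from h, map_zero]

theorem pbC_mem_coboundaries {n : ℕ} (f : C(X, Y)) {φ : Coch n Y A}
    (h : φ ∈ coboundaries Y A n) : pbC n f φ ∈ coboundaries X A n := by
  cases n with
  | zero =>
    have h0 : φ = 0 := h
    rw [h0, map_zero]
    exact zero_mem _
  | succ n =>
    obtain ⟨ψ, rfl⟩ := h
    exact ⟨pbC n f ψ, (pbC_cob n f ψ).symm⟩

theorem cmC_mem_cocycles {n : ℕ} (g : A →+ B) {φ : Coch n X A} (h : φ ∈ cocycles X A n) :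
    cmC n g φ ∈ cocycles X B n := by
  change cob n (cmC n g φ) = 0
  rw [← cmC_cob, show cob n φ = 0 from h, map_zero]

theorem cmC_mem_coboundaries {n : ℕ} (g : A →+ B) {φ : Coch n X A}
    (h : φ ∈ coboundaries X A n) : cmC n g φ ∈ coboundaries X B n := by
  cases n with
  | zero =>
    have h0 : φ = 0 := h
    rw [h0, map_zero]
    exact zero_mem _
  | succ n =>
    obtain ⟨ψ, rfl⟩ := h
    exact ⟨cmC n g ψ, (cmC_cob n g ψ).symm⟩

/-- The map on cohomology induced by a continuous map. -/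
def H.pb {n : ℕ} (f : C(X, Y)) : H n Y A →+ H n X A :=
  H.lift ((H.mk n).comp (((pbC n f).comp (cocycles Y A n).subtype).codRestrict
    (cocycles X A n) (fun z => pbC_mem_cocycles f z.2)))
    (fun _ hz => H.mk_eq_zero.mpr (pbC_mem_coboundaries f hz))

theorem H.pb_mk {n : ℕ} (f : C(X, Y)) (z : cocycles Y A n) :
    H.pb f (H.mk n z) = H.mk n ⟨pbC n f z, pbC_mem_cocycles f z.2⟩ := rfl

/-- The map on cohomology induced by a homomorphism of the coefficients. -/
def H.cm {n : ℕ} (g : A →+ B) : H n X A →+ H n X B :=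
  H.lift ((H.mk n).comp (((cmC n g).comp (cocycles X A n).subtype).codRestrict
    (cocycles X B n) (fun z => cmC_mem_cocycles g z.2)))
    (fun _ hz => H.mk_eq_zero.mpr (cmC_mem_coboundaries g hz))

theorem H.cm_mk {n : ℕ} (g : A →+ B) (z : cocycles X A n) :
    H.cm g (H.mk n z) = H.mk n ⟨cmC n g z, cmC_mem_cocycles g z.2⟩ := rfl

end Cohomology

/-! ## The cup product (integer coefficients) -/

section Cup

variable {X Y Z : Type*} [TopologicalSpace X] [TopologicalSpace Y] [TopologicalSpace Z]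

theorem front_face_lt {p n i : ℕ} (hp : p ≤ n) (hi : i ≤ p) :
    fv n i ∘ frontv p n = frontv (p + 1) (n + 1) ∘ fv p i := by
  funext k
  apply Fin.ext
  have hk := k.2
  simp only [Function.comp, fv_val, frontv_val]
  grind

theorem front_face_ge {p n i : ℕ} (hp : p ≤ n) (hi : p + 1 ≤ i) :
    fv n i ∘ frontv p n = frontv p (n + 1) := by
  funext k
  apply Fin.ext
  have hk := k.2
  simp only [Function.comp, fv_val, frontv_val]
  grind

theorem back_face_lt {p q n i : ℕ} (h : p + q = n) (hi : i ≤ p) :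
    fv n i ∘ backv q n = backv q (n + 1) := by
  funext k
  apply Fin.ext
  have hk := k.2
  simp only [Function.comp, fv_val, backv_val]
  grind

theorem back_face_ge {p q n i : ℕ} (h : p + q = n) (hi : p ≤ i) :
    fv n i ∘ backv q n = backv (q + 1) (n + 1) ∘ fv q (i - p) := by
  funext k
  apply Fin.ext
  have hk := k.2
  simp only [Function.comp, fv_val, backv_val]
  grind

theorem front_top {p n : ℕ} (hp : p ≤ n) :
    frontv (p + 1) (n + 1) ∘ fv p (p + 1) = frontv p (n + 1) := by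
  funext k
  apply Fin.ext
  have hk := k.2
  simp only [Function.comp, fv_val, frontv_val]
  grind

/-- The cup product of cochains. -/
def cupC (p q n : ℕ) (φ : Coch p X ℤ) (ψ : Coch q X ℤ) : Coch n X ℤ :=
  fun σ => φ (σ.comp (smap (frontv p n))) * ψ (σ.comp (smap (backv q n)))

theorem cob_cupC {p q n : ℕ} (h : p + q = n) (φ : Coch p X ℤ) (ψ : Coch q X ℤ) :
    cob n (cupC p q n φ ψ) =
      cupC (p + 1) q (n + 1) (cob p φ) ψ + (-1 : ℤ) ^ p • cupC p (q + 1) (n + 1) φ (cob q ψ) := by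
  funext σ
  have hp : p ≤ n := by omega
  rw [Pi.add_apply, Pi.smul_apply, cob_apply]
  simp only [cupC, cob_apply, smul_eq_mul, ContinuousMap.comp_assoc, smap_comp]
  rw [show Finset.range (n + 2) = Finset.range ((p + 1) + (q + 1)) by congr 1; omega,
    Finset.sum_range_add]
  rw [Finset.sum_range_succ _ (p + 1), add_mul, Finset.sum_mul, front_top hp]
  rw [Finset.sum_range_succ' _ (q + 1), mul_add, mul_add,
    Finset.mul_sum, Finset.mul_sum]
  have e2 : backv (q + 1) (n + 1) ∘ fv q 0 = backv q (n + 1) := by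
    have := back_face_ge (p := p) (q := q) (n := n) (i := p) h le_rfl
    rw [Nat.sub_self] at this
    rw [← this, back_face_lt h le_rfl]
  rw [e2]
  have s1 : ∀ x ∈ Finset.range (p + 1),
      (-1 : ℤ) ^ x * (φ (σ.comp (smap (fv n x ∘ frontv p n))) *
        ψ (σ.comp (smap (fv n x ∘ backv q n)))) =
      (-1 : ℤ) ^ x * φ (σ.comp (smap (frontv (p + 1) (n + 1) ∘ fv p x))) *
        ψ (σ.comp (smap (backv q (n + 1)))) := by
    intro x hx
    have hx' : x ≤ p := Nat.lt_succ_iff.mp (Finset.mem_range.mp hx)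
    rw [front_face_lt hp hx', back_face_lt h hx']
    ring
  have s2 : ∀ x ∈ Finset.range (q + 1),
      (-1 : ℤ) ^ (p + 1 + x) * (φ (σ.comp (smap (fv n (p + 1 + x) ∘ frontv p n))) *
        ψ (σ.comp (smap (fv n (p + 1 + x) ∘ backv q n)))) =
      (-1 : ℤ) ^ p * (φ (σ.comp (smap (frontv p (n + 1)))) * ((-1 : ℤ) ^ (x + 1) *
        ψ (σ.comp (smap (backv (q + 1) (n + 1) ∘ fv q (x + 1)))))) := by
    intro x hx
    rw [front_face_ge hp (by omega), back_face_ge h (by omega),
      show p + 1 + x - p = x + 1 by omega]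
    ring
  rw [Finset.sum_congr rfl s1, Finset.sum_congr rfl s2]
  ring


theorem cupC_add_left (p q n : ℕ) (φ φ' : Coch p X ℤ) (ψ : Coch q X ℤ) :
    cupC p q n (φ + φ') ψ = cupC p q n φ ψ + cupC p q n φ' ψ := by
  funext σ
  simp [cupC, add_mul]

theorem cupC_add_right (p q n : ℕ) (φ : Coch p X ℤ) (ψ ψ' : Coch q X ℤ) :
    cupC p q n φ (ψ + ψ') = cupC p q n φ ψ + cupC p q n φ ψ' := by
  funext σ
  simp [cupC, mul_add]

theorem cupC_zero_left (p q n : ℕ) (ψ : Coch q X ℤ) : cupC p q n (0 : Coch p X ℤ) ψ = 0 := by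
  funext σ
  simp [cupC]

theorem cupC_zero_right (p q n : ℕ) (φ : Coch p X ℤ) : cupC p q n φ (0 : Coch q X ℤ) = 0 := by
  funext σ
  simp [cupC]

theorem cupC_mem_cocycles {p q n : ℕ} (h : p + q = n) {φ : Coch p X ℤ} {ψ : Coch q X ℤ}
    (hφ : φ ∈ cocycles X ℤ p) (hψ : ψ ∈ cocycles X ℤ q) :
    cupC p q n φ ψ ∈ cocycles X ℤ n := by
  change cob n _ = 0
  rw [cob_cupC h, show cob p φ = 0 from hφ, show cob q ψ = 0 from hψ, cupC_zero_left,
    cupC_zero_right, smul_zero, add_zero]

theorem cupC_coboundary_left {p q n : ℕ} (h : p + q = n) {φ : Coch p X ℤ} {ψ : Coch q X ℤ}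
    (hφ : φ ∈ coboundaries X ℤ p) (hψ : ψ ∈ cocycles X ℤ q) :
    cupC p q n φ ψ ∈ coboundaries X ℤ n := by
  subst h
  cases p with
  | zero =>
    have h0 : φ = 0 := hφ
    rw [h0, cupC_zero_left]
    exact zero_mem _
  | succ p =>
    obtain ⟨η, rfl⟩ := hφ
    have e := cob_cupC (p := p) (q := q) (n := p + q) rfl η ψ
    rw [show cob q ψ = 0 from hψ, cupC_zero_right, smul_zero, add_zero] at e
    rw [show p + 1 + q = (p + q) + 1 by omega]
    exact ⟨cupC p q (p + q) η ψ, e⟩

theorem cupC_coboundary_right {p q n : ℕ} (h : p + q = n) {φ : Coch p X ℤ} {ψ : Coch q X ℤ}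
    (hφ : φ ∈ cocycles X ℤ p) (hψ : ψ ∈ coboundaries X ℤ q) :
    cupC p q n φ ψ ∈ coboundaries X ℤ n := by
  subst h
  cases q with
  | zero =>
    have h0 : ψ = 0 := hψ
    rw [h0, cupC_zero_right]
    exact zero_mem _
  | succ q =>
    obtain ⟨η, rfl⟩ := hψ
    have e := cob_cupC (p := p) (q := q) (n := p + q) rfl φ η
    rw [show cob p φ = 0 from hφ, cupC_zero_left, zero_add] at e
    refine ⟨(-1 : ℤ) ^ p • cupC p q (p + q) φ η, ?_⟩
    change cob (p + q) _ = _
    rw [map_zsmul, e, smul_smul, ← mul_pow]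
    simp
    rfl

/-- The cup product with a fixed cocycle. -/
def cupAux {p q n : ℕ} (h : p + q = n) (φ : cocycles X ℤ p) : H q X ℤ →+ H n X ℤ :=
  H.lift (AddMonoidHom.mk' (fun ψ => H.mk n ⟨cupC p q n φ.1 ψ.1, cupC_mem_cocycles h φ.2 ψ.2⟩)
    (fun ψ ψ' => by
      rw [← map_add]
      congr 1
      exact Subtype.ext (cupC_add_right p q n φ.1 ψ.1 ψ'.1)))
    (fun _ hψ => H.mk_eq_zero.mpr (cupC_coboundary_right h φ.2 hψ))

theorem cupAux_mk {p q n : ℕ} (h : p + q = n) (φ : cocycles X ℤ p) (ψ : cocycles X ℤ q) :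
    cupAux h φ (H.mk q ψ) = H.mk n ⟨cupC p q n φ.1 ψ.1, cupC_mem_cocycles h φ.2 ψ.2⟩ := rfl

/-- The cup product `H^p(X;ℤ) × H^q(X;ℤ) → H^n(X;ℤ)`, `p + q = n`. -/
def H.cup {p q n : ℕ} (h : p + q = n) : H p X ℤ →+ H q X ℤ →+ H n X ℤ :=
  H.lift (AddMonoidHom.mk' (fun φ => cupAux h φ) (fun φ φ' => by
      apply H.hom_ext
      intro ψ
      rw [AddMonoidHom.add_apply, cupAux_mk, cupAux_mk, cupAux_mk, ← map_add]
      congr 1
      exact Subtype.ext (cupC_add_left p q n φ.1 φ'.1 ψ.1)))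
    (fun φ hφ => by
      apply H.hom_ext
      intro ψ
      exact H.mk_eq_zero.mpr (cupC_coboundary_left h hφ ψ.2))

theorem H.cup_mk {p q n : ℕ} (h : p + q = n) (φ : cocycles X ℤ p) (ψ : cocycles X ℤ q) :
    H.cup h (H.mk p φ) (H.mk q ψ) =
      H.mk n ⟨cupC p q n φ.1 ψ.1, cupC_mem_cocycles h φ.2 ψ.2⟩ := rfl

/-- The unit `1 ∈ H^0(X;ℤ)`: the class of the constant cochain `1`. -/
def H.one : H 0 X ℤ :=
  H.mk 0 ⟨fun _ => 1, by
    change cob 0 _ = 0
    funext σ
    rw [cob_apply]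
    simp [Finset.sum_range_succ]⟩

end Cup


end

end Pool.Agent.Lib.MP_904b2a_gt
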