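import Pool.Agent.Lib.MP_904b2a_gt.Stmt
import Pool.Agent.Lib.MP_904b2a_gt.Coh
import Pool.Agent.Lib.MP_904b2a_gt.Chern

/-!
# MP_904b2a_gt: comparison of the two versions of the definitions
-/

open scoped BigOperators
open Finset

namespace Pool.Agent.Lib.MP_904b2a_gt

noncomputable section

variable {X Y : Type} [TopologicalSpace X] [TopologicalSpace Y] {n : ℕ}
variable {A : Type} [AddCommGroup A]

theorem fv_eq_succAbove' (n : ℕ) (i : Fin (n + 2)) : fv n i = i.succAbove := by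
  funext k
  apply Fin.ext
  rw [fv_val, Fin.succAbove]
  simp only [Fin.lt_def, Fin.val_castSucc]
  split_ifs <;> simp

theorem coboundary_eq (φ : Stmt.Sing n X → A) (σ : Stmt.Sing (n + 1) X) :
    Stmt.coboundary φ σ = cob n (φ : Coch n X A) σ := by
  rw [Stmt.coboundary, cob_apply, Finset.sum_range (fun i => (-1 : ℤ) ^ i •
    (φ : Coch n X A) (ContinuousMap.comp σ (smap (fv n i))))]
  refine Finset.sum_congr rfl (fun i _ => ?_)
  rw [fv_eq_succAbove']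
  rfl

theorem cocycle_iff (φ : Stmt.Sing n X → A) :
    (∀ σ, Stmt.coboundary φ σ = 0) ↔ (φ : Coch n X A) ∈ cocycles X A n := by
  rw [mem_cocycles]
  constructor
  · intro h
    funext σ
    rw [← coboundary_eq]
    exact h σ
  · intro h σ
    rw [coboundary_eq, h]
    rfl

theorem cohomologous_iff (φ ψ : Stmt.Sing n X → A) :
    Stmt.Cohomologous φ ψ ↔ (φ : Coch n X A) - (ψ : Coch n X A) ∈ coboundaries X A n := by
  cases n with
  | zero =>
    change (∀ σ, φ σ = ψ σ) ↔ (φ : Coch 0 X A) - (ψ : Coch 0 X A) = 0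
    constructor
    · intro h
      funext σ
      exact sub_eq_zero.mpr (h σ)
    · intro h σ
      exact sub_eq_zero.mp (congrFun h σ)
  | succ n =>
    change (∃ η : Stmt.Sing n X → A, ∀ σ : Stmt.Sing (n + 1) X, φ σ - ψ σ =
      Stmt.coboundary η σ) ↔ ∃ η, cob n η = (φ : Coch (n + 1) X A) - (ψ : Coch (n + 1) X A)
    constructor
    · rintro ⟨η, h⟩
      refine ⟨η, ?_⟩
      funext σ
      rw [← coboundary_eq]
      exact (h σ).symm
    · rintro ⟨η, h⟩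
      refine ⟨η, fun σ => ?_⟩
      rw [coboundary_eq, h]
      rfl

/-- The comparison of the two definitions of singular cohomology. -/
def toH (u : Stmt.Cohomology n X A) : H n X A :=
  Quot.lift (fun φ : {φ : Stmt.Sing n X → A // ∀ σ, Stmt.coboundary φ σ = 0} =>
    H.mk n ⟨φ.1, (cocycle_iff φ.1).mp φ.2⟩)
    (fun φ ψ h => H.mk_eq_mk.mpr ((cohomologous_iff φ.1 ψ.1).mp h)) u

theorem toH_surjective : Function.Surjective (toH (n := n) (X := X) (A := A)) := by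
  intro u
  obtain ⟨z, rfl⟩ := H.mk_surjective n u
  exact ⟨Quot.mk _ ⟨z.1, (cocycle_iff z.1).mpr z.2⟩, rfl⟩

theorem toH_injective : Function.Injective (toH (n := n) (X := X) (A := A)) := by
  intro u v h
  obtain ⟨φ, rfl⟩ := Quot.exists_rep u
  obtain ⟨ψ, rfl⟩ := Quot.exists_rep v
  apply Quot.sound
  exact (cohomologous_iff φ.1 ψ.1).mpr (H.mk_eq_mk.mp h)

/-- The inverse. -/
def ofH (u : H n X A) : Stmt.Cohomology n X A := (toH_surjective u).choose

@[simp] theorem toH_ofH (u : H n X A) : toH (ofH u) = u := (toH_surjective u).choose_spec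

@[simp] theorem ofH_toH (u : Stmt.Cohomology n X A) : ofH (toH u) = u :=
  toH_injective (toH_ofH _)

theorem represents_iff (φ : Stmt.Sing n X → A) (u : Stmt.Cohomology n X A) :
    Stmt.Represents φ u ↔ ∃ h : (φ : Coch n X A) ∈ cocycles X A n, toH u = H.mk n ⟨φ, h⟩ := by
  constructor
  · rintro ⟨h, rfl⟩
    exact ⟨(cocycle_iff φ).mp h, rfl⟩
  · rintro ⟨h, hu⟩
    refine ⟨(cocycle_iff φ).mpr h, toH_injective ?_⟩
    rw [hu]
    rfl

theorem represents_iff' (φ : Stmt.Sing n X → A) (u : H n X A) :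
    Stmt.Represents φ (ofH u) ↔ ∃ h : (φ : Coch n X A) ∈ cocycles X A n, u = H.mk n ⟨φ, h⟩ := by
  rw [represents_iff, toH_ofH]

theorem exists_represents (u : Stmt.Cohomology n X A) : ∃ φ, Stmt.Represents φ u := by
  obtain ⟨φ, rfl⟩ := Quot.exists_rep u
  exact ⟨φ.1, φ.2, rfl⟩

theorem cup_eq {p q : ℕ} (h : p + q = n) (φ : Stmt.Sing p X → ℤ) (ψ : Stmt.Sing q X → ℤ)
    (σ : Stmt.Sing n X) :
    Stmt.cup h φ ψ σ = cupC p q n (φ : Coch p X ℤ) (ψ : Coch q X ℤ) σ := by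
  have e1 : (fun k : Fin (p + 1) => (⟨k, by omega⟩ : Fin (n + 1))) = frontv p n := by
    funext k
    apply Fin.ext
    rw [frontv_val]
    have := k.2
    change (k : ℕ) = min (k : ℕ) n
    omega
  have e2 : (fun k : Fin (q + 1) => (⟨p + k, by omega⟩ : Fin (n + 1))) = backv q n := by
    funext k
    apply Fin.ext
    rw [backv_val]
    have := k.2
    change p + (k : ℕ) = min ((k : ℕ) + (n - q)) n
    omega
  rw [Stmt.cup, e1, e2]
  rfl

/-- The sum of cup products on representatives. -/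
theorem mk_sum_cup {k : ℕ} (φ ψ : ∀ i, cocycles X ℤ (2 * i)) :
    ∃ h : ((fun σ => ∑ i : Fin (k + 1),
      cupC (2 * (i : ℕ)) (2 * (k - (i : ℕ))) (2 * k) (φ (i : ℕ)).1 (ψ (k - (i : ℕ))).1 σ :
        Coch (2 * k) X ℤ)) ∈ cocycles X ℤ (2 * k),
    ∑ i : Fin (k + 1), H.cup (p := 2 * (i : ℕ)) (q := 2 * (k - (i : ℕ))) (n := 2 * k) (by omega)
      (H.mk _ (φ (i : ℕ))) (H.mk _ (ψ (k - (i : ℕ)))) = H.mk (2 * k) ⟨_, h⟩ := by
  have e : (fun σ => ∑ i : Fin (k + 1),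
      cupC (2 * (i : ℕ)) (2 * (k - (i : ℕ))) (2 * k) (φ (i : ℕ)).1 (ψ (k - (i : ℕ))).1 σ :
        Coch (2 * k) X ℤ) = ((∑ i : Fin (k + 1),
      (⟨cupC (2 * (i : ℕ)) (2 * (k - (i : ℕ))) (2 * k) (φ (i : ℕ)).1 (ψ (k - (i : ℕ))).1,
        cupC_mem_cocycles (by omega) (φ (i : ℕ)).2 (ψ (k - (i : ℕ))).2⟩ :
        cocycles X ℤ (2 * k)) : cocycles X ℤ (2 * k)) : Coch (2 * k) X ℤ) := by
    funext σ
    rw [AddSubgroup.val_finsetSum, Finset.sum_apply]
  have hmem : (fun σ => ∑ i : Fin (k + 1),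
      cupC (2 * (i : ℕ)) (2 * (k - (i : ℕ))) (2 * k) (φ (i : ℕ)).1 (ψ (k - (i : ℕ))).1 σ :
        Coch (2 * k) X ℤ) ∈ cocycles X ℤ (2 * k) := by
    rw [e]
    exact Subtype.property _
  refine ⟨hmem, ?_⟩
  simp only [H.cup_mk]
  rw [← map_sum]
  congr 1
  exact Subtype.ext e.symm

theorem zsmul_cocycle_val (m : ℤ) (z : cocycles X ℤ n) :
    ((m • z : cocycles X ℤ n) : Coch n X ℤ) = fun σ => m * z.1 σ := by
  rw [AddSubgroup.coe_zsmul]
  funext σ
  rw [Pi.smul_apply, smul_eq_mul]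

/-- A theory in the sense of `Stmt` from a theory in the sense of `Chern.lean`. -/
def ChernTheory.toStmt (𝒞 : ChernTheory) : Stmt.ChernClasses where
  c V i := ofH (𝒞.c V i)
  c_zero V hV := by
    rw [𝒞.c_zero V hV, represents_iff']
    exact ⟨_, rfl⟩
  c_gt V hV i hi := by
    rw [𝒞.c_gt V hV i hi, represents_iff']
    exact ⟨zero_mem _, (map_zero (H.mk _)).symm⟩
  natural V W f F hW hF i φ hφ := by
    rw [represents_iff'] at hφ ⊢
    obtain ⟨h, hφ⟩ := hφ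
    rw [𝒞.natural V W f F hW hF i, hφ, H.pb_mk]
    exact ⟨pbC_mem_cocycles f h, rfl⟩
  whitney V V₁ V₂ F₁ F₂ hV hF k φ ψ hφ hψ := by
    simp only [represents_iff'] at hφ hψ
    choose h1 h2 using hφ
    choose h3 h4 using hψ
    rw [represents_iff', 𝒞.whitney V V₁ V₂ F₁ F₂ hV hF k]
    obtain ⟨h5, h6⟩ := mk_sum_cup (k := k) (fun i => ⟨φ i, h1 i⟩) (fun i => ⟨ψ i, h3 i⟩)
    have e : (fun σ => ∑ i : Fin (k + 1), Stmt.cup (n := 2 * k) (by omega) (φ (i : ℕ))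
        (ψ (k - (i : ℕ))) σ : Stmt.Sing (2 * k) _ → ℤ) = (fun σ => ∑ i : Fin (k + 1),
      cupC (2 * (i : ℕ)) (2 * (k - (i : ℕ))) (2 * k) (φ (i : ℕ)) (ψ (k - (i : ℕ))) σ) := by
      funext σ
      exact Finset.sum_congr rfl (fun i _ => cup_eq _ _ _ _)
    rw [e]
    refine ⟨h5, ?_⟩
    rw [← h6]
    refine Finset.sum_congr rfl (fun i _ => ?_)
    rw [h2, h4]
  normalization V F hF φ hφ ψ hψ := by
    rw [represents_iff'] at hφ
    obtain ⟨h, hφ⟩ := hφ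
    obtain ⟨m, hm⟩ := 𝒞.normalization V F hF (H.mk 2 ⟨ψ, (cocycle_iff ψ).mp hψ⟩)
    refine ⟨m, ?_⟩
    rw [cohomologous_iff]
    have hm' : H.mk 2 ⟨ψ, (cocycle_iff ψ).mp hψ⟩ = H.mk 2 (m • ⟨φ, h⟩) := by
      rw [map_zsmul, hm]
      congr 1
    have := H.mk_eq_mk.mp hm'
    rw [zsmul_cocycle_val] at this
    exact this

/-- The converse. -/
def ChernTheory.ofStmt (𝒞 : Stmt.ChernClasses) : ChernTheory where
  c V i := toH (𝒞.c V i)
  c_zero V hV := by
    obtain ⟨h, hu⟩ := (represents_iff _ _).mp (𝒞.c_zero V hV)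
    rw [hu]
    rfl
  c_gt V hV i hi := by
    obtain ⟨h, hu⟩ := (represents_iff _ _).mp (𝒞.c_gt V hV i hi)
    rw [hu]
    exact map_zero (H.mk _)
  natural V W f F hW hF i := by
    obtain ⟨φ, hφ⟩ := exists_represents (𝒞.c W i)
    obtain ⟨h1, h2⟩ := (represents_iff _ _).mp (𝒞.natural V W f F hW hF i φ hφ)
    obtain ⟨h3, h4⟩ := (represents_iff _ _).mp hφ
    rw [h2, h4, H.pb_mk]
    rfl
  whitney V V₁ V₂ F₁ F₂ hV hF k := by
    choose φ hφ using fun i => exists_represents (𝒞.c V₁ i)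
    choose ψ hψ using fun i => exists_represents (𝒞.c V₂ i)
    obtain ⟨h0, h0'⟩ := (represents_iff _ _).mp (𝒞.whitney V V₁ V₂ F₁ F₂ hV hF k φ ψ hφ hψ)
    have h12 := fun i => (represents_iff _ _).mp (hφ i)
    have h34 := fun i => (represents_iff _ _).mp (hψ i)
    choose h1 h2 using h12
    choose h3 h4 using h34
    obtain ⟨h5, h6⟩ := mk_sum_cup (k := k) (fun i => ⟨φ i, h1 i⟩) (fun i => ⟨ψ i, h3 i⟩)
    have e : (fun σ => ∑ i : Fin (k + 1), Stmt.cup (n := 2 * k) (by omega) (φ (i : ℕ))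
        (ψ (k - (i : ℕ))) σ : Stmt.Sing (2 * k) _ → ℤ) = (fun σ => ∑ i : Fin (k + 1),
      cupC (2 * (i : ℕ)) (2 * (k - (i : ℕ))) (2 * k) (φ (i : ℕ)) (ψ (k - (i : ℕ))) σ) := by
      funext σ
      exact Finset.sum_congr rfl (fun i _ => cup_eq _ _ _ _)
    rw [h0']
    have h7 : H.mk (2 * k) ⟨_, h0⟩ = H.mk (2 * k) ⟨_, h5⟩ := by
      congr 1
      exact Subtype.ext e
    rw [h7, ← h6]
    refine Finset.sum_congr rfl (fun i _ => ?_)
    rw [h2, h4]
  normalization V F hF u := by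
    obtain ⟨φ, hφ⟩ := exists_represents (𝒞.c V 1)
    obtain ⟨z, rfl⟩ := H.mk_surjective 2 u
    obtain ⟨m, hm⟩ := 𝒞.normalization V F hF φ hφ z.1 ((cocycle_iff z.1).mpr z.2)
    obtain ⟨h3, h4⟩ := (represents_iff _ _).mp hφ
    refine ⟨m, ?_⟩
    rw [h4]
    have h5 : m • H.mk 2 ⟨φ, h3⟩ = H.mk 2 (m • ⟨φ, h3⟩) := (map_zsmul _ _ _).symm
    refine Eq.trans ?_ h5.symm
    rw [H.mk_eq_mk]
    rw [cohomologous_iff] at hm
    rw [zsmul_cocycle_val]
    exact hm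

end

end Pool.Agent.Lib.MP_904b2a_gt
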