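import Pool.Agent.Lib.MP_904b2a_gt.ExtMod
import Pool.Agent.Lib.MP_904b2a_gt.H1.Filt
import Pool.Agent.Lib.MP_904b2a_gt.H1.Section

/-!
# MP_904b2a_gt, final assembly, part 1: cohomology of disjoint unions; the telescope
-/

open scoped BigOperators
open Metric Set Topology

namespace Pool.Agent.Lib.MP_904b2a_gt

noncomputable section

/-! ### Disjoint unions -/

section Disj

variable {W : Type*} [TopologicalSpace W] {A : Type*} [AddCommGroup A]

/-- The pieces of a space with a locally constant function. -/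
abbrev pc (f : C(W, ℤ)) (k : ℤ) : Set W := f ⁻¹' {k}

theorem inS_pc (f : C(W, ℤ)) {n : ℕ} (σ : C(Simp n, W)) :
    InS (pc f (f (σ (stdSimplex.vertex 0)))) σ := by
  intro t
  have : PreconnectedSpace (Simp n) := by
    have h := (convex_stdSimplex ℝ (Fin (n + 1))).isPreconnected
    exact isPreconnected_iff_preconnectedSpace.mp h
  exact PreconnectedSpace.constant this (f.comp σ).continuous

theorem coch_ext_pc (f : C(W, ℤ)) {n : ℕ} {φ ψ : Coch n W A}
    (h : ∀ k, pbC n (incl (pc f k)) φ = pbC n (incl (pc f k)) ψ) : φ = ψ := by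
  funext σ
  exact congrFun (h _) (inS_pc f σ).res

/-- Cochains glued from the pieces. -/
def gluePc (f : C(W, ℤ)) {n : ℕ} (ψ : ∀ k, Coch n (pc f k) A) : Coch n W A :=
  fun σ => ψ (f (σ (stdSimplex.vertex 0))) (inS_pc f σ).res

theorem pbC_gluePc (f : C(W, ℤ)) {n : ℕ} (ψ : ∀ k, Coch n (pc f k) A) (k : ℤ) :
    pbC n (incl (pc f k)) (gluePc f ψ) = ψ k := by
  funext σ
  change ψ (f (incl (pc f k) (σ (stdSimplex.vertex 0)))) (inS_pc f ((incl (pc f k)).comp σ)).res
    = ψ k σ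
  have hk : f (incl (pc f k) (σ (stdSimplex.vertex 0))) = k := (σ (stdSimplex.vertex 0)).2
  have key : ∀ (l : ℤ) (hl : l = k) (h : InS (pc f l) ((incl (pc f k)).comp σ)),
      ψ l h.res = ψ k σ := by
    rintro l rfl h
    rfl
  exact key _ hk _

/-- A class on a disjoint union vanishes if it vanishes on the pieces. -/
theorem H.eq_zero_of_pc (f : C(W, ℤ)) {n : ℕ} {u : H n W A}
    (h : ∀ k, H.pb (incl (pc f k)) u = 0) : u = 0 := by
  obtain ⟨z, rfl⟩ := H.mk_surjective n u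
  apply H.mk_eq_zero.mpr
  have h' : ∀ k, pbC n (incl (pc f k)) z.1 ∈ coboundaries (↥(pc f k)) A n :=
    fun k => H.mk_eq_zero.mp (h k)
  cases n with
  | zero =>
    change z.1 = 0
    refine coch_ext_pc f (fun k => ?_)
    rw [map_zero]
    exact h' k
  | succ n =>
    choose ψ hψ using h'
    refine ⟨gluePc f ψ, coch_ext_pc f (fun k => ?_)⟩
    rw [pbC_cob, pbC_gluePc]
    exact hψ k

theorem H.eq_of_pc (f : C(W, ℤ)) {n : ℕ} {u v : H n W A}
    (h : ∀ k, H.pb (incl (pc f k)) u = H.pb (incl (pc f k)) v) : u = v := by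
  rw [← sub_eq_zero]
  apply H.eq_zero_of_pc f
  intro k
  rw [map_sub, h k, sub_self]

end Disj

/-! ### The telescope -/

section Tel

variable {X : Type} [TopologicalSpace X] (Y : ℕ → Set X)

/-- The telescope of a filtration. -/
def Tel : Type := {p : X × ℝ // 0 ≤ p.2 ∧ p.1 ∈ Y ⌊p.2⌋₊}

instance : TopologicalSpace (Tel Y) :=
  inferInstanceAs (TopologicalSpace {p : X × ℝ // 0 ≤ p.2 ∧ p.1 ∈ Y ⌊p.2⌋₊})

/-- The projection to `X`. -/
def Tel.pr : C(Tel Y, X) := ⟨fun p => p.1.1, continuous_fst.comp continuous_subtype_val⟩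

/-- The height. -/
def Tel.t : C(Tel Y, ℝ) := ⟨fun p => p.1.2, continuous_snd.comp continuous_subtype_val⟩

variable {Y}

theorem Tel.t_nonneg (p : Tel Y) : 0 ≤ Tel.t Y p := p.2.1

theorem Tel.pr_mem (p : Tel Y) : Tel.pr Y p ∈ Y ⌊Tel.t Y p⌋₊ := p.2.2

theorem Tel.pr_mem_of_lt (hY : Monotone Y) (p : Tel Y) {m : ℕ} (h : Tel.t Y p < m + 1) :
    Tel.pr Y p ∈ Y m := by
  refine hY ?_ p.pr_mem
  have := (Nat.floor_lt p.t_nonneg).mpr (show Tel.t Y p < ((m + 1 : ℕ) : ℝ) by push_cast; exact h)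
  omega

variable (Y) in
/-- The open set `cos (π t) > -1`. -/
def Tel.Op : Set (Tel Y) := {p | -1 < Real.cos (Real.pi * Tel.t Y p)}

variable (Y) in
/-- The open set `cos (π t) < 1`. -/
def Tel.Om : Set (Tel Y) := {p | Real.cos (Real.pi * Tel.t Y p) < 1}

theorem Tel.isOpen_Op : IsOpen (Tel.Op Y) :=
  isOpen_lt continuous_const (Real.continuous_cos.comp (continuous_const.mul (Tel.t Y).continuous))

theorem Tel.isOpen_Om : IsOpen (Tel.Om Y) :=
  isOpen_lt (Real.continuous_cos.comp (continuous_const.mul (Tel.t Y).continuous)) continuous_const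

theorem Tel.union : Tel.Op Y ∪ Tel.Om Y = univ := by
  rw [eq_univ_iff_forall]
  intro p
  by_cases h : -1 < Real.cos (Real.pi * Tel.t Y p)
  · exact Or.inl h
  · right
    change Real.cos _ < 1
    linarith

/-- The floor function is continuous away from the integers. -/
theorem continuousAt_floor' {x : ℝ} (h : ∀ k : ℤ, x ≠ k) : ContinuousAt (fun y : ℝ => ⌊y⌋) x := by
  rw [ContinuousAt, nhds_discrete ℤ, Filter.tendsto_pure]
  have h1 : (⌊x⌋ : ℝ) < x := lt_of_le_of_ne (Int.floor_le x) (fun h' => h _ h'.symm)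
  filter_upwards [Ioo_mem_nhds h1 (Int.lt_floor_add_one x)] with y hy
  rw [Int.floor_eq_iff]
  exact ⟨hy.1.le, hy.2⟩

theorem cos_ne_one_of {t : ℝ} (h : Real.cos (Real.pi * t) < 1) (k : ℤ) : t ≠ 2 * k := by
  rintro rfl
  have : Real.pi * (2 * (k : ℝ)) = (k : ℝ) * (2 * Real.pi) := by ring
  rw [this, Real.cos_int_mul_two_pi] at h
  exact lt_irrefl _ h

theorem cos_ne_neg_one_of {t : ℝ} (h : -1 < Real.cos (Real.pi * t)) (k : ℤ) :
    t ≠ 2 * k + 1 := by
  rintro rfl
  have : Real.pi * (2 * (k : ℝ) + 1) = (k : ℝ) * (2 * Real.pi) + Real.pi := by ring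
  rw [this, Real.cos_add_pi, Real.cos_int_mul_two_pi] at h
  exact lt_irrefl _ h

/-- The index of the components of `Op`. -/
def Tel.fp : C(Tel.Op Y, ℤ) where
  toFun p := ⌊(Tel.t Y p.1 + 1) / 2⌋
  continuous_toFun := by
    rw [continuous_iff_continuousAt]
    intro p
    have h1 : ContinuousAt (fun y : ℝ => ⌊y⌋) ((Tel.t Y p.1 + 1) / 2) := by
      refine continuousAt_floor' (fun k hk => ?_)
      refine cos_ne_neg_one_of p.2 (k - 1) ?_
      push_cast
      linarith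
    have h2 : Continuous (fun p : Tel.Op Y => (Tel.t Y p.1 + 1) / 2) := by fun_prop
    exact ContinuousAt.comp (f := fun p : Tel.Op Y => (Tel.t Y p.1 + 1) / 2) h1 h2.continuousAt

/-- The index of the components of `Om`. -/
def Tel.fm : C(Tel.Om Y, ℤ) where
  toFun p := ⌊Tel.t Y p.1 / 2⌋
  continuous_toFun := by
    rw [continuous_iff_continuousAt]
    intro p
    have h1 : ContinuousAt (fun y : ℝ => ⌊y⌋) (Tel.t Y p.1 / 2) := by
      refine continuousAt_floor' (fun k hk => ?_)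
      refine cos_ne_one_of p.2 k ?_
      linarith
    have h2 : Continuous (fun p : Tel.Om Y => Tel.t Y p.1 / 2) := by fun_prop
    exact ContinuousAt.comp (f := fun p : Tel.Om Y => Tel.t Y p.1 / 2) h1 h2.continuousAt

/-- The height is not an integer on `Op ∩ Om`. -/
theorem Tel.t_ne (p : ↥(Tel.Op Y ∩ Tel.Om Y)) (k : ℤ) : Tel.t Y p.1 ≠ k := by
  intro hk
  rcases Int.even_or_odd' k with ⟨l, rfl | rfl⟩
  · exact cos_ne_one_of p.2.2 l (by rw [hk]; push_cast; ring)
  · exact cos_ne_neg_one_of p.2.1 l (by rw [hk]; push_cast; ring)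

/-- The index of the components of `Op ∩ Om`. -/
def Tel.f0 : C(↥(Tel.Op Y ∩ Tel.Om Y), ℤ) where
  toFun p := ⌊Tel.t Y p.1⌋
  continuous_toFun := by
    rw [continuous_iff_continuousAt]
    intro p
    have h1 : ContinuousAt (fun y : ℝ => ⌊y⌋) (Tel.t Y p.1) :=
      continuousAt_floor' (fun k => Tel.t_ne p k)
    have h2 : Continuous (fun p : ↥(Tel.Op Y ∩ Tel.Om Y) => Tel.t Y p.1) := by fun_prop
    exact ContinuousAt.comp (f := fun p : ↥(Tel.Op Y ∩ Tel.Om Y) => Tel.t Y p.1) h1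
      h2.continuousAt

/-- A class of `X` which vanishes on all `Y m` vanishes on `Op`. -/
theorem Tel.pr_Op_eq_zero (hY : Monotone Y) {A : Type} [AddCommGroup A] {n : ℕ} (c : H n X A)
    (hc : ∀ m, H.pb (incl (Y m)) c = 0) : H.pb (incl (Tel.Op Y)) (H.pb (Tel.pr Y) c) = 0 := by
  apply H.eq_zero_of_pc Tel.fp
  intro k
  have hm : ∀ p : ↥(pc (Tel.fp (Y := Y)) k), Tel.pr Y p.1.1 ∈ Y (2 * k).toNat := by
    intro p
    apply Tel.pr_mem_of_lt hY
    have h1 : ⌊(Tel.t Y p.1.1 + 1) / 2⌋ = k := p.2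
    have h2 := Int.lt_floor_add_one ((Tel.t Y p.1.1 + 1) / 2)
    rw [h1] at h2
    have h3 : ((2 * k : ℤ) : ℝ) ≤ (((2 * k).toNat : ℤ) : ℝ) := by
      exact_mod_cast Int.self_le_toNat (2 * k)
    push_cast at h3
    linarith
  let g : C(↥(pc (Tel.fp (Y := Y)) k), Y (2 * k).toNat) :=
    ⟨fun p => ⟨Tel.pr Y p.1.1, hm p⟩, by fun_prop⟩
  have e : H.pb (incl (pc (Tel.fp (Y := Y)) k)) (H.pb (incl (Tel.Op Y)) (H.pb (Tel.pr Y) c)) =
      H.pb g (H.pb (incl (Y (2 * k).toNat)) c) := by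
    rw [H.pb_comp, H.pb_comp, H.pb_comp]
    rfl
  rw [e, hc, map_zero]

/-- A class of `X` which vanishes on all `Y m` vanishes on `Om`. -/
theorem Tel.pr_Om_eq_zero (hY : Monotone Y) {A : Type} [AddCommGroup A] {n : ℕ} (c : H n X A)
    (hc : ∀ m, H.pb (incl (Y m)) c = 0) : H.pb (incl (Tel.Om Y)) (H.pb (Tel.pr Y) c) = 0 := by
  apply H.eq_zero_of_pc Tel.fm
  intro k
  have hm : ∀ p : ↥(pc (Tel.fm (Y := Y)) k), Tel.pr Y p.1.1 ∈ Y (2 * k + 1).toNat := by
    intro p
    apply Tel.pr_mem_of_lt hY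
    have h1 : ⌊Tel.t Y p.1.1 / 2⌋ = k := p.2
    have h2 := Int.lt_floor_add_one (Tel.t Y p.1.1 / 2)
    rw [h1] at h2
    have h3 : ((2 * k + 1 : ℤ) : ℝ) ≤ (((2 * k + 1).toNat : ℤ) : ℝ) := by
      exact_mod_cast Int.self_le_toNat (2 * k + 1)
    push_cast at h3
    linarith
  let g : C(↥(pc (Tel.fm (Y := Y)) k), Y (2 * k + 1).toNat) :=
    ⟨fun p => ⟨Tel.pr Y p.1.1, hm p⟩, by fun_prop⟩
  have e : H.pb (incl (pc (Tel.fm (Y := Y)) k)) (H.pb (incl (Tel.Om Y)) (H.pb (Tel.pr Y) c)) =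
      H.pb g (H.pb (incl (Y (2 * k + 1).toNat)) c) := by
    rw [H.pb_comp, H.pb_comp, H.pb_comp]
    rfl
  rw [e, hc, map_zero]

variable (Y) in
/-- The middle of the `m`-th piece. -/
def Tel.mid (m : ℕ) : C(Y m, ↥(Tel.Op Y ∩ Tel.Om Y)) where
  toFun y := ⟨⟨(y.1, m + 1 / 2), by
    refine ⟨by positivity, ?_⟩
    have : ⌊((m : ℝ) + 1 / 2)⌋₊ = m := by
      rw [Nat.floor_eq_iff (by positivity)]
      constructor <;> norm_num
    change y.1 ∈ Y ⌊((m : ℝ) + 1 / 2)⌋₊
    rw [this]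
    exact y.2⟩, by
    have h : Real.cos (Real.pi * ((m : ℝ) + 1 / 2)) = 0 := by
      rw [Real.cos_eq_zero_iff]
      exact ⟨m, by push_cast; ring⟩
    constructor
    · change -1 < Real.cos (Real.pi * ((m : ℝ) + 1 / 2))
      rw [h]
      norm_num
    · change Real.cos (Real.pi * ((m : ℝ) + 1 / 2)) < 1
      rw [h]
      norm_num⟩
  continuous_toFun := by
    refine Continuous.subtype_mk (Continuous.subtype_mk ?_ _) _
    fun_prop

theorem cos_bounds {m : ℕ} {t : ℝ} (h1 : (m : ℝ) < t) (h2 : t < m + 1) :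
    -1 < Real.cos (Real.pi * t) ∧ Real.cos (Real.pi * t) < 1 := by
  have hsin : Real.sin (Real.pi * t) ≠ 0 := by
    intro h
    rw [Real.sin_eq_zero_iff] at h
    obtain ⟨k, hk⟩ := h
    have hk' : (k : ℝ) = t := by
      have := mul_right_cancel₀ Real.pi_ne_zero (hk.trans (mul_comm _ _))
      exact this
    rw [← hk'] at h1 h2
    have h3 : (m : ℤ) < k := by exact_mod_cast h1
    have h4 : k < m + 1 := by exact_mod_cast h2
    omega
  have h5 := Real.sin_sq_add_cos_sq (Real.pi * t)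
  have h6 : 0 < Real.sin (Real.pi * t) ^ 2 := by positivity
  constructor <;> nlinarith

/-- Classes on `Op ∩ Om` are determined by their restrictions to the middles of the pieces. -/
theorem Tel.eq_of_mid {A : Type} [AddCommGroup A] {n : ℕ}
    {u v : H n ↥(Tel.Op Y ∩ Tel.Om Y) A}
    (h : ∀ m, H.pb (Tel.mid Y m) u = H.pb (Tel.mid Y m) v) : u = v := by
  apply H.eq_of_pc Tel.f0
  intro k
  by_cases hk : 0 ≤ k
  · obtain ⟨m, rfl⟩ := Int.eq_ofNat_of_zero_le hk
    have hb : ∀ p : ↥(pc (Tel.f0 (Y := Y)) m), (m : ℝ) < Tel.t Y p.1.1 ∧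
        Tel.t Y p.1.1 < m + 1 := by
      intro p
      have h1 : ⌊Tel.t Y p.1.1⌋ = m := p.2
      constructor
      · refine lt_of_le_of_ne ?_ (fun h' => Tel.t_ne p.1 m (by rw [← h']; simp))
        have := Int.floor_le (Tel.t Y p.1.1)
        rw [h1] at this
        exact_mod_cast this
      · have := Int.lt_floor_add_one (Tel.t Y p.1.1)
        rw [h1] at this
        exact_mod_cast this
    have hfl : ∀ t : ℝ, (m : ℝ) < t → t < m + 1 → ⌊t⌋₊ = m := by
      intro t h1 h2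
      rw [Nat.floor_eq_iff (by linarith [(Nat.cast_nonneg m : (0 : ℝ) ≤ m)])]
      exact ⟨h1.le, h2⟩
    have hm : ∀ p : ↥(pc (Tel.f0 (Y := Y)) m), Tel.pr Y p.1.1 ∈ Y m := by
      intro p
      have := p.1.1.pr_mem
      rwa [hfl _ (hb p).1 (hb p).2] at this
    let r : C(↥(pc (Tel.f0 (Y := Y)) m), Y m) := ⟨fun p => ⟨Tel.pr Y p.1.1, hm p⟩, by fun_prop⟩
    -- the homotopy from the inclusion to `mid ∘ r`
    have hbs : ∀ (s : unitInterval) (p : ↥(pc (Tel.f0 (Y := Y)) m)),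
        (m : ℝ) < (1 - (s : ℝ)) * Tel.t Y p.1.1 + s * (m + 1 / 2) ∧
          (1 - (s : ℝ)) * Tel.t Y p.1.1 + s * (m + 1 / 2) < m + 1 := by
      intro s p
      obtain ⟨h1, h2⟩ := hb p
      have hs0 := s.2.1
      have hs1 := s.2.2
      rcases eq_or_lt_of_le hs1 with hs | hs
      · rw [hs]
        constructor <;> linarith
      · constructor <;> nlinarith
    let F : (incl (pc (Tel.f0 (Y := Y)) m)).Homotopy ((Tel.mid Y m).comp r) :=
      { toFun := fun sp => ⟨⟨(Tel.pr Y sp.2.1.1,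
          (1 - (sp.1 : ℝ)) * Tel.t Y sp.2.1.1 + sp.1 * (m + 1 / 2)), by
            obtain ⟨h1, h2⟩ := hbs sp.1 sp.2
            refine ⟨by linarith [(Nat.cast_nonneg m : (0 : ℝ) ≤ m)], ?_⟩
            change Tel.pr Y sp.2.1.1 ∈ Y ⌊(1 - (sp.1 : ℝ)) * Tel.t Y sp.2.1.1 + sp.1 * (m + 1 / 2)⌋₊
            rw [hfl _ h1 h2]
            exact hm sp.2⟩, by
            obtain ⟨h1, h2⟩ := hbs sp.1 sp.2
            exact cos_bounds h1 h2⟩
        continuous_toFun := by
          refine Continuous.subtype_mk (Continuous.subtype_mk ?_ _) _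
          fun_prop
        map_zero_left := fun p => by
          apply Subtype.ext
          apply Subtype.ext
          refine Prod.ext rfl ?_
          change (1 - ((0 : unitInterval) : ℝ)) * Tel.t Y p.1.1 + (0 : unitInterval) * (m + 1 / 2)
            = Tel.t Y p.1.1
          simp
        map_one_left := fun p => by
          apply Subtype.ext
          apply Subtype.ext
          refine Prod.ext rfl ?_
          change (1 - ((1 : unitInterval) : ℝ)) * Tel.t Y p.1.1 + (1 : unitInterval) * (m + 1 / 2)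
            = m + 1 / 2
          simp }
    rw [H.pb_eq_of_homotopic ⟨F⟩, H.pb_eq_of_homotopic ⟨F⟩, ← H.pb_comp, ← H.pb_comp, h m]
  · have : IsEmpty ↥(pc (Tel.f0 (Y := Y)) k) := by
      refine ⟨fun p => hk ?_⟩
      have h1 : ⌊Tel.t Y p.1.1⌋ = k := p.2
      rw [← h1]
      exact Int.floor_nonneg.mpr p.1.1.t_nonneg
    rw [H.eq_zero_of_isEmpty (H.pb (incl (pc (Tel.f0 (Y := Y)) k)) u),
      H.eq_zero_of_isEmpty (H.pb (incl (pc (Tel.f0 (Y := Y)) k)) v)]

end Tel

end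

end Pool.Agent.Lib.MP_904b2a_gt
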