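import Pool.Agent.Lib.MP_904b2a_gt.Fin1

/-!
# MP_904b2a_gt, final assembly, part 2: the map to the suspension of `U(r)` and the main theorem
-/

open scoped BigOperators Matrix
open Metric Set Topology

namespace Pool.Agent.Lib.MP_904b2a_gt

noncomputable section

section Phi

variable {X : Type} [TopologicalSpace X] {Y : ℕ → Set X} {r : ℕ} (g : ∀ m, C(Y m, UG r))

/-- The value of the map `g` at a point of the telescope. -/
def Tel.gAt (p : Tel Y) : UG r := g ⌊Tel.t Y p⌋₊ ⟨Tel.pr Y p, p.pr_mem⟩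

theorem Tel.gAt_eq (p : Tel Y) {m : ℕ} (h1 : (m : ℝ) ≤ Tel.t Y p) (h2 : Tel.t Y p < m + 1)
    (hm : Tel.pr Y p ∈ Y m) : Tel.gAt g p = g m ⟨Tel.pr Y p, hm⟩ := by
  have hfl : ⌊Tel.t Y p⌋₊ = m := by
    rw [Nat.floor_eq_iff p.t_nonneg]
    exact ⟨h1, h2⟩
  have key : ∀ (n : ℕ) (hn : Tel.pr Y p ∈ Y n), n = m → g n ⟨Tel.pr Y p, hn⟩ =
      g m ⟨Tel.pr Y p, hm⟩ := by
    rintro n hn rfl
    rfl
  exact key _ _ hfl

/-- The matrix part of the map to the suspension. -/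
def Tel.mat (p : Tel Y) : Matrix (Fin r) (Fin r) ℂ :=
  ((|Real.sin (Real.pi * Tel.t Y p)| : ℝ) : ℂ) • (Tel.gAt g p : Matrix (Fin r) (Fin r) ℂ)

theorem Tel.continuous_mat : Continuous (Tel.mat g) := by
  have hsin : Continuous (fun p : Tel Y => |Real.sin (Real.pi * Tel.t Y p)|) :=
    (Real.continuous_sin.comp (continuous_const.mul (Tel.t Y).continuous)).abs
  rw [continuous_iff_continuousAt]
  intro p₀
  by_cases h0 : Real.sin (Real.pi * Tel.t Y p₀) = 0
  · -- squeeze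
    have hM0 : Tel.mat g p₀ = 0 := by
      rw [Tel.mat, h0, abs_zero, Complex.ofReal_zero, zero_smul]
    rw [ContinuousAt, hM0]
    refine tendsto_pi_nhds.mpr (fun a => tendsto_pi_nhds.mpr (fun b => ?_))
    have hb : ∀ p : Tel Y, ‖Tel.mat g p a b‖ ≤ |Real.sin (Real.pi * Tel.t Y p)| := by
      intro p
      rw [Tel.mat, Matrix.smul_apply, norm_smul, Complex.norm_real, Real.norm_eq_abs, abs_abs]
      exact mul_le_of_le_one_right (abs_nonneg _) (entry_norm_bound_of_unitary (Tel.gAt g p).2 a b)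
    refine squeeze_zero_norm hb ?_
    have := hsin.tendsto p₀
    rw [h0, abs_zero] at this
    exact this
  · -- locally the index is constant
    obtain ⟨m, hm⟩ : ∃ m : ℕ, ⌊Tel.t Y p₀⌋₊ = m := ⟨_, rfl⟩
    have hm' := (Nat.floor_eq_iff p₀.t_nonneg).mp hm
    have h1 : (m : ℝ) < Tel.t Y p₀ := by
      refine lt_of_le_of_ne hm'.1 (fun h' => h0 ?_)
      rw [← h', mul_comm]
      exact Real.sin_nat_mul_pi m
    let W : Set (Tel Y) := {p | (m : ℝ) < Tel.t Y p ∧ Tel.t Y p < m + 1}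
    have hW : IsOpen W := (isOpen_lt continuous_const (Tel.t Y).continuous).inter
      (isOpen_lt (Tel.t Y).continuous continuous_const)
    have hp₀ : p₀ ∈ W := ⟨h1, hm'.2⟩
    have hpr : ∀ p : W, Tel.pr Y p.1 ∈ Y m := by
      intro p
      have h2 := p.1.pr_mem
      rwa [(Nat.floor_eq_iff p.1.t_nonneg).mpr ⟨p.2.1.le, p.2.2⟩] at h2
    have hc : ContinuousOn (Tel.mat g) W := by
      rw [continuousOn_iff_continuous_domRestrict]
      have e : W.domRestrict (Tel.mat g) = fun p : W =>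
          ((|Real.sin (Real.pi * Tel.t Y p.1)| : ℝ) : ℂ) •
            (g m ⟨Tel.pr Y p.1, hpr p⟩ : Matrix (Fin r) (Fin r) ℂ) := by
        funext p
        change Tel.mat g p.1 = _
        rw [Tel.mat, Tel.gAt_eq g p.1 p.2.1.le p.2.2 (hpr p)]
      rw [e]
      have h3 : Continuous (fun p : W => (⟨Tel.pr Y p.1, hpr p⟩ : Y m)) := by fun_prop
      have h4 : Continuous (fun p : W => (g m ⟨Tel.pr Y p.1, hpr p⟩ : Matrix (Fin r) (Fin r) ℂ)) :=
        continuous_subtype_val.comp ((g m).continuous.comp h3)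
      have h5 : Continuous (fun p : W => ((|Real.sin (Real.pi * Tel.t Y p.1)| : ℝ) : ℂ)) :=
        Complex.continuous_ofReal.comp (hsin.comp continuous_subtype_val)
      exact h5.smul h4
    exact hc.continuousAt (hW.mem_nhds hp₀)

/-- The map to the suspension of `U(r)`. -/
def Tel.Phi : C(Tel Y, BB (Fin r)) :=
  BB.lift (Tel.mat g) (fun p => Real.cos (Real.pi * Tel.t Y p)) (Tel.continuous_mat g)
    (Real.continuous_cos.comp (continuous_const.mul (Tel.t Y).continuous))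
    (fun p => by
      have h := (Matrix.mem_unitaryGroup_iff').mp (Tel.gAt g p).2
      rw [Tel.mat, Matrix.conjTranspose_smul, Matrix.smul_mul, Matrix.mul_smul,
        ← Matrix.star_eq_conjTranspose, h, smul_smul, Complex.star_def, Complex.conj_ofReal,
        ← Complex.ofReal_mul]
      congr 2
      rw [abs_mul_abs_self, ← sq, Real.sin_sq])
    (fun p => Real.abs_cos_le_one _)

theorem Tel.Phi_ht (p : Tel Y) : (Tel.Phi g p).ht = Real.cos (Real.pi * Tel.t Y p) := rfl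

theorem Tel.Phi_M (p : Tel Y) : (Tel.Phi g p).M = Tel.mat g p := rfl

theorem Tel.Phi_Op : MapsTo (Tel.Phi g) (Tel.Op Y) (BBp r) := fun _ h => h

theorem Tel.Phi_Om : MapsTo (Tel.Phi g) (Tel.Om Y) (BBm r) := fun _ h => h

theorem Tel.toU_Phi_mid (m : ℕ) :
    ((BB.toU r).comp (resMap (Tel.Phi g) ((Tel.Phi_Op g).inter_inter (Tel.Phi_Om g)))).comp
      (Tel.mid Y m) = g m := by
  ext1 y
  apply Subtype.ext
  have hy : Tel.t Y (Tel.mid Y m y).1 = m + 1 / 2 := rfl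
  change (((Real.sqrt (1 - (Real.cos (Real.pi * Tel.t Y (Tel.mid Y m y).1)) ^ 2))⁻¹ : ℝ) : ℂ) •
    Tel.mat g (Tel.mid Y m y).1 = _
  have hc : Real.cos (Real.pi * ((m : ℝ) + 1 / 2)) = 0 := by
    rw [Real.cos_eq_zero_iff]
    exact ⟨m, by push_cast; ring⟩
  have hs : |Real.sin (Real.pi * ((m : ℝ) + 1 / 2))| = 1 := by
    have h5 := Real.sin_sq_add_cos_sq (Real.pi * ((m : ℝ) + 1 / 2))
    rw [hc] at h5
    have h6 : Real.sin (Real.pi * ((m : ℝ) + 1 / 2)) ^ 2 = 1 := by linarith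
    rw [← sq_abs] at h6
    have h7 := abs_nonneg (Real.sin (Real.pi * ((m : ℝ) + 1 / 2)))
    nlinarith
  rw [Tel.mat, Tel.gAt_eq g (Tel.mid Y m y).1 (m := m) (by rw [hy]; norm_num)
    (by rw [hy]; norm_num) y.2, hy, hc, hs]
  simp
  rfl

end Phi

/-- **Main statement** (a positive answer to MP_904b2a_gt): let `X` be a CW complex of dimension
at most `d` (possibly with infinitely many cells), `r` a natural number and
`c_i ∈ H^{2i}(X;ℤ)` (`1 ≤ i ≤ r`) classes whose reductions modulo every `m ≥ 1` vanish. Then there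
is a complex vector bundle `E` of rank `r` over `X`, isomorphic to a subbundle of a trivial bundle,
with `c_i(E) = c_i` for `1 ≤ i ≤ r`. -/
def MainStatementE : Prop :=
  ∀ (𝒞 : ChernTheory) (d r : ℕ) (X : Type) [TopologicalSpace X] [T2Space X]
    [Topology.CWComplex (Set.univ : Set X)],
    (∀ n, d < n → IsEmpty (Topology.RelCWComplex.cell (Set.univ : Set X) n)) →
    ∀ c : ∀ i : ℕ, H (2 * i) X ℤ,
      (∀ i, 1 ≤ i → i ≤ r → ∀ m : ℕ, 1 ≤ m → H.cm (Int.castAddHom (ZMod m)) (c i) = 0) →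
      ∃ E : CVB r X, E.Embeddable ∧ ∀ i, 1 ≤ i → i ≤ r → 𝒞.c E i = c i

/-- **The final assembly.** -/
theorem mainStatement_of (LEMA : LemmaAStatement) (EXT : ExtStatement) (CHE : CheStatement)
    (FILT : FiltrationStatement) (SECT : SectionStatement) : MainStatementE := by
  intro 𝒞 d r X _ _ _ hd c hc
  obtain ⟨x, hx⟩ := CHE 𝒞 r
  obtain ⟨D, hD, hext⟩ := EXT 𝒞 r x hx d
  -- divide the classes
  have h1 : ∀ j : Fin r, ∃ (c' : H (2 * (j : ℕ) + 1 + 1) X ℤ)
      (ht : RelCWComplex.cell (univ : Set X) (2 * (j : ℕ) + 1) → ℕ),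
      D j • c' = c (j + 1) ∧ ∀ (m : ℕ) (Y : RelCWComplex.Subcomplex (univ : Set X)),
        (∀ τ ∈ Y.I (2 * (j : ℕ) + 1), ht τ ≤ m) → H.pb (incl (Y : Set X)) c' = 0 := fun j =>
    LEMA X d hd (2 * (j : ℕ) + 1) (by omega) (c (j + 1))
      (hc (j + 1) (by omega) (by omega)) (D j) (hD j)
  choose c' ht hc' hY' using h1
  obtain ⟨Y, hY1, hY2, hY3⟩ := FILT X r (fun a => 2 * (a : ℕ) + 1) ht
  have hmono : Monotone (fun m => (Y m : Set X)) := monotone_nat_of_le_succ hY1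
  obtain ⟨E, h, hE, hh, hEh⟩ := SECT X d hd Y hY1 hY2
  have hvan : ∀ (j : Fin r) (m : ℕ), H.pb (incl (Y m : Set X)) (c' j) = 0 := fun j m =>
    hY' j m (Y m) (hY3 m j)
  let T : ℕ → Set X := fun m => (Y m : Set X)
  -- the classes on the overlap
  have h2 : ∀ j : Fin r, ∃ a : H (2 * (j : ℕ) + 1) ↥(Tel.Op T ∩ Tel.Om T) ℤ,
      MV (Tel.Op T) (Tel.Om T) (2 * (j : ℕ) + 1) (H.pb (Tel.pr T) (c' j)) a := fun j =>
    MV.exists_of_res (Tel.pr_Op_eq_zero hmono (c' j) (hvan j))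
      (Tel.pr_Om_eq_zero hmono (c' j) (hvan j))
  choose a ha using h2
  -- the maps to the unitary group
  have h3 : ∀ m : ℕ, ∃ g : C(T m, UG r), ∀ j : Fin r,
      H.pb g (x.x j) = D j • H.pb (Tel.mid T m) (a j) := by
    intro m
    have hdm : ∀ n, d < n → IsEmpty (RelCWComplex.cell (Y m : Set X) n) := by
      intro n hn
      refine ⟨fun e => ?_⟩
      exact (hd n hn).false e.1
    obtain ⟨g, hg⟩ := hext X (Y m : Set X) hdm
      (fun j => if hj : j < r then H.pb (Tel.mid T m) (a ⟨j, hj⟩) else 0)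
    refine ⟨g, fun j => ?_⟩
    rw [hg j j.2, dif_pos j.2]
  choose g hg using h3
  -- the classifying map
  let s : C(X, Tel T) := ⟨fun y => ⟨(E y, h y), hh y, hEh y⟩,
    (E.continuous.prodMk h.continuous).subtype_mk _⟩
  let p : PF r (BB (Fin r)) (Fin r ⊕ Fin r) := bott (Fin r) r (Fintype.card_fin r)
  refine ⟨(p.pb ((Tel.Phi g).comp s)).imB, (p.pb ((Tel.Phi g).comp s)).embeddable, ?_⟩
  intro i hi1 hir
  obtain ⟨j, rfl⟩ : ∃ j, i = j + 1 := ⟨i - 1, by omega⟩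
  have hj : j < r := by omega
  change cP 𝒞 (p.pb ((Tel.Phi g).comp s)) (j + 1) = c (j + 1)
  rw [cP_pb, ← H.pb_comp]
  -- naturality of the Mayer–Vietoris relation
  have hmv := (x.mv j hj).pb (Tel.Phi g) (Tel.Phi_Op g) (Tel.Phi_Om g)
  have hcl : H.pb (resMap (Tel.Phi g) ((Tel.Phi_Op g).inter_inter (Tel.Phi_Om g)))
      (H.pb (BB.toU r) (x.x j)) = D j • a ⟨j, hj⟩ := by
    apply Tel.eq_of_mid
    intro m
    rw [H.pb_comp, H.pb_comp, ← ContinuousMap.comp_assoc, Tel.toU_Phi_mid, map_zsmul]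
    exact hg m ⟨j, hj⟩
  rw [hcl] at hmv
  have hmv' := (ha ⟨j, hj⟩).zsmul (D j)
  have huniq := MV.unique (smallC Tel.isOpen_Op Tel.isOpen_Om Tel.union) hmv hmv'
  have e1 : H.pb (Tel.Phi g) (cP 𝒞 p (j + 1)) = H.pb (Tel.pr T) (c (j + 1)) := by
    refine huniq.trans ?_
    rw [← map_zsmul]
    congr 1
    exact hc' ⟨j, hj⟩
  rw [e1, H.pb_comp]
  have e2 : (Tel.pr T).comp s = E := rfl
  rw [e2, H.pb_eq_of_homotopic hE, H.pb_id]

end

end Pool.Agent.Lib.MP_904b2a_gt
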