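import Pool.Agent.Lib.MP_904b2a_gt.Main
import Pool.Agent.Lib.MP_904b2a_gt.Equiv
import Pool.Agent.Lib.MP_904b2a_gt.H83.Stage2

/-!
# MP_904b2a_gt: the final statement
-/

namespace Pool.Agent.Lib.MP_904b2a_gt

/-- The main theorem in terms of the definitions of `Stmt.lean`. -/
theorem finalStatement :
    Nonempty Stmt.ChernClasses ∧
    ∀ (𝒞 : Stmt.ChernClasses) (d r : ℕ) (X : Type) [TopologicalSpace X] [T2Space X]
      [Topology.CWComplex (Set.univ : Set X)],
      (∀ n, d < n → IsEmpty (Topology.RelCWComplex.cell (Set.univ : Set X) n)) →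
      ∀ c : ∀ i : ℕ, Stmt.Cohomology (2 * i) X ℤ,
        (∀ i, 1 ≤ i → i ≤ r → ∀ m : ℕ, 1 ≤ m → ∀ φ, Stmt.Represents φ (c i) →
          Stmt.Cohomologous (fun σ => (φ σ : ZMod m)) (fun _ => 0)) →
        ∃ E : CVB r X, E.Embeddable ∧ ∀ i, 1 ≤ i → i ≤ r → 𝒞.c E i = c i := by
  refine ⟨nonempty_chernTheory.map ChernTheory.toStmt, ?_⟩
  intro 𝒞 d r X _ _ _ hd c hc
  obtain ⟨E, hE, hEc⟩ := mainStatementE (ChernTheory.ofStmt 𝒞) d r X hd (fun i => toH (c i))
    (by
      intro i hi hir m hm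
      obtain ⟨φ, hφ⟩ := exists_represents (c i)
      have h1 := hc i hi hir m hm φ hφ
      obtain ⟨h2, h3⟩ := (represents_iff _ _).mp hφ
      rw [h3, H.cm_mk, H.mk_eq_zero]
      have h4 := (cohomologous_iff _ _).mp h1
      convert h4 using 1
      funext σ
      exact (sub_zero _).symm)
  exact ⟨E, hE, fun i hi hir => toH_injective (hEc i hi hir)⟩

end Pool.Agent.Lib.MP_904b2a_gt
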