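import Pool.Agent.Lib.MP_904b2a_gt.Rel

/-!
# MP_904b2a_gt: excision and the Mayer–Vietoris relation

Everything is deduced from the property `SmallC U V A` (a consequence of the small simplices
theorem for the open cover `X = U ∪ V`).
-/

open scoped BigOperators
open Finset Set

namespace Pool.Agent.Lib.MP_904b2a_gt

noncomputable section

variable {X Y Z : Type*} [TopologicalSpace X] [TopologicalSpace Y] [TopologicalSpace Z]
variable {A B C : Type*} [AddCommGroup A] [AddCommGroup B] [AddCommGroup C]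

/-- Small simplices. -/
def Sm (U V : Set X) {n : ℕ} (σ : C(Simp n, X)) : Prop := InS U σ ∨ InS V σ

/-- The consequence of the small simplices theorem for cochains with values in `A`. -/
structure SmallC (U V : Set X) (A : Type*) [AddCommGroup A] : Prop where
  extend : ∀ (n : ℕ) (γ : Coch n X A), (∀ σ, Sm U V σ → cob n γ σ = 0) →
    ∃ γ' : Coch n X A, cob n γ' = 0 ∧ ∀ σ, Sm U V σ → γ' σ = γ σ
  zero : ∀ γ : Coch 0 X A, (∀ σ, Sm U V σ → γ σ = 0) → γ = 0
  bound : ∀ (n : ℕ) (γ : Coch (n + 1) X A), cob (n + 1) γ = 0 → (∀ σ, Sm U V σ → γ σ = 0) →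
    ∃ ψ : Coch n X A, (∀ σ, Sm U V σ → ψ σ = 0) ∧ cob n ψ = γ

theorem SmallC.symm {U V : Set X} (h : SmallC U V A) : SmallC V U A where
  extend n γ hγ := by
    obtain ⟨γ', h1, h2⟩ := h.extend n γ (fun σ hσ => hγ σ hσ.symm)
    exact ⟨γ', h1, fun σ hσ => h2 σ hσ.symm⟩
  zero γ hγ := h.zero γ (fun σ hσ => hγ σ hσ.symm)
  bound n γ hγ h0 := by
    obtain ⟨ψ, h1, h2⟩ := h.bound n γ hγ (fun σ hσ => h0 σ hσ.symm)
    exact ⟨ψ, fun σ hσ => h1 σ hσ.symm, h2⟩

/-- **Excision**: `H^n(X, U) = H^n(V, U ∩ V)`. -/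
theorem HR.excision {U V : Set X} (h : SmallC U V A) (n : ℕ) :
    Function.Bijective (HR.pb (n := n) (A := A) (incl V) (S := (incl V) ⁻¹' U) (T := U)
      (mapsTo_preimage _ _)) := by
  constructor
  · rw [injective_iff_map_eq_zero]
    intro v hv
    obtain ⟨z, rfl⟩ := HR.mk_surjective n v
    rw [HR.pb_mk, HR.mk_eq_zero] at hv
    apply HR.mk_eq_zero.mpr
    have hz : cob n z.1 = 0 := z.2.2
    cases n with
    | zero =>
      have h0 : pbC 0 (incl V) z.1 = 0 := hv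
      apply h.zero
      rintro σ (hσ | hσ)
      · exact z.2.1 σ hσ
      · exact congrFun h0 hσ.res
    | succ n =>
      obtain ⟨ψ', hψ', h1⟩ := hv
      have hψ : extC n ψ' ∈ relCoch A U n := by
        intro σ hσ
        by_cases hV : InS V σ
        · rw [extC_of_inS _ hV]
          exact hψ' _ hσ
        · rw [extC_of_not _ hV]
      obtain ⟨ψ'', h2, h3⟩ := h.bound n (z.1 - cob n (extC n ψ'))
        (by rw [map_sub, cob_cob, hz, sub_zero]) (by
          rintro σ (hσ | hσ)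
          · change z.1 σ - cob n (extC n ψ') σ = 0
            rw [z.2.1 σ hσ, cob_mem_relCoch hψ σ hσ, sub_zero]
          · have h4 : pbC (n + 1) (incl V) (z.1 - cob n (extC n ψ')) = 0 := by
              rw [map_sub, pbC_cob, pbC_incl_extC]
              exact sub_eq_zero.mpr h1.symm
            exact congrFun h4 hσ.res)
      refine ⟨extC n ψ' + ψ'', add_mem hψ (fun σ hσ => h2 σ (Or.inl hσ)), ?_⟩
      rw [map_add, h3]
      abel
  · intro v
    obtain ⟨z, rfl⟩ := HR.mk_surjective n v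
    have hψ : extC n z.1 ∈ relCoch A U n := by
      intro σ hσ
      by_cases hV : InS V σ
      · rw [extC_of_inS _ hV]
        exact z.2.1 _ hσ
      · rw [extC_of_not _ hV]
    obtain ⟨γ, h1, h2⟩ := h.extend n (extC n z.1) (by
      rintro σ (hσ | hσ)
      · exact cob_mem_relCoch hψ σ hσ
      · have h4 : pbC (n + 1) (incl V) (cob n (extC n z.1)) = 0 := by
          rw [pbC_cob, pbC_incl_extC]
          exact z.2.2
        exact congrFun h4 hσ.res)
    refine ⟨HR.mk n ⟨γ, fun σ hσ => by rw [h2 σ (Or.inl hσ), hψ σ hσ], h1⟩, ?_⟩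
    rw [HR.pb_mk]
    congr 1
    apply Subtype.ext
    funext σ
    change γ ((incl V).comp σ) = z.1 σ
    rw [h2 _ (Or.inr (inS_incl_comp σ)), extC_of_inS _ (inS_incl_comp σ), res_incl_comp]

/-! ### The Mayer–Vietoris relation -/

/-- The inclusion `U ∩ V → U`. -/
abbrev iL (U V : Set X) : C(↥(U ∩ V), U) := inclSub inter_subset_left

/-- The inclusion `U ∩ V → V`. -/
abbrev iR (U V : Set X) : C(↥(U ∩ V), V) := inclSub inter_subset_right

/-- The Mayer–Vietoris relation between `c ∈ H^{n+1}(X)` and `a ∈ H^n(U ∩ V)`: `c` is represented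
by a cocycle `γ` with `γ|U = δη`, `γ|V = δθ` and `a` is represented by `η - θ` on `U ∩ V`. -/
def MV (U V : Set X) (n : ℕ) (c : H (n + 1) X A) (a : H n ↥(U ∩ V) A) : Prop :=
  ∃ (γ : cocycles X A (n + 1)) (α : cocycles (↥(U ∩ V)) A n) (η : Coch n U A) (θ : Coch n V A),
    H.mk (n + 1) γ = c ∧ H.mk n α = a ∧ cob n η = pbC (n + 1) (incl U) γ.1 ∧
      cob n θ = pbC (n + 1) (incl V) γ.1 ∧ pbC n (iL U V) η - pbC n (iR U V) θ = α.1

theorem MV.res_left {U V : Set X} {n : ℕ} {c : H (n + 1) X A} {a : H n ↥(U ∩ V) A}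
    (h : MV U V n c a) : H.pb (incl U) c = 0 := by
  obtain ⟨γ, α, η, θ, rfl, rfl, h1, h2, h3⟩ := h
  exact H.mk_eq_zero.mpr ⟨η, h1⟩

theorem MV.res_right {U V : Set X} {n : ℕ} {c : H (n + 1) X A} {a : H n ↥(U ∩ V) A}
    (h : MV U V n c a) : H.pb (incl V) c = 0 := by
  obtain ⟨γ, α, η, θ, rfl, rfl, h1, h2, h3⟩ := h
  exact H.mk_eq_zero.mpr ⟨θ, h2⟩

/-- Every class which vanishes on `U` and on `V` is related to some class on `U ∩ V`. -/
theorem MV.exists_of_res {U V : Set X} {n : ℕ} {c : H (n + 1) X A}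
    (hU : H.pb (incl U) c = 0) (hV : H.pb (incl V) c = 0) :
    ∃ a : H n ↥(U ∩ V) A, MV U V n c a := by
  obtain ⟨γ, rfl⟩ := H.mk_surjective (n + 1) c
  obtain ⟨η, hη⟩ := H.mk_eq_zero.mp hU
  obtain ⟨θ, hθ⟩ := H.mk_eq_zero.mp hV
  have h0 : cob n (pbC n (iL U V) η - pbC n (iR U V) θ) = 0 := by
    rw [map_sub, ← pbC_cob, ← pbC_cob, hη, hθ]
    exact sub_self _
  exact ⟨H.mk n ⟨_, h0⟩, γ, ⟨_, h0⟩, η, θ, rfl, rfl, hη, hθ, rfl⟩

theorem MV.zero {U V : Set X} {n : ℕ} : MV U V n (0 : H (n + 1) X A) 0 :=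
  ⟨0, 0, 0, 0, map_zero _, map_zero _, by rw [map_zero]; rfl, by rw [map_zero]; rfl, by simp⟩

theorem MV.add {U V : Set X} {n : ℕ} {c c' : H (n + 1) X A} {a a' : H n ↥(U ∩ V) A}
    (h : MV U V n c a) (h' : MV U V n c' a') : MV U V n (c + c') (a + a') := by
  obtain ⟨γ, α, η, θ, rfl, rfl, h1, h2, h3⟩ := h
  obtain ⟨γ', α', η', θ', rfl, rfl, h1', h2', h3'⟩ := h'
  refine ⟨γ + γ', α + α', η + η', θ + θ', map_add _ _ _, map_add _ _ _, ?_, ?_, ?_⟩
  · rw [map_add, h1, h1']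
    rfl
  · rw [map_add, h2, h2']
    rfl
  · rw [map_add, map_add, add_sub_add_comm, h3, h3']
    rfl

theorem MV.neg {U V : Set X} {n : ℕ} {c : H (n + 1) X A} {a : H n ↥(U ∩ V) A}
    (h : MV U V n c a) : MV U V n (-c) (-a) := by
  obtain ⟨γ, α, η, θ, rfl, rfl, h1, h2, h3⟩ := h
  refine ⟨-γ, -α, -η, -θ, map_neg _ _, map_neg _ _, ?_, ?_, ?_⟩
  · rw [map_neg, h1]
    rfl
  · rw [map_neg, h2]
    rfl
  · rw [map_neg, map_neg, neg_sub_neg, ← neg_sub, h3]
    rfl

theorem MV.sub {U V : Set X} {n : ℕ} {c c' : H (n + 1) X A} {a a' : H n ↥(U ∩ V) A}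
    (h : MV U V n c a) (h' : MV U V n c' a') : MV U V n (c - c') (a - a') := by
  rw [sub_eq_add_neg, sub_eq_add_neg]
  exact h.add h'.neg

theorem MV.nsmul {U V : Set X} {n : ℕ} {c : H (n + 1) X A} {a : H n ↥(U ∩ V) A}
    (h : MV U V n c a) (k : ℕ) : MV U V n (k • c) (k • a) := by
  induction k with
  | zero =>
    rw [zero_smul, zero_smul]
    exact MV.zero
  | succ k ih =>
    rw [succ_nsmul, succ_nsmul]
    exact ih.add h

theorem MV.zsmul {U V : Set X} {n : ℕ} {c : H (n + 1) X A} {a : H n ↥(U ∩ V) A}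
    (h : MV U V n c a) (k : ℤ) : MV U V n (k • c) (k • a) := by
  rcases Int.eq_nat_or_neg k with ⟨m, rfl | rfl⟩
  · rw [natCast_zsmul, natCast_zsmul]
    exact h.nsmul m
  · rw [neg_zsmul, neg_zsmul, natCast_zsmul, natCast_zsmul]
    exact (h.nsmul m).neg

/-- The ambiguity of `a`. -/
theorem MV.ambiguity {U V : Set X} {n : ℕ} {c : H (n + 1) X A} {a a' : H n ↥(U ∩ V) A}
    (h : MV U V n c a) (h' : MV U V n c a') :
    ∃ (p : H n U A) (q : H n V A), a - a' = H.pb (iL U V) p - H.pb (iR U V) q := by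
  have h0 := h.sub h'
  rw [sub_self] at h0
  obtain ⟨γ, α, η, θ, hγ, hα, h1, h2, h3⟩ := h0
  rw [← hα]
  obtain ⟨ζ, hζ⟩ := H.mk_eq_zero.mp hγ
  have e1 : cob n (η - pbC n (incl U) ζ) = 0 := by
    rw [map_sub, h1, ← pbC_cob, hζ, sub_self]
  have e2 : cob n (θ - pbC n (incl V) ζ) = 0 := by
    rw [map_sub, h2, ← pbC_cob, hζ, sub_self]
  refine ⟨H.mk n ⟨_, e1⟩, H.mk n ⟨_, e2⟩, ?_⟩
  rw [H.pb_mk, H.pb_mk, ← map_sub]
  congr 1
  apply Subtype.ext
  change α.1 = pbC n (iL U V) (η - pbC n (incl U) ζ) - pbC n (iR U V) (θ - pbC n (incl V) ζ)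
  rw [map_sub, map_sub, ← h3]
  have e3 : pbC n (iL U V) (pbC n (incl U) ζ) = pbC n (iR U V) (pbC n (incl V) ζ) := rfl
  rw [e3]
  abel

/-- Changing `a` by a difference of restrictions. -/
theorem MV.of_sub {U V : Set X} {n : ℕ} {c : H (n + 1) X A} {a : H n ↥(U ∩ V) A}
    (h : MV U V n c a) (p : H n U A) (q : H n V A) :
    MV U V n c (a + (H.pb (iL U V) p - H.pb (iR U V) q)) := by
  obtain ⟨γ, α, η, θ, hγ, rfl, h1, h2, h3⟩ := h
  obtain ⟨p, rfl⟩ := H.mk_surjective n p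
  obtain ⟨q, rfl⟩ := H.mk_surjective n q
  refine ⟨γ, α + (⟨pbC n (iL U V) p.1, pbC_mem_cocycles _ p.2⟩ -
    ⟨pbC n (iR U V) q.1, pbC_mem_cocycles _ q.2⟩), η + p.1, θ + q.1, hγ, ?_, ?_, ?_, ?_⟩
  · rw [map_add, map_sub]
    rfl
  · rw [map_add, h1, show cob n p.1 = 0 from p.2, add_zero]
  · rw [map_add, h2, show cob n q.1 = 0 from q.2, add_zero]
  · rw [map_add, map_add, add_sub_add_comm, h3]
    rfl

/-- Existence of `c` (connecting homomorphism). -/
theorem MV.exists_of_inter {U V : Set X} (hS : SmallC U V A) {n : ℕ} (a : H n ↥(U ∩ V) A) :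
    ∃ c : H (n + 1) X A, MV U V n c a := by
  obtain ⟨α, rfl⟩ := H.mk_surjective n a
  classical
  -- extend `α` by zero to `U`
  let η : Coch n U A := fun σ => if h : InS V ((incl U).comp σ) then
    α.1 ⟨fun t => ⟨(σ t).1, (σ t).2, h t⟩, by fun_prop⟩ else 0
  have hη : ∀ σ : C(Simp n, ↥(U ∩ V)), η ((iL U V).comp σ) = α.1 σ := by
    intro σ
    have h : InS V ((incl U).comp ((iL U V).comp σ)) := fun t => (σ t).2.2
    change (if h : InS V ((incl U).comp ((iL U V).comp σ)) then _ else _) = _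
    rw [dif_pos h]
    rfl
  have hη' : pbC n (iL U V) η = α.1 := funext hη
  have hc : ∀ σ : C(Simp (n + 1), U), InS V ((incl U).comp σ) → cob n η σ = 0 := by
    intro σ hσ
    have h4 : pbC (n + 1) (iL U V) (cob n η) = 0 := by
      rw [pbC_cob, hη']
      exact α.2
    exact congrFun h4 (⟨fun t => ⟨(σ t).1, (σ t).2, hσ t⟩, by fun_prop⟩ :
      C(Simp (n + 1), ↥(U ∩ V)))
  have e1 : ∀ σ, Sm U V σ → cob (n + 1) (extC (n + 1) (cob n η)) σ = 0 := by
    rintro σ (hσ | hσ)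
    · have h4 : pbC (n + 2) (incl U) (cob (n + 1) (extC (n + 1) (cob n η))) = 0 := by
        rw [pbC_cob, pbC_incl_extC, cob_cob]
      exact congrFun h4 hσ.res
    · rw [cob_apply]
      refine sum_eq_zero (fun i _ => ?_)
      have h5 : InS V (σ.comp (smap (fv (n + 1) i))) := hσ.comp _
      by_cases hU : InS U (σ.comp (smap (fv (n + 1) i)))
      · rw [extC_of_inS _ hU, hc hU.res h5, smul_zero]
      · rw [extC_of_not _ hU, smul_zero]
  obtain ⟨γ, h1, h2⟩ := hS.extend (n + 1) (extC (n + 1) (cob n η)) e1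
  refine ⟨H.mk (n + 1) ⟨γ, h1⟩, ⟨γ, h1⟩, α, η, 0, rfl, rfl, ?_, ?_, ?_⟩
  · funext σ
    change cob n η σ = γ ((incl U).comp σ)
    rw [h2 _ (Or.inl (inS_incl_comp σ)), extC_of_inS _ (inS_incl_comp σ), res_incl_comp]
  · rw [map_zero]
    funext σ
    change 0 = γ ((incl V).comp σ)
    rw [h2 _ (Or.inr (inS_incl_comp σ))]
    by_cases hU : InS U ((incl V).comp σ)
    · rw [extC_of_inS _ hU, hc hU.res (inS_incl_comp σ)]
    · rw [extC_of_not _ hU]
  · rw [map_zero, sub_zero, hη']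

/-- Uniqueness of `c`. -/
theorem MV.eq_zero {U V : Set X} (hS : SmallC U V A) {n : ℕ} {c : H (n + 1) X A}
    (h : MV U V n c 0) : c = 0 := by
  obtain ⟨γ, α, η, θ, rfl, hα, h1, h2, h3⟩ := h
  -- correct the primitives so that they agree on the intersection
  have key : ∃ (η' : Coch n U A) (θ' : Coch n V A), cob n η' = pbC (n + 1) (incl U) γ.1 ∧
      cob n θ' = pbC (n + 1) (incl V) γ.1 ∧ pbC n (iL U V) η' = pbC n (iR U V) θ' := by
    have hα' := H.mk_eq_zero.mp hα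
    cases n with
    | zero =>
      have h0 : α.1 = 0 := hα'
      exact ⟨η, θ, h1, h2, by rw [← sub_eq_zero, h3, h0]⟩
    | succ n =>
      obtain ⟨ζ, hζ⟩ := hα'
      classical
      -- extend `ζ` to `U`
      let ζ' : Coch n U A := fun σ => if h : InS V ((incl U).comp σ) then
        ζ ⟨fun t => ⟨(σ t).1, (σ t).2, h t⟩, by fun_prop⟩ else 0
      have hζ' : pbC n (iL U V) ζ' = ζ := by
        funext σ
        have h : InS V ((incl U).comp ((iL U V).comp σ)) := fun t => (σ t).2.2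
        change (if h : InS V ((incl U).comp ((iL U V).comp σ)) then _ else _) = _
        rw [dif_pos h]
        rfl
      refine ⟨η - cob n ζ', θ, ?_, h2, ?_⟩
      · rw [map_sub, cob_cob, sub_zero, h1]
      · rw [map_sub, pbC_cob, hζ', hζ, ← h3]
        abel
  obtain ⟨η', θ', e1, e2, e3⟩ := key
  classical
  let ψ : Coch n X A := fun σ => if h : InS U σ then η' h.res else
    if h : InS V σ then θ' h.res else 0
  have hψU : pbC n (incl U) ψ = η' := by
    funext σ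
    change (if h : InS U ((incl U).comp σ) then η' h.res else _) = _
    rw [dif_pos (inS_incl_comp σ)]
    rfl
  have hψV : pbC n (incl V) ψ = θ' := by
    funext σ
    change (if h : InS U ((incl V).comp σ) then η' h.res else
      if h : InS V ((incl V).comp σ) then θ' h.res else 0) = _
    by_cases hU : InS U ((incl V).comp σ)
    · rw [dif_pos hU]
      exact congrFun e3 (⟨fun t => ⟨(σ t).1, hU t, (σ t).2⟩, by fun_prop⟩ :
        C(Simp n, ↥(U ∩ V)))
    · rw [dif_neg hU, dif_pos (inS_incl_comp σ)]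
      rfl
  obtain ⟨ψ', _, h5⟩ := hS.bound n (γ.1 - cob n ψ)
    (by rw [map_sub, cob_cob, show cob (n + 1) γ.1 = 0 from γ.2, sub_zero]) (by
      rintro σ (hσ | hσ)
      · have h4 : pbC (n + 1) (incl U) (γ.1 - cob n ψ) = 0 := by
          rw [map_sub, pbC_cob, hψU, e1, sub_self]
        exact congrFun h4 hσ.res
      · have h4 : pbC (n + 1) (incl V) (γ.1 - cob n ψ) = 0 := by
          rw [map_sub, pbC_cob, hψV, e2, sub_self]
        exact congrFun h4 hσ.res)
  refine H.mk_eq_zero.mpr ⟨ψ + ψ', ?_⟩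
  rw [map_add, h5]
  abel

theorem MV.unique {U V : Set X} (hS : SmallC U V A) {n : ℕ} {c c' : H (n + 1) X A}
    {a : H n ↥(U ∩ V) A} (h : MV U V n c a) (h' : MV U V n c' a) : c = c' := by
  have h0 := h.sub h'
  rw [sub_self] at h0
  exact sub_eq_zero.mp (MV.eq_zero hS h0)

/-- If `a` comes from `U` and `V` then `c = 0`. -/
theorem MV.eq_zero_of_sub {U V : Set X} (hS : SmallC U V A) {n : ℕ} {c : H (n + 1) X A}
    {a : H n ↥(U ∩ V) A} (h : MV U V n c a) (p : H n U A) (q : H n V A)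
    (ha : a = H.pb (iL U V) p - H.pb (iR U V) q) : c = 0 := by
  have h0 := h.of_sub (-p) (-q)
  rw [ha, map_neg, map_neg] at h0
  apply MV.eq_zero hS
  convert h0 using 1
  abel

/-- Glueing of classes which agree on the intersection. -/
theorem MV.glue {U V : Set X} (hS : SmallC U V A) {n : ℕ} (p : H n U A) (q : H n V A)
    (hpq : H.pb (iL U V) p = H.pb (iR U V) q) :
    ∃ u : H n X A, H.pb (incl U) u = p ∧ H.pb (incl V) u = q := by
  obtain ⟨p, rfl⟩ := H.mk_surjective n p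
  obtain ⟨q, rfl⟩ := H.mk_surjective n q
  rw [H.pb_mk, H.pb_mk, H.mk_eq_mk] at hpq
  -- correct the representatives so that they agree on the intersection
  have key : ∃ (p' : cocycles (↥U) A n) (q' : cocycles (↥V) A n), H.mk n p' = H.mk n p ∧
      H.mk n q' = H.mk n q ∧ pbC n (iL U V) p'.1 = pbC n (iR U V) q'.1 := by
    cases n with
    | zero =>
      exact ⟨p, q, rfl, rfl, sub_eq_zero.mp hpq⟩
    | succ n =>
      obtain ⟨ζ, hζ⟩ := hpq
      classical
      let ζ' : Coch n U A := fun σ => if h : InS V ((incl U).comp σ) then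
        ζ ⟨fun t => ⟨(σ t).1, (σ t).2, h t⟩, by fun_prop⟩ else 0
      have hζ' : pbC n (iL U V) ζ' = ζ := by
        funext σ
        have h : InS V ((incl U).comp ((iL U V).comp σ)) := fun t => (σ t).2.2
        change (if h : InS V ((incl U).comp ((iL U V).comp σ)) then _ else _) = _
        rw [dif_pos h]
        rfl
      refine ⟨p - ⟨cob n ζ', cob_cob n ζ'⟩, q, ?_, rfl, ?_⟩
      · rw [map_sub, sub_eq_self, H.mk_eq_zero]
        exact ⟨ζ', rfl⟩
      · change pbC (n + 1) (iL U V) (p.1 - cob n ζ') = _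
        rw [map_sub, pbC_cob, hζ', hζ]
        change pbC (n + 1) (iL U V) p.1 - (pbC (n + 1) (iL U V) p.1 - pbC (n + 1) (iR U V) q.1) = _
        abel
  obtain ⟨p', q', hp, hq, e⟩ := key
  classical
  let ψ : Coch n X A := fun σ => if h : InS U σ then p'.1 h.res else
    if h : InS V σ then q'.1 h.res else 0
  have hψU : pbC n (incl U) ψ = p'.1 := by
    funext σ
    change (if h : InS U ((incl U).comp σ) then p'.1 h.res else _) = _
    rw [dif_pos (inS_incl_comp σ)]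
    rfl
  have hψV : pbC n (incl V) ψ = q'.1 := by
    funext σ
    change (if h : InS U ((incl V).comp σ) then p'.1 h.res else
      if h : InS V ((incl V).comp σ) then q'.1 h.res else 0) = _
    by_cases hU : InS U ((incl V).comp σ)
    · rw [dif_pos hU]
      exact congrFun e (⟨fun t => ⟨(σ t).1, hU t, (σ t).2⟩, by fun_prop⟩ :
        C(Simp n, ↥(U ∩ V)))
    · rw [dif_neg hU, dif_pos (inS_incl_comp σ)]
      rfl
  obtain ⟨γ, h1, h2⟩ := hS.extend n ψ (by
    rintro σ (hσ | hσ)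
    · have h4 : pbC (n + 1) (incl U) (cob n ψ) = 0 := by
        rw [pbC_cob, hψU]
        exact p'.2
      exact congrFun h4 hσ.res
    · have h4 : pbC (n + 1) (incl V) (cob n ψ) = 0 := by
        rw [pbC_cob, hψV]
        exact q'.2
      exact congrFun h4 hσ.res)
  refine ⟨H.mk n ⟨γ, h1⟩, ?_, ?_⟩
  · rw [← hp, H.pb_mk]
    congr 1
    apply Subtype.ext
    funext σ
    change γ ((incl U).comp σ) = _
    rw [h2 _ (Or.inl (inS_incl_comp σ))]
    exact congrFun hψU σ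
  · rw [← hq, H.pb_mk]
    congr 1
    apply Subtype.ext
    funext σ
    change γ ((incl V).comp σ) = _
    rw [h2 _ (Or.inr (inS_incl_comp σ))]
    exact congrFun hψV σ

/-- Classes of degree zero are determined by their restrictions. -/
theorem H.eq_of_res_zero {U V : Set X} (hS : SmallC U V A) {u : H 0 X A}
    (hU : H.pb (incl U) u = 0) (hV : H.pb (incl V) u = 0) : u = 0 := by
  obtain ⟨z, rfl⟩ := H.mk_surjective 0 u
  apply H.mk_eq_zero.mpr
  apply hS.zero
  rintro σ (hσ | hσ)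
  · exact congrFun (H.mk_eq_zero.mp hU) hσ.res
  · exact congrFun (H.mk_eq_zero.mp hV) hσ.res

/-- Naturality. -/
theorem MV.pb {U V : Set X} {U' V' : Set Y} (f : C(X, Y)) (hU : MapsTo f U U')
    (hV : MapsTo f V V') {n : ℕ} {c : H (n + 1) Y A} {a : H n ↥(U' ∩ V') A}
    (h : MV U' V' n c a) :
    MV U V n (H.pb f c) (H.pb (resMap f (hU.inter_inter hV)) a) := by
  obtain ⟨γ, α, η, θ, rfl, rfl, h1, h2, h3⟩ := h
  refine ⟨⟨pbC (n + 1) f γ.1, pbC_mem_cocycles f γ.2⟩,
    ⟨pbC n (resMap f (hU.inter_inter hV)) α.1, pbC_mem_cocycles _ α.2⟩,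
    pbC n (resMap f hU) η, pbC n (resMap f hV) θ, rfl, rfl, ?_, ?_, ?_⟩
  · rw [← pbC_cob, h1]
    rfl
  · rw [← pbC_cob, h2]
    rfl
  · change _ = pbC n (resMap f (hU.inter_inter hV)) α.1
    rw [← h3]
    rfl

/-- Change of coefficients. -/
theorem MV.cm {U V : Set X} (g : A →+ B) {n : ℕ} {c : H (n + 1) X A} {a : H n ↥(U ∩ V) A}
    (h : MV U V n c a) : MV U V n (H.cm g c) (H.cm g a) := by
  obtain ⟨γ, α, η, θ, rfl, rfl, h1, h2, h3⟩ := h
  refine ⟨⟨cmC (n + 1) g γ.1, cmC_mem_cocycles g γ.2⟩, ⟨cmC n g α.1, cmC_mem_cocycles _ α.2⟩,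
    cmC n g η, cmC n g θ, rfl, rfl, ?_, ?_, ?_⟩
  · rw [← cmC_cob, h1]
    rfl
  · rw [← cmC_cob, h2]
    rfl
  · change _ = cmC n g α.1
    rw [← h3]
    funext σ
    change g (η _) - g (θ _) = g (η _ - θ _)
    rw [map_sub]

/-- Compatibility with the cup product with a class on the whole space (on the right). -/
theorem MV.cup {U V : Set X} {n k : ℕ} {c : H (n + 1) X ℤ} {a : H n ↥(U ∩ V) ℤ}
    (h : MV U V n c a) (b : H k X ℤ) :
    MV U V (n + k) (H.cup (by omega) c b) (H.cup rfl a (H.pb (incl (U ∩ V)) b)) := by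
  obtain ⟨γ, α, η, θ, rfl, rfl, h1, h2, h3⟩ := h
  obtain ⟨β, rfl⟩ := H.mk_surjective k b
  have hcup : ∀ (S : Set X) (ζ : Coch n S ℤ), cob n ζ = pbC (n + 1) (incl S) γ.1 →
      cob (n + k) (cupC n k (n + k) ζ (pbC k (incl S) β.1)) =
        pbC (n + k + 1) (incl S) (cupC (n + 1) k (n + k + 1) γ.1 β.1) := by
    intro S ζ hζ
    rw [cob_cupC rfl, hζ, ← pbC_cob, show cob k β.1 = 0 from β.2, map_zero, cupC_zero_right,
      smul_zero, add_zero]
    rfl
  refine ⟨⟨cupC (n + 1) k (n + k + 1) γ.1 β.1, cupC_mem_cocycles (by omega) γ.2 β.2⟩,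
    ⟨cupC n k (n + k) α.1 (pbC k (incl (U ∩ V)) β.1),
      cupC_mem_cocycles rfl α.2 (pbC_mem_cocycles _ β.2)⟩,
    cupC n k (n + k) η (pbC k (incl U) β.1), cupC n k (n + k) θ (pbC k (incl V) β.1),
    rfl, rfl, hcup U η h1, hcup V θ h2, ?_⟩
  change _ = cupC n k (n + k) α.1 (pbC k (incl (U ∩ V)) β.1)
  rw [← h3]
  funext σ
  change η _ * _ - θ _ * _ = (η _ - θ _) * _
  rw [sub_mul]
  rfl

end

end Pool.Agent.Lib.MP_904b2a_gt
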