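import Pool.Agent.Lib.MP_904b2a_gt.Fin2
import Pool.Agent.Lib.MP_904b2a_gt.SCell
import Pool.Agent.Lib.MP_904b2a_gt.H1.Attach
import Pool.Agent.Lib.MP_904b2a_gt.H1.LAcell
import Pool.Agent.Lib.MP_904b2a_gt.H1.Glue
import Pool.Agent.Lib.MP_904b2a_gt.H44.Cell
import Pool.Agent.Lib.MP_904b2a_gt.H44.Kun
import Pool.Agent.Lib.MP_904b2a_gt.H74.CheAsm
import Pool.Agent.Lib.MP_904b2a_gt.H78.UPath
import Pool.Agent.Lib.MP_904b2a_gt.H86.SerreFinal

/-!
# MP_904b2a_gt: the main theorem
-/

namespace Pool.Agent.Lib.MP_904b2a_gt

theorem sphereCohStatement : SphereCohStatement := sphereCoh_of H44.sphereCellStatement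

theorem ballStatement : BallStatement := ball_of (ballCells_of H44.sphereCellStatement)

theorem r1Statement : R1Statement := r1_of catStatement ballStatement

/-- **The main theorem**: infinitely divisible classes on a finite-dimensional CW complex are the
Chern classes of a vector bundle. -/
theorem mainStatementE : MainStatementE :=
  mainStatement_of (LA.lemmaAStatement_of ballStatement r1Statement)
    (extStatement catStatement ballStatement r1Statement sphereCohStatement
      H44.sphCellStatement serreLite_main glueStatement uPathStatement)
    (cheStatement H44.kunnethStatement sphereCohStatement)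
    filtrationStatement sectionStatement

end Pool.Agent.Lib.MP_904b2a_gt
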