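import Pool.Agent.Lib.MP_904b2a_gt.Defs

/-!
# MP_904b2a_gt: pointed simplicial sets (structure maps indexed by natural numbers),
reduced chains, multisets of simplices, and algebraic spheres
-/

open scoped BigOperators

namespace Pool.Agent.Lib.MP_904b2a_gt

noncomputable section

/-- A pointed simplicial set. The faces `d n i : K (n+1) → K n` are meaningful for `i ≤ n + 1`, the
degeneracies `s n i : K n → K (n+1)` for `i ≤ n`. -/
structure PSS where
  K : ℕ → Type
  pt : ∀ n, K n
  d : ∀ n, ℕ → K (n + 1) → K n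
  s : ∀ n, ℕ → K n → K (n + 1)
  d_pt : ∀ n i, i ≤ n + 1 → d n i (pt (n + 1)) = pt n
  s_pt : ∀ n i, i ≤ n → s n i (pt n) = pt (n + 1)
  d_d : ∀ n i j (x : K (n + 2)), i ≤ j → j ≤ n + 1 →
    d n i (d (n + 1) (j + 1) x) = d n j (d (n + 1) i x)
  s_s : ∀ n i j (x : K n), i ≤ j → j ≤ n →
    s (n + 1) i (s n j x) = s (n + 1) (j + 1) (s n i x)
  d_s_lt : ∀ n i j (x : K (n + 1)), i ≤ j → j ≤ n →
    d (n + 1) i (s (n + 1) (j + 1) x) = s n j (d n i x)
  d_s_eq : ∀ n j (x : K n), j ≤ n → d n j (s n j x) = x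
  d_s_succ : ∀ n j (x : K n), j ≤ n → d n (j + 1) (s n j x) = x
  d_s_gt : ∀ n i j (x : K (n + 1)), j < i → i ≤ n + 1 →
    d (n + 1) (i + 1) (s (n + 1) j x) = s n j (d n i x)

namespace PSS

/-- The simplices different from the base point. -/
abbrev B (K : PSS) (n : ℕ) : Type := {x : K.K n // x ≠ K.pt n}

open Classical in
/-- The reduced chain with one simplex (zero for the base point). -/
def ch (K : PSS) (n : ℕ) (x : K.K n) : K.B n →₀ ℤ :=
  if h : x = K.pt n then 0 else Finsupp.single ⟨x, h⟩ 1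

/-- The `i`-th face on reduced chains. -/
def dZ (K : PSS) (n i : ℕ) : (K.B (n + 1) →₀ ℤ) →ₗ[ℤ] (K.B n →₀ ℤ) :=
  Finsupp.linearCombination ℤ (fun b => K.ch n (K.d n i b.1))

/-- The boundary of reduced chains. -/
def bd (K : PSS) (n : ℕ) : (K.B (n + 1) →₀ ℤ) →ₗ[ℤ] (K.B n →₀ ℤ) :=
  ∑ i ∈ Finset.range (n + 2), (-1 : ℤ) ^ i • K.dZ n i

/-- `K` is acyclic: its reduced homology vanishes. -/
def Acyclic (K : PSS) : Prop :=
  (∀ x : K.B 0 →₀ ℤ, ∃ y, K.bd 0 y = x) ∧
    ∀ n, ∀ x : K.B (n + 1) →₀ ℤ, K.bd n x = 0 → ∃ y, K.bd (n + 1) y = x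

/-- A pointed simplicial subset. -/
structure Sub (K : PSS) where
  P : ∀ n, K.K n → Prop
  pt_mem : ∀ n, P n (K.pt n)
  d_mem : ∀ n i x, i ≤ n + 1 → P (n + 1) x → P n (K.d n i x)
  s_mem : ∀ n i x, i ≤ n → P n x → P (n + 1) (K.s n i x)

open Classical in
/-- A simplicial subset as a pointed simplicial set (faces and degeneracies with meaningless index
are sent to the base point). -/
def Sub.toPSS {K : PSS} (L : K.Sub) : PSS where
  K n := {x : K.K n // L.P n x}
  pt n := ⟨K.pt n, L.pt_mem n⟩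
  d n i x := if h : i ≤ n + 1 then ⟨K.d n i x.1, L.d_mem n i x.1 h x.2⟩ else ⟨K.pt n, L.pt_mem n⟩
  s n i x := if h : i ≤ n then ⟨K.s n i x.1, L.s_mem n i x.1 h x.2⟩
    else ⟨K.pt (n + 1), L.pt_mem (n + 1)⟩
  d_pt n i h := by simp [h, K.d_pt n i h]
  s_pt n i h := by simp [h, K.s_pt n i h]
  d_d n i j x hij hj := by
    simp only [show i ≤ n + 1 by omega, show j + 1 ≤ n + 1 + 1 by omega, hj,
      show i ≤ n + 1 + 1 by omega, dite_true]
    exact Subtype.ext (K.d_d n i j x.1 hij hj)
  s_s n i j x hij hj := by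
    simp only [show i ≤ n + 1 by omega, show j + 1 ≤ n + 1 by omega, hj,
      show i ≤ n by omega, dite_true]
    exact Subtype.ext (K.s_s n i j x.1 hij hj)
  d_s_lt n i j x hij hj := by
    simp only [show i ≤ n + 1 + 1 by omega, show j + 1 ≤ n + 1 by omega, hj,
      show i ≤ n + 1 by omega, dite_true]
    exact Subtype.ext (K.d_s_lt n i j x.1 hij hj)
  d_s_eq n j x hj := by
    simp only [show j ≤ n + 1 by omega, hj, dite_true]
    exact Subtype.ext (K.d_s_eq n j x.1 hj)
  d_s_succ n j x hj := by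
    simp only [show j + 1 ≤ n + 1 by omega, hj, dite_true]
    exact Subtype.ext (K.d_s_succ n j x.1 hj)
  d_s_gt n i j x hij hi := by
    simp only [show i + 1 ≤ n + 1 + 1 by omega, show j ≤ n + 1 by omega, hi,
      show j ≤ n by omega, dite_true]
    exact Subtype.ext (K.d_s_gt n i j x.1 hij hi)

open Classical in
/-- The map to the quotient `K/L`, simplices of `L` being sent to the base point `none`. -/
def Sub.q {K : PSS} (L : K.Sub) (n : ℕ) (x : K.K n) : Option {x : K.K n // ¬ L.P n x} :=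
  if h : L.P n x then none else some ⟨x, h⟩

theorem Sub.q_of_mem {K : PSS} (L : K.Sub) {n : ℕ} {x : K.K n} (h : L.P n x) :
    L.q n x = none := by
  simp [Sub.q, h]

theorem Sub.q_of_not_mem {K : PSS} (L : K.Sub) {n : ℕ} (x : {x : K.K n // ¬ L.P n x}) :
    L.q n x.1 = some x := by
  simp [Sub.q, x.2]

open Classical in
/-- The quotient `K/L` of a pointed simplicial set by a pointed simplicial subset. -/
def quot (K : PSS) (L : K.Sub) : PSS where
  K n := Option {x : K.K n // ¬ L.P n x}
  pt n := none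
  d n i x := x.elim none (fun y => if i ≤ n + 1 then L.q n (K.d n i y.1) else none)
  s n i x := x.elim none (fun y => if i ≤ n then L.q (n + 1) (K.s n i y.1) else none)
  d_pt n i h := rfl
  s_pt n i h := rfl
  d_d n i j x hij hj := by
    rcases x with _ | x
    · rfl
    · have h1 : ∀ (i : ℕ), i ≤ n + 1 → ∀ (y : K.K (n + 1)),
          (L.q (n + 1) y).elim none (fun y => if i ≤ n + 1 then L.q n (K.d n i y.1) else none)
            = L.q n (K.d n i y) := by
        intro i hi y
        by_cases hy : L.P (n + 1) y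
        · rw [L.q_of_mem hy, L.q_of_mem (L.d_mem n i y hi hy)]
          rfl
        · rw [L.q_of_not_mem ⟨y, hy⟩]
          simp [hi]
      simp only [Option.elim_some, show j + 1 ≤ n + 1 + 1 by omega, show i ≤ n + 1 + 1 by omega,
        if_true]
      rw [h1 i (by omega), h1 j hj, K.d_d n i j x.1 hij hj]
  s_s n i j x hij hj := by
    rcases x with _ | x
    · rfl
    · have h1 : ∀ (i : ℕ), i ≤ n + 1 → ∀ (y : K.K (n + 1)),
          (L.q (n + 1) y).elim none
            (fun y => if i ≤ n + 1 then L.q (n + 2) (K.s (n + 1) i y.1) else none)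
            = L.q (n + 2) (K.s (n + 1) i y) := by
        intro i hi y
        by_cases hy : L.P (n + 1) y
        · rw [L.q_of_mem hy, L.q_of_mem (L.s_mem (n + 1) i y hi hy)]
          rfl
        · rw [L.q_of_not_mem ⟨y, hy⟩]
          simp [hi]
      simp only [Option.elim_some, hj, show i ≤ n by omega, if_true]
      rw [h1 i (by omega), h1 (j + 1) (by omega), K.s_s n i j x.1 hij hj]
  d_s_lt n i j x hij hj := by
    rcases x with _ | x
    · rfl
    · have h1 : ∀ (i : ℕ), i ≤ n + 2 → ∀ (y : K.K (n + 2)),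
          (L.q (n + 2) y).elim none
            (fun y => if i ≤ n + 2 then L.q (n + 1) (K.d (n + 1) i y.1) else none)
            = L.q (n + 1) (K.d (n + 1) i y) := by
        intro i hi y
        by_cases hy : L.P (n + 2) y
        · rw [L.q_of_mem hy, L.q_of_mem (L.d_mem (n + 1) i y hi hy)]
          rfl
        · rw [L.q_of_not_mem ⟨y, hy⟩]
          simp [hi]
      have h2 : ∀ (i : ℕ), i ≤ n → ∀ (y : K.K n),
          (L.q n y).elim none (fun y => if i ≤ n then L.q (n + 1) (K.s n i y.1) else none)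
            = L.q (n + 1) (K.s n i y) := by
        intro i hi y
        by_cases hy : L.P n y
        · rw [L.q_of_mem hy, L.q_of_mem (L.s_mem n i y hi hy)]
          rfl
        · rw [L.q_of_not_mem ⟨y, hy⟩]
          simp [hi]
      simp only [Option.elim_some, show j + 1 ≤ n + 1 by omega, show i ≤ n + 1 by omega, if_true]
      rw [h1 i (by omega), h2 j hj, K.d_s_lt n i j x.1 hij hj]
  d_s_eq n j x hj := by
    rcases x with _ | x
    · rfl
    · have h1 : ∀ (i : ℕ), i ≤ n + 1 → ∀ (y : K.K (n + 1)),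
          (L.q (n + 1) y).elim none (fun y => if i ≤ n + 1 then L.q n (K.d n i y.1) else none)
            = L.q n (K.d n i y) := by
        intro i hi y
        by_cases hy : L.P (n + 1) y
        · rw [L.q_of_mem hy, L.q_of_mem (L.d_mem n i y hi hy)]
          rfl
        · rw [L.q_of_not_mem ⟨y, hy⟩]
          simp [hi]
      simp only [Option.elim_some, hj, if_true]
      rw [h1 j (by omega), K.d_s_eq n j x.1 hj, L.q_of_not_mem x]
  d_s_succ n j x hj := by
    rcases x with _ | x
    · rfl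
    · have h1 : ∀ (i : ℕ), i ≤ n + 1 → ∀ (y : K.K (n + 1)),
          (L.q (n + 1) y).elim none (fun y => if i ≤ n + 1 then L.q n (K.d n i y.1) else none)
            = L.q n (K.d n i y) := by
        intro i hi y
        by_cases hy : L.P (n + 1) y
        · rw [L.q_of_mem hy, L.q_of_mem (L.d_mem n i y hi hy)]
          rfl
        · rw [L.q_of_not_mem ⟨y, hy⟩]
          simp [hi]
      simp only [Option.elim_some, hj, if_true]
      rw [h1 (j + 1) (by omega), K.d_s_succ n j x.1 hj, L.q_of_not_mem x]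
  d_s_gt n i j x hij hi := by
    rcases x with _ | x
    · rfl
    · have h1 : ∀ (i : ℕ), i ≤ n + 2 → ∀ (y : K.K (n + 2)),
          (L.q (n + 2) y).elim none
            (fun y => if i ≤ n + 2 then L.q (n + 1) (K.d (n + 1) i y.1) else none)
            = L.q (n + 1) (K.d (n + 1) i y) := by
        intro i hi y
        by_cases hy : L.P (n + 2) y
        · rw [L.q_of_mem hy, L.q_of_mem (L.d_mem (n + 1) i y hi hy)]
          rfl
        · rw [L.q_of_not_mem ⟨y, hy⟩]
          simp [hi]
      have h2 : ∀ (i : ℕ), i ≤ n → ∀ (y : K.K n),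
          (L.q n y).elim none (fun y => if i ≤ n then L.q (n + 1) (K.s n i y.1) else none)
            = L.q (n + 1) (K.s n i y) := by
        intro i hi y
        by_cases hy : L.P n y
        · rw [L.q_of_mem hy, L.q_of_mem (L.s_mem n i y hi hy)]
          rfl
        · rw [L.q_of_not_mem ⟨y, hy⟩]
          simp [hi]
      simp only [Option.elim_some, show j ≤ n + 1 by omega, hi, if_true]
      rw [h1 (i + 1) (by omega), h2 j (by omega), K.d_s_gt n i j x.1 hij hi]

/-- Isomorphisms of pointed simplicial sets. -/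
structure Iso (K K' : PSS) where
  e : ∀ n, K.K n ≃ K'.K n
  map_pt : ∀ n, e n (K.pt n) = K'.pt n
  map_d : ∀ n i x, i ≤ n + 1 → e n (K.d n i x) = K'.d n i (e (n + 1) x)
  map_s : ∀ n i x, i ≤ n → e (n + 1) (K.s n i x) = K'.s n i (e n x)

/-- `K` is the simplicial zero-sphere: exactly one simplex different from the base point in every
dimension, and its faces are different from the base point. -/
def IsS0 (K : PSS) : Prop :=
  (∀ n, ∃! x : K.K n, x ≠ K.pt n) ∧ ∀ n i (x : K.K (n + 1)), i ≤ n + 1 → x ≠ K.pt (n + 1) →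
    K.d n i x ≠ K.pt n

/-- Algebraic `N`-spheres (`N ≥ 1`): everything that can be obtained from the zero-sphere by
passing from `L` to `E/L` with `E` acyclic and by the listed homology equivalences. -/
inductive AlgSphere : ℕ → PSS → Prop
  | one (E : PSS) (L : E.Sub) : E.Acyclic → IsS0 L.toPSS → AlgSphere 1 (E.quot L)
  | susp {N : ℕ} (E : PSS) (L : E.Sub) : E.Acyclic → AlgSphere N L.toPSS →
      AlgSphere (N + 1) (E.quot L)
  | ofSub {N : ℕ} (K : PSS) (L : K.Sub) : (K.quot L).Acyclic → AlgSphere N L.toPSS →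
      AlgSphere N K
  | ofQuot {N : ℕ} (K : PSS) (L : K.Sub) : L.toPSS.Acyclic → AlgSphere N (K.quot L) →
      AlgSphere N K
  | toQuot {N : ℕ} (K : PSS) (L : K.Sub) : L.toPSS.Acyclic → AlgSphere N K →
      AlgSphere N (K.quot L)
  | iso {N : ℕ} (K K' : PSS) (_ : Iso K K') : AlgSphere N K → AlgSphere N K'

/-! ### Multisets of simplices -/

/-- Finite multisets of simplices different from the base point: the free commutative monoid
`ℕ[K_n]` modulo the base point. -/
abbrev M (K : PSS) (n : ℕ) : Type := K.B n →₀ ℕ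

open Classical in
/-- The multiset with one simplex (zero for the base point). -/
def ms (K : PSS) (n : ℕ) (x : K.K n) : K.M n :=
  if h : x = K.pt n then 0 else Finsupp.single ⟨x, h⟩ 1

/-- The faces of multisets. -/
def dM (K : PSS) (n i : ℕ) : K.M (n + 1) →+ K.M n :=
  Finsupp.liftAddHom (fun b => (multiplesHom _ (K.ms n (K.d n i b.1))))

/-- The multisets which are neither zero nor a single simplex. -/
abbrev NL (K : PSS) (n : ℕ) : Type :=
  {m : K.M n // ∀ x : K.K n, m ≠ K.ms n x}

open Classical in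
/-- The relative chain `[m]`: zero if `m` is a single simplex or zero. -/
def chN (K : PSS) (n : ℕ) (m : K.M n) : K.NL n →₀ ℤ :=
  if h : ∀ x : K.K n, m ≠ K.ms n x then Finsupp.single ⟨m, h⟩ 1 else 0

/-- The boundary on `Q_n = ℤ[ℕ[K_n]]/ℤ[K_n]`. -/
def bdQ (K : PSS) (n : ℕ) : (K.NL (n + 1) →₀ ℤ) →ₗ[ℤ] (K.NL n →₀ ℤ) :=
  Finsupp.linearCombination ℤ
    (fun m => ∑ i ∈ Finset.range (n + 2), (-1 : ℤ) ^ i • K.chN n (K.dM n i m.1))

/-- The relative homology of `(ℕ[K], K)` has finite exponent in every degree. -/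
def BoundedExp (K : PSS) : Prop :=
  (∃ e : ℕ, 0 < e ∧ ∀ x : K.NL 0 →₀ ℤ, ∃ y, K.bdQ 0 y = (e : ℤ) • x) ∧
    ∀ n, ∃ e : ℕ, 0 < e ∧ ∀ x : K.NL (n + 1) →₀ ℤ, K.bdQ n x = 0 →
      ∃ y, K.bdQ (n + 1) y = (e : ℤ) • x

/-- Interface of module ALG. -/
def AlgStatement : Prop :=
  ∀ (N : ℕ) (K : PSS), AlgSphere N K → Odd N → K.BoundedExp

end PSS

end

end Pool.Agent.Lib.MP_904b2a_gt
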