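import Pool.Agent.Lib.MP_904b2a_gt.Coh

/-!
# MP_904b2a_gt: relative singular cohomology

`HR n S A = H^n(X, S; A)` for a subset `S` of the space `X`: cochains of `X` which vanish on the
simplices inside `S`.
-/

open scoped BigOperators
open Finset Set

namespace Pool.Agent.Lib.MP_904b2a_gt

noncomputable section

variable {X Y Z : Type*} [TopologicalSpace X] [TopologicalSpace Y] [TopologicalSpace Z]
variable {A B C : Type*} [AddCommGroup A] [AddCommGroup B] [AddCommGroup C]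

/-- The simplex `σ` lies in the subset `S`. -/
def InS (S : Set X) {n : ℕ} (σ : C(Simp n, X)) : Prop := ∀ t, σ t ∈ S

theorem InS.comp {S : Set X} {m n : ℕ} {σ : C(Simp n, X)} (h : InS S σ) (g : C(Simp m, Simp n)) :
    InS S (σ.comp g) := fun t => h (g t)

theorem InS.mono {S T : Set X} {n : ℕ} {σ : C(Simp n, X)} (h : InS S σ) (hST : S ⊆ T) :
    InS T σ := fun t => hST (h t)

/-- A simplex in `S` as a simplex of the space `S`. -/
def InS.res {S : Set X} {n : ℕ} {σ : C(Simp n, X)} (h : InS S σ) : C(Simp n, S) :=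
  ⟨fun t => ⟨σ t, h t⟩, by fun_prop⟩

/-- The inclusion of a subset. -/
def incl (S : Set X) : C(S, X) := ⟨Subtype.val, continuous_subtype_val⟩

@[simp] theorem incl_apply (S : Set X) (x : S) : incl S x = x.1 := rfl

theorem InS.incl_comp_res {S : Set X} {n : ℕ} {σ : C(Simp n, X)} (h : InS S σ) :
    (incl S).comp h.res = σ := rfl

theorem inS_incl_comp {S : Set X} {n : ℕ} (σ : C(Simp n, S)) : InS S ((incl S).comp σ) :=
  fun t => (σ t).2

theorem res_incl_comp {S : Set X} {n : ℕ} (σ : C(Simp n, S)) :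
    (inS_incl_comp σ).res = σ := rfl

/-- The restriction of a continuous map to subsets. -/
def resMap (f : C(X, Y)) {S : Set X} {T : Set Y} (h : MapsTo f S T) : C(S, T) :=
  ⟨fun x => ⟨f x.1, h x.2⟩, by fun_prop⟩

@[simp] theorem resMap_apply (f : C(X, Y)) {S : Set X} {T : Set Y} (h : MapsTo f S T) (x : S) :
    ((resMap f h x : T) : Y) = f x.1 := rfl

/-- The inclusion of subsets. -/
def inclSub {S T : Set X} (h : S ⊆ T) : C(S, T) :=
  ⟨fun x => ⟨x.1, h x.2⟩, by fun_prop⟩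

variable (A) in
/-- Relative cochains. -/
def relCoch (S : Set X) (n : ℕ) : AddSubgroup (Coch n X A) where
  carrier := {φ | ∀ σ : C(Simp n, X), InS S σ → φ σ = 0}
  zero_mem' := fun _ _ => rfl
  add_mem' := fun {a b} ha hb σ hσ => by
    change a σ + b σ = 0
    rw [ha σ hσ, hb σ hσ, add_zero]
  neg_mem' := fun {a} ha σ hσ => by
    change - a σ = 0
    rw [ha σ hσ, neg_zero]

theorem mem_relCoch {S : Set X} {n : ℕ} {φ : Coch n X A} :
    φ ∈ relCoch A S n ↔ ∀ σ : C(Simp n, X), InS S σ → φ σ = 0 := Iff.rfl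

theorem mem_relCoch_iff {S : Set X} {n : ℕ} {φ : Coch n X A} :
    φ ∈ relCoch A S n ↔ pbC n (incl S) φ = 0 := by
  constructor
  · intro h
    funext σ
    exact h _ (inS_incl_comp σ)
  · intro h σ hσ
    exact congrFun h hσ.res

theorem cob_mem_relCoch {S : Set X} {n : ℕ} {φ : Coch n X A} (h : φ ∈ relCoch A S n) :
    cob n φ ∈ relCoch A S (n + 1) := by
  intro σ hσ
  rw [cob_apply]
  refine sum_eq_zero (fun i _ => ?_)
  rw [h _ (hσ.comp _), smul_zero]

variable (A) in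
/-- Relative cocycles. -/
def relCocycles (S : Set X) (n : ℕ) : AddSubgroup (Coch n X A) :=
  relCoch A S n ⊓ cocycles X A n

variable (A) in
/-- Coboundaries of relative cochains. -/
def relCoboundaries (S : Set X) : ∀ n : ℕ, AddSubgroup (Coch n X A)
  | 0 => ⊥
  | (n + 1) => (relCoch A S n).map (cob n)

theorem mem_relCocycles {S : Set X} {n : ℕ} {φ : Coch n X A} :
    φ ∈ relCocycles A S n ↔ φ ∈ relCoch A S n ∧ cob n φ = 0 := Iff.rfl

theorem mem_relCoboundaries_succ {S : Set X} {n : ℕ} {φ : Coch (n + 1) X A} :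
    φ ∈ relCoboundaries A S (n + 1) ↔ ∃ ψ ∈ relCoch A S n, cob n ψ = φ := Iff.rfl

theorem relCoboundaries_le (S : Set X) (n : ℕ) :
    relCoboundaries A S n ≤ relCocycles A S n := by
  cases n with
  | zero => exact bot_le
  | succ n =>
    rintro _ ⟨φ, hφ, rfl⟩
    exact ⟨cob_mem_relCoch hφ, cob_cob n φ⟩

/-- Relative cohomology `H^n(X, S; A)`. -/
def HR (n : ℕ) (S : Set X) (A : Type*) [AddCommGroup A] : Type _ :=
  (relCocycles A S n) ⧸ (relCoboundaries A S n).addSubgroupOf (relCocycles A S n)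

instance (n : ℕ) (S : Set X) : AddCommGroup (HR n S A) :=
  inferInstanceAs (AddCommGroup ((relCocycles A S n) ⧸ _))

/-- The class of a relative cocycle. -/
def HR.mk {S : Set X} (n : ℕ) : relCocycles A S n →+ HR n S A :=
  QuotientAddGroup.mk' _

theorem HR.mk_surjective {S : Set X} (n : ℕ) :
    Function.Surjective (HR.mk (A := A) (S := S) n) :=
  QuotientAddGroup.mk'_surjective _

theorem HR.mk_eq_zero {S : Set X} {n : ℕ} {z : relCocycles A S n} :
    HR.mk n z = 0 ↔ (z : Coch n X A) ∈ relCoboundaries A S n :=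
  (QuotientAddGroup.eq_zero_iff z).trans AddSubgroup.mem_addSubgroupOf

theorem HR.mk_eq_mk {S : Set X} {n : ℕ} {z w : relCocycles A S n} :
    HR.mk n z = HR.mk n w ↔ (z : Coch n X A) - w ∈ relCoboundaries A S n := by
  rw [← sub_eq_zero, ← map_sub, HR.mk_eq_zero]
  rfl

/-- Homomorphisms out of relative cohomology. -/
def HR.lift {S : Set X} {n : ℕ} {G : Type*} [AddCommGroup G] (f : relCocycles A S n →+ G)
    (hf : ∀ z : relCocycles A S n, (z : Coch n X A) ∈ relCoboundaries A S n → f z = 0) :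
    HR n S A →+ G :=
  QuotientAddGroup.lift _ f (fun z hz => hf z (AddSubgroup.mem_addSubgroupOf.mp hz))

@[simp]
theorem HR.lift_mk {S : Set X} {n : ℕ} {G : Type*} [AddCommGroup G] (f : relCocycles A S n →+ G)
    (hf : ∀ z : relCocycles A S n, (z : Coch n X A) ∈ relCoboundaries A S n → f z = 0)
    (z : relCocycles A S n) : HR.lift f hf (HR.mk n z) = f z := rfl

theorem HR.hom_ext {S : Set X} {n : ℕ} {G : Type*} [AddCommGroup G] {f g : HR n S A →+ G}
    (h : ∀ z : relCocycles A S n, f (HR.mk n z) = g (HR.mk n z)) : f = g := by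
  ext u
  obtain ⟨z, rfl⟩ := HR.mk_surjective n u
  exact h z

/-! ### Functoriality -/

theorem pbC_mem_relCoch {n : ℕ} (f : C(X, Y)) {S : Set X} {T : Set Y} (h : MapsTo f S T)
    {φ : Coch n Y A} (hφ : φ ∈ relCoch A T n) : pbC n f φ ∈ relCoch A S n :=
  fun σ hσ => hφ (f.comp σ) (fun t => h (hσ t))

theorem pbC_mem_relCocycles {n : ℕ} (f : C(X, Y)) {S : Set X} {T : Set Y} (h : MapsTo f S T)
    {φ : Coch n Y A} (hφ : φ ∈ relCocycles A T n) : pbC n f φ ∈ relCocycles A S n :=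
  ⟨pbC_mem_relCoch f h hφ.1, pbC_mem_cocycles f hφ.2⟩

theorem pbC_mem_relCoboundaries {n : ℕ} (f : C(X, Y)) {S : Set X} {T : Set Y}
    (h : MapsTo f S T) {φ : Coch n Y A} (hφ : φ ∈ relCoboundaries A T n) :
    pbC n f φ ∈ relCoboundaries A S n := by
  cases n with
  | zero =>
    have h0 : φ = 0 := hφ
    rw [h0, map_zero]
    exact zero_mem _
  | succ n =>
    obtain ⟨ψ, hψ, rfl⟩ := hφ
    exact ⟨pbC n f ψ, pbC_mem_relCoch f h hψ, (pbC_cob n f ψ).symm⟩

/-- The map induced by a map of pairs. -/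
def HR.pb {n : ℕ} (f : C(X, Y)) {S : Set X} {T : Set Y} (h : MapsTo f S T) :
    HR n T A →+ HR n S A :=
  HR.lift ((HR.mk n).comp (((pbC n f).comp (relCocycles A T n).subtype).codRestrict
    (relCocycles A S n) (fun z => pbC_mem_relCocycles f h z.2)))
    (fun _ hz => HR.mk_eq_zero.mpr (pbC_mem_relCoboundaries f h hz))

theorem HR.pb_mk {n : ℕ} (f : C(X, Y)) {S : Set X} {T : Set Y} (h : MapsTo f S T)
    (z : relCocycles A T n) :
    HR.pb f h (HR.mk n z) = HR.mk n ⟨pbC n f z, pbC_mem_relCocycles f h z.2⟩ := rfl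

theorem cmC_mem_relCoch {n : ℕ} (g : A →+ B) {S : Set X} {φ : Coch n X A}
    (hφ : φ ∈ relCoch A S n) : cmC n g φ ∈ relCoch B S n := fun σ hσ => by
  change g (φ σ) = 0
  rw [hφ σ hσ, map_zero]

theorem cmC_mem_relCocycles {n : ℕ} (g : A →+ B) {S : Set X} {φ : Coch n X A}
    (hφ : φ ∈ relCocycles A S n) : cmC n g φ ∈ relCocycles B S n :=
  ⟨cmC_mem_relCoch g hφ.1, cmC_mem_cocycles g hφ.2⟩

theorem cmC_mem_relCoboundaries {n : ℕ} (g : A →+ B) {S : Set X} {φ : Coch n X A}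
    (hφ : φ ∈ relCoboundaries A S n) : cmC n g φ ∈ relCoboundaries B S n := by
  cases n with
  | zero =>
    have h0 : φ = 0 := hφ
    rw [h0, map_zero]
    exact zero_mem _
  | succ n =>
    obtain ⟨ψ, hψ, rfl⟩ := hφ
    exact ⟨cmC n g ψ, cmC_mem_relCoch g hψ, (cmC_cob n g ψ).symm⟩

/-- Change of coefficients. -/
def HR.cm {n : ℕ} (g : A →+ B) {S : Set X} : HR n S A →+ HR n S B :=
  HR.lift ((HR.mk n).comp (((cmC n g).comp (relCocycles A S n).subtype).codRestrict
    (relCocycles B S n) (fun z => cmC_mem_relCocycles g z.2)))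
    (fun _ hz => HR.mk_eq_zero.mpr (cmC_mem_relCoboundaries g hz))

theorem HR.cm_mk {n : ℕ} (g : A →+ B) {S : Set X} (z : relCocycles A S n) :
    HR.cm g (HR.mk n z) = HR.mk n ⟨cmC n g z, cmC_mem_relCocycles g z.2⟩ := rfl

theorem HR.pb_id {n : ℕ} {S : Set X} (u : HR n S A) :
    HR.pb (ContinuousMap.id X) (mapsTo_id S) u = u := by
  obtain ⟨z, rfl⟩ := HR.mk_surjective n u
  rfl

theorem HR.pb_comp {n : ℕ} (f : C(X, Y)) (g : C(Y, Z)) {S : Set X} {T : Set Y} {R : Set Z}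
    (hf : MapsTo f S T) (hg : MapsTo g T R) (u : HR n R A) :
    HR.pb f hf (HR.pb g hg u) = HR.pb (g.comp f) (hg.comp hf) u := by
  obtain ⟨z, rfl⟩ := HR.mk_surjective n u
  rfl

theorem HR.cm_comp {n : ℕ} (f : A →+ B) (g : B →+ C) {S : Set X} (u : HR n S A) :
    HR.cm g (HR.cm f u) = HR.cm (g.comp f) u := by
  obtain ⟨z, rfl⟩ := HR.mk_surjective n u
  rfl

theorem HR.pb_cm {n : ℕ} (f : C(X, Y)) (g : A →+ B) {S : Set X} {T : Set Y} (h : MapsTo f S T)
    (u : HR n T A) : HR.pb f h (HR.cm g u) = HR.cm g (HR.pb f h u) := by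
  obtain ⟨z, rfl⟩ := HR.mk_surjective n u
  rfl

/-! ### The long exact sequence of a pair -/

/-- The map `H^n(X, S) → H^n(X)`. -/
def HR.toH {n : ℕ} {S : Set X} : HR n S A →+ H n X A :=
  HR.lift ((H.mk n).comp (AddSubgroup.inclusion inf_le_right))
    (fun z hz => by
      apply H.mk_eq_zero.mpr
      cases n with
      | zero => exact hz
      | succ n =>
        obtain ⟨ψ, _, hψ⟩ := hz
        exact ⟨ψ, hψ⟩)

theorem HR.toH_mk {n : ℕ} {S : Set X} (z : relCocycles A S n) :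
    HR.toH (HR.mk n z) = H.mk n ⟨z.1, z.2.2⟩ := rfl

theorem HR.toH_pb {n : ℕ} (f : C(X, Y)) {S : Set X} {T : Set Y} (h : MapsTo f S T)
    (u : HR n T A) : HR.toH (HR.pb f h u) = H.pb f (HR.toH u) := by
  obtain ⟨z, rfl⟩ := HR.mk_surjective n u
  rfl

theorem HR.toH_cm {n : ℕ} (g : A →+ B) {S : Set X} (u : HR n S A) :
    HR.toH (HR.cm g u) = H.cm g (HR.toH u) := by
  obtain ⟨z, rfl⟩ := HR.mk_surjective n u
  rfl

open Classical in
/-- Extension by zero of cochains of `S`. -/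
def extC {S : Set X} (n : ℕ) : Coch n S A →+ Coch n X A where
  toFun φ σ := if h : InS S σ then φ h.res else 0
  map_zero' := by
    funext σ
    by_cases h : InS S σ <;> simp [h]
  map_add' φ ψ := by
    funext σ
    by_cases h : InS S σ <;> simp [h]

theorem extC_of_inS {S : Set X} {n : ℕ} (φ : Coch n S A) {σ : C(Simp n, X)} (h : InS S σ) :
    extC n φ σ = φ h.res := by
  simp [extC, h]

theorem extC_of_not {S : Set X} {n : ℕ} (φ : Coch n S A) {σ : C(Simp n, X)} (h : ¬ InS S σ) :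
    extC n φ σ = 0 := by
  simp [extC, h]

theorem pbC_incl_extC {S : Set X} {n : ℕ} (φ : Coch n S A) : pbC n (incl S) (extC n φ) = φ := by
  funext σ
  change extC n φ ((incl S).comp σ) = _
  rw [extC_of_inS φ (inS_incl_comp σ), res_incl_comp]

theorem cob_extC_mem {S : Set X} {n : ℕ} {φ : Coch n S A} (h : cob n φ = 0) :
    cob n (extC n φ) ∈ relCocycles A S (n + 1) := by
  refine ⟨mem_relCoch_iff.mpr ?_, cob_cob n _⟩
  rw [pbC_cob, pbC_incl_extC, h]

theorem exists_eq_extC_add {S : Set X} {n : ℕ} (φ : Coch n X A) :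
    φ - extC n (pbC n (incl S) φ) ∈ relCoch A S n := by
  rw [mem_relCoch_iff, map_sub, pbC_incl_extC, sub_self]

/-- The connecting homomorphism `H^n(S) → H^{n+1}(X, S)`. -/
def HR.delta {n : ℕ} {S : Set X} : H n S A →+ HR (n + 1) S A :=
  H.lift ((HR.mk (n + 1)).comp ((((cob n).comp (extC n)).comp (cocycles S A n).subtype).codRestrict
    (relCocycles A S (n + 1)) (fun z => cob_extC_mem z.2)))
    (fun z hz => by
      apply HR.mk_eq_zero.mpr
      change cob n (extC n z.1) ∈ _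
      cases n with
      | zero =>
        have h0 : (z : Coch 0 S A) = 0 := hz
        rw [h0, map_zero, map_zero]
        exact zero_mem _
      | succ n =>
        obtain ⟨ψ, hψ⟩ := hz
        refine ⟨extC (n + 1) z.1 - cob n (extC n ψ), ?_, ?_⟩
        · apply mem_relCoch_iff.mpr
          rw [map_sub, pbC_incl_extC, pbC_cob, pbC_incl_extC, hψ, sub_self]
        · rw [map_sub, cob_cob, sub_zero])

theorem HR.delta_mk {n : ℕ} {S : Set X} (z : cocycles S A n) :
    HR.delta (H.mk n z) = HR.mk (n + 1) ⟨cob n (extC n z.1), cob_extC_mem z.2⟩ := rfl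

theorem HR.delta_pb {n : ℕ} (f : C(X, Y)) {S : Set X} {T : Set Y} (h : MapsTo f S T)
    (u : H n T A) : HR.delta (H.pb (resMap f h) u) = HR.pb f h (HR.delta u) := by
  obtain ⟨z, rfl⟩ := H.mk_surjective n u
  rw [H.pb_mk, HR.delta_mk, HR.delta_mk, HR.pb_mk, HR.mk_eq_mk]
  refine ⟨extC n (pbC n (resMap f h) z.1) - pbC n f (extC n z.1), ?_, ?_⟩
  · apply mem_relCoch_iff.mpr
    rw [map_sub, pbC_incl_extC, sub_eq_zero]
    have e : pbC n (incl S) (pbC n f (extC n z.1)) =
      pbC n (resMap f h) (pbC n (incl T) (extC n z.1)) := rfl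
    rw [e, pbC_incl_extC]
  · exact map_sub (cob n) _ _

theorem HR.delta_cm {n : ℕ} (g : A →+ B) {S : Set X} (u : H n S A) :
    HR.delta (H.cm g u) = HR.cm g (HR.delta u) := by
  obtain ⟨z, rfl⟩ := H.mk_surjective n u
  rw [H.cm_mk, HR.delta_mk, HR.delta_mk, HR.cm_mk]
  congr 1
  apply Subtype.ext
  change cob n (extC n (cmC n g z.1)) = cmC (n + 1) g (cob n (extC n z.1))
  rw [cmC_cob]
  congr 1
  funext σ
  change _ = g (extC n z.1 σ)
  by_cases h : InS S σ
  · rw [extC_of_inS _ h, extC_of_inS _ h]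
    rfl
  · rw [extC_of_not _ h, extC_of_not _ h, map_zero]

/-- Exactness at `H^n(X)`. -/
theorem HR.exact_H {n : ℕ} {S : Set X} (u : H n X A) :
    H.pb (incl S) u = 0 ↔ ∃ v : HR n S A, HR.toH v = u := by
  constructor
  · intro h
    obtain ⟨z, rfl⟩ := H.mk_surjective n u
    rw [H.pb_mk, H.mk_eq_zero] at h
    cases n with
    | zero =>
      refine ⟨HR.mk 0 ⟨z.1, mem_relCoch_iff.mpr h, z.2⟩, rfl⟩
    | succ n =>
      obtain ⟨ψ, hψ⟩ := h
      refine ⟨HR.mk (n + 1) ⟨z.1 - cob n (extC n ψ), mem_relCoch_iff.mpr ?_, ?_⟩, ?_⟩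
      · rw [map_sub, pbC_cob, pbC_incl_extC]
        exact sub_eq_zero.mpr hψ.symm
      · exact AddSubgroup.sub_mem (cocycles X A (n + 1)) z.2 (cob_cob n _)
      · rw [HR.toH_mk, H.mk_eq_mk]
        refine ⟨- extC n ψ, ?_⟩
        change cob n (- extC n ψ) = z.1 - cob n (extC n ψ) - z.1
        rw [map_neg]
        abel
  · rintro ⟨v, rfl⟩
    obtain ⟨z, rfl⟩ := HR.mk_surjective n v
    rw [HR.toH_mk, H.pb_mk, H.mk_eq_zero]
    change pbC n (incl S) z.1 ∈ _
    rw [mem_relCoch_iff.mp z.2.1]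
    exact zero_mem _

/-- Exactness at `H^n(S)`. -/
theorem HR.exact_S {n : ℕ} {S : Set X} (w : H n S A) :
    HR.delta w = 0 ↔ ∃ u : H n X A, H.pb (incl S) u = w := by
  constructor
  · intro h
    obtain ⟨z, rfl⟩ := H.mk_surjective n w
    rw [HR.delta_mk, HR.mk_eq_zero] at h
    obtain ⟨ψ, hψ, hψ'⟩ := h
    refine ⟨H.mk n ⟨extC n z.1 - ψ, ?_⟩, ?_⟩
    · change cob n _ = 0
      rw [map_sub, hψ', sub_self]
    · rw [H.pb_mk]
      congr 1
      apply Subtype.ext
      change pbC n (incl S) (extC n z.1 - ψ) = z.1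
      rw [map_sub, pbC_incl_extC, mem_relCoch_iff.mp hψ, sub_zero]
  · rintro ⟨u, rfl⟩
    obtain ⟨z, rfl⟩ := H.mk_surjective n u
    rw [H.pb_mk, HR.delta_mk, HR.mk_eq_zero]
    refine ⟨extC n (pbC n (incl S) z.1) - z.1, ?_, ?_⟩
    · rw [← neg_sub]
      exact neg_mem (exists_eq_extC_add z.1)
    · rw [map_sub, show cob n z.1 = 0 from z.2, sub_zero]

/-- Exactness at `H^{n+1}(X, S)`. -/
theorem HR.exact_R {n : ℕ} {S : Set X} (v : HR (n + 1) S A) :
    HR.toH v = 0 ↔ ∃ w : H n S A, HR.delta w = v := by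
  constructor
  · intro h
    obtain ⟨z, rfl⟩ := HR.mk_surjective (n + 1) v
    rw [HR.toH_mk, H.mk_eq_zero] at h
    obtain ⟨ψ, hψ⟩ := h
    refine ⟨H.mk n ⟨pbC n (incl S) ψ, ?_⟩, ?_⟩
    · change cob n _ = 0
      rw [← pbC_cob, hψ]
      exact mem_relCoch_iff.mp z.2.1
    · rw [HR.delta_mk, HR.mk_eq_mk]
      refine ⟨extC n (pbC n (incl S) ψ) - ψ, ?_, ?_⟩
      · rw [← neg_sub]
        exact neg_mem (exists_eq_extC_add ψ)
      · change cob n (extC n (pbC n (incl S) ψ) - ψ) = cob n (extC n (pbC n (incl S) ψ)) - z.1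
        rw [map_sub]
        exact congrArg (fun t => cob n (extC n (pbC n (incl S) ψ)) - t) hψ
  · rintro ⟨w, rfl⟩
    obtain ⟨z, rfl⟩ := H.mk_surjective n w
    rw [HR.delta_mk, HR.toH_mk, H.mk_eq_zero]
    exact ⟨extC n z.1, rfl⟩

/-- Exactness at `H^0(X, S)`. -/
theorem HR.toH_injective_zero {S : Set X} :
    Function.Injective (HR.toH (n := 0) (S := S) (A := A)) := by
  rw [injective_iff_map_eq_zero]
  intro v hv
  obtain ⟨z, rfl⟩ := HR.mk_surjective 0 v
  rw [HR.toH_mk, H.mk_eq_zero] at hv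
  exact HR.mk_eq_zero.mpr hv

/-- For the empty subset relative cohomology is absolute cohomology. -/
theorem HR.toH_bijective_of_empty {n : ℕ} {S : Set X} (hS : S = ∅) :
    Function.Bijective (HR.toH (n := n) (S := S) (A := A)) := by
  subst hS
  have hI : ∀ (m : ℕ) (σ : C(Simp m, X)), ¬ InS (∅ : Set X) σ :=
    fun m σ h => h (stdSimplex.vertex 0)
  constructor
  · rw [injective_iff_map_eq_zero]
    intro v hv
    obtain ⟨z, rfl⟩ := HR.mk_surjective n v
    rw [HR.toH_mk, H.mk_eq_zero] at hv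
    apply HR.mk_eq_zero.mpr
    cases n with
    | zero => exact hv
    | succ n =>
      obtain ⟨ψ, hψ⟩ := hv
      exact ⟨ψ, fun σ hσ => absurd hσ (hI _ σ), hψ⟩
  · intro u
    obtain ⟨z, rfl⟩ := H.mk_surjective n u
    exact ⟨HR.mk n ⟨z.1, fun σ hσ => absurd hσ (hI _ σ), z.2⟩, rfl⟩

/-- The five lemma for a map of pairs. -/
theorem HR.pb_bijective_of {f : C(X, Y)} {S : Set X} {T : Set Y} (h : MapsTo f S T)
    (h1 : ∀ n, Function.Bijective (H.pb (n := n) (A := A) f))
    (h2 : ∀ n, Function.Bijective (H.pb (n := n) (A := A) (resMap f h))) (n : ℕ) :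
    Function.Bijective (HR.pb (n := n) (A := A) f h) := by
  have hr : ∀ (n : ℕ) (u : H n Y A),
      H.pb (resMap f h) (H.pb (incl T) u) = H.pb (incl S) (H.pb f u) := by
    intro n u
    rw [H.pb_comp, H.pb_comp]
    rfl
  constructor
  · rw [injective_iff_map_eq_zero]
    intro v hv
    have h3 : HR.toH v = 0 := by
      apply (h1 n).1
      rw [← HR.toH_pb f h, hv, map_zero, map_zero]
    cases n with
    | zero => exact HR.toH_injective_zero (h3.trans (map_zero _).symm)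
    | succ n =>
      obtain ⟨w, rfl⟩ := (HR.exact_R v).mp h3
      rw [← HR.delta_pb, HR.exact_S] at hv
      obtain ⟨u, hu⟩ := hv
      obtain ⟨u', rfl⟩ := (h1 n).2 u
      rw [← hr] at hu
      have := (h2 n).1 hu
      rw [← this]
      exact (HR.exact_S _).mpr ⟨u', rfl⟩
  · intro v
    obtain ⟨u, hu⟩ := (h1 n).2 (HR.toH v)
    have h3 : H.pb (incl T) u = 0 := by
      apply (h2 n).1
      rw [hr, hu, map_zero]
      exact (HR.exact_H _).mpr ⟨v, rfl⟩
    obtain ⟨v', rfl⟩ := (HR.exact_H u).mp h3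
    rw [← HR.toH_pb f h] at hu
    cases n with
    | zero => exact ⟨v', HR.toH_injective_zero hu⟩
    | succ n =>
      have h4 : HR.toH (v - HR.pb f h v') = 0 := by
        rw [map_sub, hu, sub_self]
      obtain ⟨w, hw⟩ := (HR.exact_R _).mp h4
      obtain ⟨w', rfl⟩ := (h2 n).2 w
      refine ⟨v' + HR.delta w', ?_⟩
      rw [map_add, ← HR.delta_pb, hw]
      abel

/-! ### Homotopy invariance -/

theorem prismC_mem_relCoch {f₀ f₁ : C(X, Y)} (F : f₀.Homotopy f₁) {S : Set X} {T : Set Y}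
    (hF : ∀ t, ∀ s ∈ S, F (t, s) ∈ T) (n : ℕ) {φ : Coch (n + 1) Y A}
    (hφ : φ ∈ relCoch A T (n + 1)) : prismC F n φ ∈ relCoch A S n := by
  intro σ hσ
  unfold prismC
  refine sum_eq_zero (fun j _ => ?_)
  rw [hφ _ (fun t => hF _ _ (hσ _)), smul_zero]

/-- Homotopic maps of pairs induce the same map. -/
theorem HR.pb_eq_of_homotopy {n : ℕ} {f₀ f₁ : C(X, Y)} (F : f₀.Homotopy f₁) {S : Set X}
    {T : Set Y} (hF : ∀ t, ∀ s ∈ S, F (t, s) ∈ T) (h₀ : MapsTo f₀ S T) (h₁ : MapsTo f₁ S T)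
    (u : HR n T A) : HR.pb f₀ h₀ u = HR.pb f₁ h₁ u := by
  obtain ⟨z, rfl⟩ := HR.mk_surjective n u
  rw [HR.pb_mk, HR.pb_mk, eq_comm, HR.mk_eq_mk]
  have hz : cob n (z : Coch n Y A) = 0 := z.2.2
  cases n with
  | zero =>
    change pbC 0 f₁ z.1 - pbC 0 f₀ z.1 = 0
    rw [← prismC_zero_formula F, hz]
    funext σ
    simp [prismC]
  | succ n =>
    refine ⟨prismC F n z.1, prismC_mem_relCoch F hF n z.2.1, ?_⟩
    have := prismC_formula F n (z : Coch (n + 1) Y A)
    rw [hz] at this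
    change cob n (prismC F n z.1) = pbC (n + 1) f₁ z.1 - pbC (n + 1) f₀ z.1
    have h0 : prismC F (n + 1) (0 : Coch (n + 2) Y A) = 0 := by
      funext σ
      simp [prismC]
    rw [← this, h0, zero_add]

/-- Enlarging the subset by a homotopy equivalence does not change relative cohomology. -/
theorem HR.pb_id_bijective {S T : Set X} (h : S ⊆ T)
    (h2 : ∀ n, Function.Bijective (H.pb (n := n) (A := A) (inclSub h))) (n : ℕ) :
    Function.Bijective (HR.pb (n := n) (A := A) (ContinuousMap.id X) (S := S) (T := T) h) :=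
  HR.pb_bijective_of (f := ContinuousMap.id X) h
    (fun n => ⟨fun u v huv => by rwa [H.pb_id, H.pb_id] at huv, fun u => ⟨u, H.pb_id u⟩⟩) h2 n

end

end Pool.Agent.Lib.MP_904b2a_gt
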