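import Pool.Agent.Lib.MP_904b2a_gt.PSS

/-!
# MP_904b2a_gt: the pointed singular complex of a pointed space
-/

open scoped BigOperators

namespace Pool.Agent.Lib.MP_904b2a_gt

noncomputable section

theorem fv_fv (n i j : ℕ) (hij : i ≤ j) (_ : j ≤ n + 1) :
    fv (n + 1) (j + 1) ∘ fv n i = fv (n + 1) i ∘ fv n j := by
  funext k
  apply Fin.ext
  simp only [Function.comp, fv_val]
  grind

theorem dv_dv (n i j : ℕ) (hij : i ≤ j) (_ : j ≤ n) :
    dv n j ∘ dv (n + 1) i = dv n i ∘ dv (n + 1) (j + 1) := by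
  funext k
  apply Fin.ext
  have hk := k.2
  simp only [Function.comp, dv_val]
  grind

theorem dv_fv_lt (n i j : ℕ) (hij : i ≤ j) (_ : j ≤ n) :
    dv (n + 1) (j + 1) ∘ fv (n + 1) i = fv n i ∘ dv n j := by
  funext k
  apply Fin.ext
  have hk := k.2
  simp only [Function.comp, dv_val, fv_val]
  grind

theorem dv_fv_eq (n j : ℕ) (_ : j ≤ n) : dv n j ∘ fv n j = id := by
  funext k
  apply Fin.ext
  have hk := k.2
  simp only [Function.comp, dv_val, fv_val, id]
  grind

theorem dv_fv_succ (n j : ℕ) (_ : j ≤ n) : dv n j ∘ fv n (j + 1) = id := by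
  funext k
  apply Fin.ext
  have hk := k.2
  simp only [Function.comp, dv_val, fv_val, id]
  grind

theorem dv_fv_gt (n i j : ℕ) (hij : j < i) (_ : i ≤ n + 1) :
    dv (n + 1) j ∘ fv (n + 1) (i + 1) = fv n i ∘ dv n j := by
  funext k
  apply Fin.ext
  have hk := k.2
  simp only [Function.comp, dv_val, fv_val]
  grind

/-- The pointed singular complex of a pointed space. -/
def singP (X : Type) [TopologicalSpace X] (x₀ : X) : PSS where
  K n := C(Simp n, X)
  pt n := ContinuousMap.const _ x₀
  d n i σ := σ.comp (smap (fv n i))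
  s n i σ := σ.comp (smap (dv n i))
  d_pt n i _ := rfl
  s_pt n i _ := rfl
  d_d n i j σ hij hj := by
    rw [ContinuousMap.comp_assoc, ContinuousMap.comp_assoc, smap_comp, smap_comp,
      fv_fv n i j hij hj]
  s_s n i j σ hij hj := by
    rw [ContinuousMap.comp_assoc, ContinuousMap.comp_assoc, smap_comp, smap_comp,
      dv_dv n i j hij hj]
  d_s_lt n i j σ hij hj := by
    rw [ContinuousMap.comp_assoc, ContinuousMap.comp_assoc, smap_comp, smap_comp,
      dv_fv_lt n i j hij hj]
  d_s_eq n j σ hj := by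
    rw [ContinuousMap.comp_assoc, smap_comp, dv_fv_eq n j hj, smap_id, ContinuousMap.comp_id]
  d_s_succ n j σ hj := by
    rw [ContinuousMap.comp_assoc, smap_comp, dv_fv_succ n j hj, smap_id, ContinuousMap.comp_id]
  d_s_gt n i j σ hij hi := by
    rw [ContinuousMap.comp_assoc, ContinuousMap.comp_assoc, smap_comp, smap_comp,
      dv_fv_gt n i j hij hi]

end

end Pool.Agent.Lib.MP_904b2a_gt
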