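import Pool.Agent.Lib.MP_904b2a_gt.Interfaces2
import Pool.Agent.Lib.MP_904b2a_gt.H1.Skel

/-!
# MP_904b2a_gt: cohomology of the skeleta of a CW complex

Consequences of `R1Statement` and `R2Statement`.
-/

open Metric Set Topology

namespace Pool.Agent.Lib.MP_904b2a_gt

noncomputable section

variable {X : Type} [TopologicalSpace X] [T2Space X] {C : Set X} [CWComplex C]
variable {A : Type} [AddCommGroup A]

/-- The empty space has no cohomology. -/
theorem H.eq_zero_of_isEmpty {Y : Type*} [TopologicalSpace Y] [IsEmpty Y] {B : Type*}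
    [AddCommGroup B] {n : ℕ} (u : H n Y B) : u = 0 := by
  obtain ⟨z, rfl⟩ := H.mk_surjective n u
  have : z = 0 := by
    apply Subtype.ext
    funext σ
    exact isEmptyElim (σ (stdSimplex.vertex 0))
  rw [this, map_zero]

/-- The inclusion of skeleta. -/
abbrev SK.incl {m n : ℕ} (h : m ≤ n) : C(SK C m, SK C n) := inclSub (SK_mono h)

/-- The subset `SK C k` of `SK C (k+1)`. -/
abbrev SK.sub (C : Set X) [CWComplex C] (k : ℕ) : Set (SK C (k + 1)) := {z | z.1 ∈ SK C k}

/-- `SK C k` as a subspace of `X` and as a subspace of `SK C (k+1)`. -/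
def SK.homeo (C : Set X) [CWComplex C] (k : ℕ) : SK C k ≃ₜ SK.sub C k where
  toFun z := ⟨⟨z.1, SK_mono (Nat.le_succ k) z.2⟩, z.2⟩
  invFun z := ⟨z.1.1, z.2⟩
  left_inv _ := rfl
  right_inv _ := rfl
  continuous_toFun := by fun_prop
  continuous_invFun := by fun_prop

/-- The attaching map of a cell. -/
def SK.att (k : ℕ) (τ : RelCWComplex.cell C k) : C(SB k, SK C k) :=
  ((SK.homeo C k).symm : C(SK.sub C k, SK C k)).comp ((skelAttach C k).φ τ)

theorem SK.incl_att (k : ℕ) (τ : RelCWComplex.cell C k) :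
    (SK.incl (Nat.le_succ k)).comp (SK.att k τ) = ((skelAttach C k).χ τ).comp (SB.incl k) := rfl

theorem SK.pb_incl_sub (k m : ℕ) (u : H m (SK C (k + 1)) A) :
    H.pb ((SK.homeo C k : C(SK C k, SK.sub C k))) (H.pb (Pool.Agent.Lib.MP_904b2a_gt.incl
      (SK.sub C k)) u) = H.pb (SK.incl (Nat.le_succ k)) u := by
  rw [H.pb_comp]
  rfl

/-- Restriction to the previous skeleton is injective. -/
theorem SK.pb_injective (R1 : R1Statement) {k m : ℕ} (h : m ≠ k) :
    Function.Injective (H.pb (n := m) (A := A) (SK.incl (C := C) (Nat.le_succ k))) := by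
  intro u v huv
  rw [← SK.pb_incl_sub, ← SK.pb_incl_sub] at huv
  exact R1 k _ _ _ (skelAttach C k) A m h
    ((H.pb_bijective_of_homeomorph (SK.homeo C k)).1 huv)

/-- Extension of classes over the cells. -/
theorem SK.exists_ext (R2 : R2Statement) {k m : ℕ} (hm : 1 ≤ m) (u : H m (SK C k) A)
    (hu : ∀ τ, H.pb (SK.att k τ) u = 0) :
    ∃ u' : H m (SK C (k + 1)) A, H.pb (SK.incl (Nat.le_succ k)) u' = u := by
  obtain ⟨v, rfl⟩ := (H.pb_bijective_of_homeomorph (SK.homeo C k)).2 u
  obtain ⟨u', rfl⟩ := R2 k _ _ _ (skelAttach C k) A m v hm (fun τ => by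
    rw [← hu τ, H.pb_comp]
    rfl)
  exact ⟨u', (SK.pb_incl_sub k m u').symm⟩

/-- A class which extends over the next skeleton vanishes on the attaching spheres. -/
theorem SK.pb_att_eq_zero {k m : ℕ} (hm : 1 ≤ m) (u' : H m (SK C (k + 1)) A)
    (τ : RelCWComplex.cell C k) :
    H.pb (SK.att k τ) (H.pb (SK.incl (Nat.le_succ k)) u') = 0 := by
  rw [H.pb_comp, SK.incl_att, ← H.pb_comp]
  have : ContractibleSpace (CB k) :=
    (convex_closedBall (0 : Fin k → ℝ) 1).contractibleSpace ⟨0, by simp⟩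
  obtain ⟨n, rfl⟩ : ∃ n, m = n + 1 := ⟨m - 1, by omega⟩
  rw [H.eq_zero_of_contractible n (H.pb ((skelAttach C k).χ τ) u'), map_zero]

/-- The cohomology of a skeleton vanishes above its dimension. -/
theorem SK.eq_zero (R1 : R1Statement) {k m : ℕ} (h : k ≤ m) (u : H m (SK C k) A) : u = 0 := by
  induction k with
  | zero =>
    have : IsEmpty (SK C 0) := by
      rw [SK_zero]
      infer_instance
    exact H.eq_zero_of_isEmpty u
  | succ k ih =>
    apply SK.pb_injective R1 (show m ≠ k by omega)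
    rw [map_zero]
    exact ih (by omega) _

/-- A finite-dimensional complex is one of its skeleta. -/
theorem SK_eq_self {d : ℕ} (hd : ∀ n, d < n → IsEmpty (RelCWComplex.cell C n)) :
    SK C (d + 1) = C := by
  apply Subset.antisymm (SK_subset _)
  intro x hx
  rw [← CWComplex.iUnion_openCell_eq_complex (C := C)] at hx
  simp only [mem_iUnion] at hx
  obtain ⟨n, j, hj⟩ := hx
  rw [mem_SK]
  refine ⟨n, ?_, j, hj⟩
  by_contra hlt
  exact (hd n (by omega)).false j

end

end Pool.Agent.Lib.MP_904b2a_gt
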