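import Pool.Agent.Lib.MP_904b2a_gt.Bundle

/-!
# MP_904b2a_gt: the definitions used by the final statement

Singular cohomology (as the set of cocycles modulo coboundaries; the operations are described on
representatives) and the axioms for Chern classes.
-/

open scoped BigOperators

namespace Pool.Agent.Lib.MP_904b2a_gt.Stmt

noncomputable section

/-- Singular `n`-simplices of `X`: continuous maps from the standard simplex. -/
abbrev Sing (n : ℕ) (X : Type) [TopologicalSpace X] : Type := C(stdSimplex ℝ (Fin (n + 1)), X)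

variable {X Y : Type} [TopologicalSpace X] [TopologicalSpace Y] {n : ℕ}

/-- The composition of a singular simplex with the affine map of standard simplices given by a
map of the vertices. -/
def Sing.vertexMap {m : ℕ} (σ : Sing n X) (f : Fin (m + 1) → Fin (n + 1)) : Sing m X :=
  ContinuousMap.comp σ ⟨stdSimplex.map f, stdSimplex.continuous_map f⟩

/-- The composition of a singular simplex with a continuous map. -/
def Sing.push (f : C(X, Y)) (σ : Sing n X) : Sing n Y := ContinuousMap.comp f σ

/-- The coboundary of a singular cochain (a function `φ` on the singular `n`-simplices):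
`(δφ)(σ) = ∑ (-1)^i φ(σ ∘ d^i)`. -/
def coboundary {A : Type} [AddCommGroup A] (φ : Sing n X → A) (σ : Sing (n + 1) X) : A :=
  ∑ i : Fin (n + 2), (-1 : ℤ) ^ (i : ℕ) • φ (σ.vertexMap i.succAbove)

/-- Two cochains are cohomologous if their difference is a coboundary. -/
def Cohomologous {A : Type} [AddCommGroup A] : ∀ {n : ℕ}, (Sing n X → A) → (Sing n X → A) → Prop
  | 0, φ, ψ => ∀ σ, φ σ = ψ σ
  | (n + 1), φ, ψ => ∃ η : Sing n X → A, ∀ σ : Sing (n + 1) X, φ σ - ψ σ = coboundary η σ

/-- Singular cohomology `H^n(X; A)`: cocycles modulo coboundaries. -/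
def Cohomology (n : ℕ) (X : Type) [TopologicalSpace X] (A : Type) [AddCommGroup A] : Type :=
  Quot (fun φ ψ : {φ : Sing n X → A // ∀ σ, coboundary φ σ = 0} => Cohomologous φ.1 ψ.1)

/-- The cochain `φ` is a cocycle which represents the class `u`. -/
def Represents {A : Type} [AddCommGroup A] (φ : Sing n X → A) (u : Cohomology n X A) : Prop :=
  ∃ h : ∀ σ, coboundary φ σ = 0, Quot.mk _ ⟨φ, h⟩ = u

/-- The cup product of cochains: `(φ ∪ ψ)(σ) = φ(σ | [0,…,p]) ψ(σ | [p,…,p+q])`. -/
def cup {p q : ℕ} (h : p + q = n) (φ : Sing p X → ℤ) (ψ : Sing q X → ℤ) (σ : Sing n X) : ℤ :=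
  φ (σ.vertexMap (fun k => ⟨k, by omega⟩)) * ψ (σ.vertexMap (fun k => ⟨p + k, by omega⟩))

/-- **The axioms for Chern classes** (Hirzebruch; Milnor–Stasheff; Hatcher): to every complex
vector bundle `V` over a topological space `X` and every `i` there is given a class
`c_i(V) ∈ H^{2i}(X;ℤ)`, such that (for embeddable bundles):
* `c_0(V) = 1`, and `c_i(V) = 0` for `i > rank V`;
* naturality: if a map `f : X → Y` is covered by a map of bundles `V → W` which is an isomorphism
  on every fibre, then `c_i(V) = f^* c_i(W)`;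
* Whitney sum formula: if `V` is the direct sum of `V₁` and `V₂`, then
  `c_k(V) = ∑_{i+j=k} c_i(V₁) ∪ c_j(V₂)`;
* normalization: if `V` is the tautological line bundle over the complex projective line, then
  `c_1(V)` generates `H²(ℂP¹;ℤ)`. -/
structure ChernClasses where
  c : ∀ {X : Type} [TopologicalSpace X] {r : ℕ} (_ : CVB r X) (i : ℕ), Cohomology (2 * i) X ℤ
  c_zero : ∀ {X : Type} [TopologicalSpace X] {r : ℕ} (V : CVB r X), V.Embeddable →
    Represents (fun _ => 1) (c V 0)
  c_gt : ∀ {X : Type} [TopologicalSpace X] {r : ℕ} (V : CVB r X), V.Embeddable →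
    ∀ i : ℕ, r < i → Represents (fun _ => 0) (c V i)
  natural : ∀ {X Y : Type} [TopologicalSpace X] [TopologicalSpace Y] {r : ℕ}
    (V : CVB r X) (W : CVB r Y) (f : C(X, Y)) (F : BMap V W f),
    W.Embeddable → (∀ x, Function.Bijective (F.app x)) →
    ∀ i φ, Represents φ (c W i) → Represents (fun σ => φ (σ.push f)) (c V i)
  whitney : ∀ {X : Type} [TopologicalSpace X] {r s t : ℕ}
    (V : CVB t X) (V₁ : CVB r X) (V₂ : CVB s X)
    (F₁ : BMap V₁ V (ContinuousMap.id X)) (F₂ : BMap V₂ V (ContinuousMap.id X)),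
    V.Embeddable →
    (∀ x, Function.Bijective (fun v : V₁.fib x × V₂.fib x => F₁.app x v.1 + F₂.app x v.2)) →
    ∀ (k : ℕ) (φ ψ : ∀ i, Sing (2 * i) X → ℤ),
      (∀ i, Represents (φ i) (c V₁ i)) → (∀ i, Represents (ψ i) (c V₂ i)) →
      Represents (fun σ => ∑ i : Fin (k + 1),
        cup (n := 2 * k) (by omega) (φ (i : ℕ)) (ψ (k - (i : ℕ))) σ) (c V k)
  normalization : ∀ (V : CVB 1 CP1) (F : TMap V (Fin 2)),
    (∀ P : CP1, Function.Injective (F.app P) ∧
      Set.range (F.app P) = Set.range (fun v : Fin 2 → ℂ => P.1.mulVec v)) →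
    ∀ φ, Represents φ (c V 1) → ∀ ψ : Sing 2 CP1 → ℤ, (∀ σ, coboundary ψ σ = 0) →
      ∃ m : ℤ, Cohomologous ψ (fun σ => m * φ σ)

end

end Pool.Agent.Lib.MP_904b2a_gt.Stmt
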